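import Pool.Agent.H14.LB.RatX
import Pool.Graph.R_seed8.TH954.Z.WTop

/-!
# Definitions for the statements
-/

set_option autoImplicit false

open MvPolynomial NumberField Pool.Agent.TH954.X

namespace Pool.Agent.H14.LB.S

section

variable {K : Type} [Field K] {n β : ℕ}

/-- the points over `F` of the product `B` of the abelian varieties `A b` -/
abbrev Pts (A : Fin β → AbV K n) (F : Type) [Field F] [Algebra K F] : Type := ∀ b, (A b).Pt F

/-- the coordinates of a point of `B` -/
def crds {A : Fin β → AbV K n} {F : Type} [Field F] [Algebra K F] (P : Pts A F) :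
    Fin β → Fin n → F := fun b => (P b).1

/-- the coordinates of the point `(t, P)` of `ℙ × B`, with `ℙ` the projective space of dimension
`n - 1` -/
def full {A : Fin β → AbV K n} {F : Type} [Field F] [Algebra K F] (t : Fin n → F)
    (P : Pts A F) : Option (Fin β) → Fin n → F := fun o => Option.elim o t (crds P)

/-- the equations of a closed subscheme of `ℙ × B`: finitely many multihomogeneous forms `f i`, of
multidegrees `δ i` -/
structure Eqs (K : Type) [Field K] (n β : ℕ) where
  s : ℕ
  f : Fin s → MvPolynomial (Option (Fin β) × Fin n) K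
  δ : Fin s → Option (Fin β) → ℕ
  hom : ∀ i, MH (δ i) (f i)

/-- the point `(t, P)` of `ℙ × B` lies on the closed subset `X` -/
def On {A : Fin β → AbV K n} (X : Eqs K n β) {F : Type} [Field F] [Algebra K F]
    (t : Fin n → F) (P : Pts A F) : Prop := ∀ i, ev (X.f i) (full t P) = 0

/-- the sum of the dimensions of the `A b` -/
def dimB (A : Fin β → AbV K n) : ℕ := ∑ b, (A b).dim

/-- the transcendence degree over `K` of the field generated by the coordinates of a point of `B` -/
noncomputable def trdegPt {A : Fin β → AbV K n} {F : Type} [Field F] [Algebra K F] (P : Pts A F) :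
    Cardinal :=
  Algebra.trdeg K (IntermediateField.adjoin K
    (Set.range (fun p : Fin β × Fin n => crds P p.1 p.2)))

/-- the dimension of `B` is at most (hence equal to) `dimB A` -/
def DimensionLe (A : Fin β → AbV K n) : Prop :=
  ∀ (F : Type) [Field F] [Algebra K F] (P : Pts A F), trdegPt P ≤ (dimB A : Cardinal)

/-- the image in `B` of the closed subset `X ∩ W` has codimension at least `c` -/
def ImageCodim (A : Fin β → AbV K n) (X W : Eqs K n β) (c : ℕ) : Prop :=
  ∀ (F : Type) [Field F] [Algebra K F] (t : Fin n → F) (P : Pts A F), t ≠ 0 → On X t P →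
    On W t P → trdegPt P + (c : Cardinal) ≤ (dimB A : Cardinal)

/-- the form `H`, with coefficients in an extension field `L` of `K`, does not vanish identically
on `B` -/
def NonzeroOn (A : Fin β → AbV K n) {L : Type} [Field L] [Algebra K L]
    (H : MvPolynomial (Fin β × Fin n) L) : Prop :=
  ∃ (F : Type) (_ : Field F) (_ : Algebra K F) (_ : Algebra L F) (_ : IsScalarTower K L F)
    (P : Pts A F), ev H (crds P) ≠ 0

/-- the local height of `x` with respect to the subscheme `W`: minus the logarithm of
`max_i |f i (x)|_v / ∏_j |x_j|_v ^ (δ i j)`, with `|x_j|_v` the maximum of the absolute values of the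
coordinates of `x_j` -/
noncomputable def lambda (W : Eqs K n β) {L : Type} [Field L] [Algebra K L]
    (x : Option (Fin β) → Fin n → L) (v : AbsoluteValue L ℝ) : ℝ :=
  -Real.log (⨆ i, v (ev (W.f i) x) / ∏ j, (⨆ c, v (x j c)) ^ W.δ i j)

/-- the height with respect to the subscheme `W` of a point over the number field `L`: the sum of
the local heights over all places of `L`, divided by the degree of `L` -/
noncomputable def heightW (W : Eqs K n β) {L : Type} [Field L] [NumberField L] [Algebra K L]
    (x : Option (Fin β) → Fin n → L) : ℝ :=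
  (∑ w : InfinitePlace L, (w.mult : ℝ) * lambda W x w.val +
    ∑ᶠ v : FinitePlace L, lambda W x v.val) / Module.finrank ℚ L

/-- the height of a point of `B` over the number field `L`: the sum of the logarithmic heights of
its components, divided by the degree of `L` -/
noncomputable def height {A : Fin β → AbV K n} {L : Type} [Field L] [NumberField L] [Algebra K L]
    (P : Pts A L) : ℝ :=
  (∑ b, Height.logHeight (crds P b)) / Module.finrank ℚ L

/-- over the point `P` of `B(L)` there is a point `x = (t, P)` of `X(L)` which is in `W` or does not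
satisfy the inequality `h_W(x) ≤ ε h(P) + C` -/
def Exceptional {A : Fin β → AbV K n} (X W : Eqs K n β) (ε C : ℝ) {L : Type} [Field L]
    [NumberField L] [Algebra K L] (P : Pts A L) : Prop :=
  ∃ t : Fin n → L, t ≠ 0 ∧ On X t P ∧ (On W t P ∨ ε * height P + C < heightW W (full t P))

end

/-- the abelian variety `A` is the elliptic curve `y² = x³ + a x + b`: its points over all extension
fields `F` are those of Mathlib's Weierstrass curve, with the same group law and the coordinates
`(z, x, y, 0, ..., 0)`, equal to `(1, x, y, 0, ..., 0)` for the affine points and to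
`(0, 0, 1, 0, ..., 0)` for the point at infinity -/
def IsWeierstrass {K : Type} [Field K] {n : ℕ} (A : AbV K n) (a b : K) : Prop :=
  A.dim = 1 ∧ ∀ (F : Type) [Field F] [DecidableEq F] [Algebra K F],
    ∃ e : A.Pt F ≃+ (We.curve (algebraMap K F a) (algebraMap K F b)).toAffine.Point,
      ∀ P : A.Pt F, P.1 = fun c : Fin n => if h : c.1 < 3 then We.coords (e P) ⟨c.1, h⟩ else 0

lemma exc_iff {K : Type} [Field K] [NumberField K] {n β : ℕ} {A : Fin β → AbV K n}
    (X W : Eqs K n β) (ε C : ℝ) {L : Type} [Field L] [NumberField L] [Algebra K L] (P : Pts A L) :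
    Exceptional X W ε C P ↔ ExcX X.f W.f W.δ ε C L P := by
  have hd : (0 : ℝ) < Module.finrank ℚ L := Nat.cast_pos.2 Module.finrank_pos
  have key : ∀ t : Fin n → L, (ε * height P + C < heightW W (full t P) ↔
      ε * htL P + C * Module.finrank ℚ L < Pool.Agent.TH954.V.tot (fun w : AbsoluteValue L ℝ =>
        -Real.log (⨆ i, nvW w (W.δ i) (W.f i) (full t P)))) := by
    intro t
    have h1 : heightW W (full t P) = Pool.Agent.TH954.V.tot (fun w : AbsoluteValue L ℝ =>
        -Real.log (⨆ i, nvW w (W.δ i) (W.f i) (full t P))) /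
        Module.finrank ℚ L := rfl
    have h2 : height P = htL P / Module.finrank ℚ L := rfl
    rw [h1, h2, lt_div_iff₀ hd]
    have h3 : (ε * (htL P / Module.finrank ℚ L) + C) * Module.finrank ℚ L =
        ε * htL P + C * Module.finrank ℚ L := by
      field_simp
    rw [h3]
  constructor
  · rintro ⟨t, h1, h2, h3⟩
    exact ⟨t, h1, h2, h3.imp id (fun h => (key t).1 h)⟩
  · rintro ⟨t, h1, h2, h3⟩
    exact ⟨t, h1, h2, h3.imp id (fun h => (key t).2 h)⟩

/-- the local theorem -/
theorem locS (K : Type) [Field K] [NumberField K] (n β : ℕ) (A : Fin β → AbV K n)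
    (hA : DimensionLe A) (X W : Eqs K n β) (hc : ImageCodim A X W 2) (ε : ℝ) (hε : 0 < ε) :
    ∃ (D : ℕ) (δ C : ℝ), 0 < δ ∧ ∀ (Ω : Type) [Field Ω] [Algebra K Ω] (P0 : Pts A Ω),
      ∃ (H : MvPolynomial (Fin β × Fin n) Ω) (σ : Fin β → ℕ), MH σ H ∧ (∀ b, σ b ≤ D) ∧
        NonzeroOn A H ∧
        ∀ (L : Type) [Field L] [NumberField L] [Algebra K L] (φ : L →ₐ[K] Ω) (P0' P : Pts A L),
          (∀ b c, φ (crds P0' b c) = crds P0 b c) → height (P - P0') ≤ δ * height P0' →
          Exceptional X W ε C P → ev H (fun b c => φ (crds P b c)) = 0 := by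
  obtain ⟨D, δ0, C, hδ0, -, -, hloc⟩ := loc A hA (Fin X.s) (Fin W.s) X.f
    (fun i => ⟨X.δ i, X.hom i⟩) W.f W.δ W.hom
    (fun F _ _ t P ht h1 h2 => hc F t P ht h1 h2) ε hε
  refine ⟨D, δ0, C, hδ0, fun Ω _ _ P0 => ?_⟩
  obtain ⟨H, σ, h1, h2, h3, h4⟩ := hloc Ω P0
  refine ⟨H, σ, h1, h2, h3, fun L _ _ _ φ P0' P hφ hnear hE => ?_⟩
  refine h4 (bcB φ P) ⟨L, inferInstance, inferInstance, inferInstance, φ, P0', P, ?_, rfl, ?_,
    (exc_iff X W ε C P).1 hE⟩
  · funext b
    exact Subtype.ext (funext fun c => hφ b c)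
  · have hd : (0 : ℝ) < Module.finrank ℚ L := Nat.cast_pos.2 Module.finrank_pos
    have h5 : height (P - P0') = htL (P - P0') / Module.finrank ℚ L := rfl
    have h6 : height P0' = htL P0' / Module.finrank ℚ L := rfl
    rw [h5, h6, ← mul_div_assoc, div_le_div_iff_of_pos_right hd] at hnear
    exact hnear

/-- the theorem for finitely generated groups -/
theorem ratS (K : Type) [Field K] [NumberField K] (n β : ℕ) (A : Fin β → AbV K n)
    (hA : DimensionLe A) (X W : Eqs K n β) (hc : ImageCodim A X W 2) (ε : ℝ) (hε : 0 < ε) :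
    ∃ (C c : ℝ), ∀ (L : Type) [Field L] [NumberField L] [Algebra K L]
      (Γ : AddSubgroup (Pts A L)), Γ.FG → ∀ T : ℝ, 1 ≤ T →
      ∃ (H : MvPolynomial (Fin β × Fin n) L) (σ : Fin β → ℕ), MH σ H ∧
        (∀ b, (σ b : ℝ) ≤ c ^ (1 + Module.finrank ℤ Γ) * (1 + Real.log T)) ∧
        NonzeroOn A H ∧
        ∀ P ∈ Γ, height P ≤ T →
          ∀ (L' : Type) [Field L'] [NumberField L'] [Algebra K L'] [Algebra L L']
            [IsScalarTower K L L'] (P' : Pts A L'),
            (∀ b c, crds P' b c = algebraMap L L' (crds P b c)) →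
            Exceptional X W ε C P' → ev H (crds P) = 0 := by
  obtain ⟨C, c, -, hrat⟩ := ratX A hA (Fin X.s) (Fin W.s) X.f
    (fun i => ⟨X.δ i, X.hom i⟩) W.f W.δ W.hom
    (fun F _ _ t P ht h1 h2 => hc F t P ht h1 h2) ε hε
  refine ⟨C, c, fun L _ _ _ Γ hΓ T hT => ?_⟩
  obtain ⟨H, σ, h1, h2, h3, h4⟩ := hrat L Γ hΓ T hT
  refine ⟨H, σ, h1, h2, h3, fun P hP hPT L' _ _ _ _ _ P' hP' hE => ?_⟩
  have hd : (0 : ℝ) < Module.finrank ℚ L := Nat.cast_pos.2 Module.finrank_pos
  refine h4 P hP ?_ ⟨L', inferInstance, inferInstance, inferInstance, inferInstance,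
    inferInstance, ?_⟩
  · have h6 : height P = htL P / Module.finrank ℚ L := rfl
    rw [h6, div_le_iff₀ hd] at hPT
    exact hPT
  · have h7 : bcB (IsScalarTower.toAlgHom K L L') P = P' := by
      funext b
      exact Subtype.ext (funext fun c => (hP' b c).symm)
    rw [h7]
    exact (exc_iff X W ε C P').1 hE

/-- products of elliptic curves are examples -/
theorem exS (K : Type) [Field K] [NumberField K] (n : ℕ) (hn : 3 ≤ n) (β : ℕ) (a b : Fin β → K)
    (hd : ∀ i, 4 * a i ^ 3 + 27 * b i ^ 2 ≠ 0) :
    ∃ A : Fin β → AbV K n, DimensionLe A ∧ ∀ i, IsWeierstrass (A i) (a i) (b i) :=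
  Pool.Agent.TH954.Z.wtop K n hn β a b hd

end Pool.Agent.H14.LB.S
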