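import Pool.Graph.R_seed8.TH954.Z.Gp
import Pool.Graph.R_seed8.TH954.Z.Red
import Pool.Graph.R_seed8.TH954.Z.TopB
import Pool.Graph.R_seed8.TH954.Z.Avg

/-!
# Translates in general position and images of closed subsets, uniformly in the field
-/

set_option autoImplicit false
set_option linter.unusedSectionVars false

open MvPolynomial Pool.Agent.TH954.X Pool.Agent.TH954.V Pool.Agent.TH954.Z

namespace Pool.Agent.H14.LB

open Gp in
/-- Translates of a proper closed subset in general position are disjoint, uniformly in the field. -/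
theorem gpL (K : Type) [Field K] (n β : ℕ) (A : Fin β → AbV K n) (E : Type) [Fintype E]
    (f : E → MvPolynomial (Fin β × Fin n) K) (δ : E → Fin β → ℕ) (hf : ∀ i, MH (δ i) (f i))
    (hc : CodimB A f 1) :
    ∃ (d : ℕ) (Φ : MvPolynomial ((Fin (d + 1) × Fin β) × Fin n) K) (τ : Fin (d + 1) × Fin β → ℕ),
      MH τ Φ ∧ Gen.N (Cb A (d + 1)) Φ ∧
      ∃ (N M e : ℕ) (A0 : Finset K), 1 ≤ M ∧ ∀ (L : Type) [Field L] [Algebra K L]
        (w : AbsoluteValue L ℝ) (P : Bp A L) (Q : Fin (d + 1) → Bp A L),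
        nvW w τ Φ (vcT Q) ^ N ≤ kap A0 M e w *
          ⨆ p : Fin (d + 1) × E, nvW w (δ p.2) (f p.2) (vc (P + Q p.1)) := by
  classical
  obtain ⟨d, hd⟩ : ∃ d, d = β * n := ⟨_, rfl⟩
  let eE := Fintype.equivFin (Fin (d + 1) × E)
  let φ : Fin (d + 1) → Fin β → Option (Fin (d + 1)) × Fin β := fun j b => (some j, b)
  have hφ : ∀ j, Function.Injective (φ j) := fun j a b h => (Prod.ext_iff.mp h).2
  let f' : Fin (Fintype.card (Fin (d + 1) × E)) →
      MvPolynomial ((Option (Fin (d + 1)) × Fin β) × Fin n) K :=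
    fun i => rn (φ (eE.symm i).1) (f (eE.symm i).2)
  let δ' : Fin (Fintype.card (Fin (d + 1) × E)) → Option (Fin (d + 1)) × Fin β → ℕ :=
    fun i => rd (φ (eE.symm i).1) (δ (eE.symm i).2)
  have hf' : ∀ i, MH (δ' i) (f' i) := fun i => rn_MH _ (hφ _) (hf _)
  obtain ⟨N, hN, t', F, iF, iA, η, hη0, hη1, hη2, hη3⟩ :=
    nullW K (wqX (Vd A (d + 1))) (wqX_MH _) f' (fun i => ⟨δ' i, hf' i⟩)
  -- the points
  have hpt : ∀ i p m, aeval (η i p) ((A p.2).eqn m) = 0 := by
    intro i p m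
    have h1 := hη1 i ⟨p, m⟩
    unfold wqX at h1
    rw [ev_rename] at h1
    exact h1
  let yi : ∀ i, Fin (d + 1) → Bp A (F i) := fun i j b => ⟨η i (some j, b), hη0 i _, hpt i (some j, b)⟩
  let Pi : ∀ i, Bp A (F i) := fun i b => ⟨η i (none, b), hη0 i _, hpt i (none, b)⟩
  have hyi : ∀ i j x, ev (f x) (vc (yi i j)) = 0 := by
    intro i j x
    have h1 := hη2 i (eE (j, x))
    simp only [f', ev_rn, Equiv.symm_apply_apply] at h1
    exact h1
  have h1 : ∀ i, ∃ (Φ : MvPolynomial ((Fin (d + 1) × Fin β) × Fin n) K)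
      (τ : Fin (d + 1) × Fin β → ℕ), MH τ Φ ∧
      Gen.N (Cb A (d + 1)) Φ ∧ ev Φ (vcT (fun j => yi i j - Pi i)) = 0 := by
    intro i
    subst hd
    exact exΦ A (F i) (Pi i) (yi i) (fun j => hc (F i) (yi i j) (hyi i j))
  choose Φi τi hΦ1 hΦ2 hΦ3 using h1
  obtain ⟨⟨τ, hτ⟩, hNΦ⟩ := Gen.N_prod (Cb A (d + 1)) (irr_Cb A _)
    (Gen.N_z0 (Cb A (d + 1)) (ind_Cb A _)).2 Finset.univ Φi (fun i _ => ⟨_, hΦ1 i⟩)
    (fun i _ => hΦ2 i)
  have hG : ∀ i, ev (1 : MvPolynomial ((Option (Fin (d + 1)) × Fin β) × Fin n) K) (η i) = 0 ∨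
      ∃ t : Fin (d + 1) × Fin β → Fin n → F i,
        (∀ l, Tg (Fa A l) (η i) (t l)) ∧ ev (∏ i, Φi i) t = 0 := by
    intro i
    refine Or.inr ⟨vcT (fun j => yi i j - Pi i), fun l => ?_, ?_⟩
    · exact Fa_Tg A l (η i) (yi i l.1 l.2) (Pi i l.2) rfl rfl
    · have h2 : ev (∏ i, Φi i) (vcT (fun j => yi i j - Pi i)) =
          ∏ i', ev (Φi i') (vcT (fun j => yi i j - Pi i)) := by
        simp only [ev, map_prod]
      rw [h2]
      exact Finset.prod_eq_zero (Finset.mem_univ i) (hΦ3 i)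
  obtain ⟨A0, M, e, hM, hA⟩ := locX_G (wqX (Vd A (d + 1))) (wqX_MH _)
    (fun _ _ _ _ _ => True) f' δ' hf' F η hη3 (fun l => rd (ps l) (fun _ => 2))
    (Fa A) (Fa_MH A) (fun l => locF_fam _ (wqX_MH _) _ _ (Fa_fam A l)) 1 (fun _ => 0) MH_one
    ⟨∅, 1, 0, le_refl _, fun L _ _ w u _ _ => by
      have h3 : nvW w (fun _ => 0)
          (1 : MvPolynomial ((Option (Fin (d + 1)) × Fin β) × Fin n) K) u = 1 := by
        simp [nvW, ev]
      rw [h3, mul_one]
      exact one_le_kap _ (le_refl _) _ _⟩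
    (∏ i, Φi i) τ hτ hG
  · refine ⟨d, ∏ i, Φi i, τ, hτ, hNΦ, N, M, e, A0, hM, fun L _ _ w P Q => ?_⟩
    let u : Option (Fin (d + 1)) × Fin β → Fin n → L :=
      fun p => Option.elim p.1 (P p.2).1 (fun j => (P p.2 + Q j p.2).1)
    have hu : OnS (wqX (Vd A (d + 1))) u := by
      refine onS_of ?_ ?_
      · rintro ⟨_ | j, b⟩
        · exact (P b).2.1.ne_zero
        · exact (P b + Q j b).2.1.ne_zero
      · rintro ⟨_ | j, b⟩ m
        · exact (P b).2.2 m
        · exact (P b + Q j b).2.2 m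
    have h2 := hA L w u hu trivial (vcT Q) (fun l => by
      have h3 := Fa_Tg A l u (P l.2 + Q l.1 l.2) (P l.2) rfl rfl
      rw [add_sub_cancel_left] at h3
      exact h3)
    refine h2.trans (le_of_eq ?_)
    congr 1
    rw [← eE.iSup_comp]
    refine iSup_congr (fun p => ?_)
    simp only [f', δ', nvW_rn, Equiv.symm_apply_apply]
    rfl

lemma nvW_upL {K : Type} [Field K] {β n : ℕ} {A : Fin β → AbV K n} {L : Type} [Field L]
    [Algebra K L] (w : AbsoluteValue L ℝ) (η : Fin β → ℕ)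
    (h : MvPolynomial (Fin β × Fin n) K) (t : Fin n → L) (P : Bp A L) :
    nvW w (fun o => Option.elim o 0 η) (RedG.up h) (fl t P) = nvW w η h (vc P) := by
  unfold nvW
  rw [RedG.ev_up, Fintype.prod_option]
  have e1 : (fun (j : Fin β) (c : Fin n) => fl t P (some j) c) = vc P := rfl
  have e2 : ∀ j : Fin β, (⨆ c, w (fl t P (some j) c)) = ⨆ c, w (vc P j c) := fun j => rfl
  rw [e1]
  simp only [Option.elim_none, Option.elim_some, pow_zero, one_mul, e2]

lemma kap_monoL {K : Type} [Field K] {L : Type} [Field L] [Algebra K L] {A B : Finset K}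
    (h : A ⊆ B) {M M' : ℕ} (hM : M ≤ M')
    (w : AbsoluteValue L ℝ) : kap A M 1 w ≤ kap B M' 1 w := by
  unfold kap
  rw [pow_one, pow_one]
  have h1 := cM_mono h w
  have h2 : 0 ≤ cM A w := zero_le_one.trans (one_le_cM A w)
  split_ifs
  · rw [one_mul, one_mul]
    exact h1
  · have h3 : (M : ℝ) ≤ M' := by exact_mod_cast hM
    exact mul_le_mul h3 h1 h2 (Nat.cast_nonneg _)

open RedG in
/-- The closure of the image in `B` of a closed subset of `ℙ × B`, uniformly in the field. -/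
theorem redL (K : Type) [Field K] (n β : ℕ) (A : Fin β → AbV K n) (E1 E2 : Type)
    [Fintype E1] [Fintype E2] (g : E1 → MvPolynomial (Option (Fin β) × Fin n) K)
    (hg : ∀ i, ∃ γ, MH γ (g i))
    (f : E2 → MvPolynomial (Option (Fin β) × Fin n) K) (δ : E2 → Option (Fin β) → ℕ)
    (hf : ∀ i, MH (δ i) (f i)) (c : ℕ)
    (hcod : ∀ (F : Type) [Field F] [Algebra K F] (t : Fin n → F) (P : Bp A F), t ≠ 0 →
      (∀ i, ev (g i) (fl t P) = 0) → (∀ i, ev (f i) (fl t P) = 0) →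
      td (K := K) (vc P) + (c : Cardinal) ≤ ((∑ b, (A b).dim : ℕ) : Cardinal)) :
    ∃ (s : ℕ) (h : Fin s → MvPolynomial (Fin β × Fin n) K) (η : Fin s → Fin β → ℕ),
      (∀ i, MH (η i) (h i)) ∧ CodimB A h c ∧
      ∃ (N M : ℕ) (A0 : Finset K), 0 < N ∧ 1 ≤ M ∧ ∀ (L : Type) [Field L] [Algebra K L]
        (w : AbsoluteValue L ℝ) (t : Fin n → L)
        (P : Bp A L), t ≠ 0 → (∀ i, ev (g i) (fl t P) = 0) →
        (⨆ i, nvW w (η i) (h i) (vc P)) ^ N ≤ kap A0 M 1 w * ⨆ i, nvW w (δ i) (f i) (fl t P) := by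
  classical
  -- the system
  set wq : E1 ⊕ (Σ b : Fin β, Fin (A b).e) → MvPolynomial (Option (Fin β) × Fin n) K :=
    Sum.elim g (fun p => geq p.1 ((A p.1).eqn p.2)) with hwq
  have hwq1 : ∀ i, ∃ d, MH d (wq i) := by
    rintro (i | p)
    · exact hg i
    · exact ⟨_, MH_geq p.1 ((A p.1).hom p.2)⟩
  choose ρ hρ using hwq1
  set e2 := Fintype.equivFin E2 with he2
  obtain ⟨N, hN, t, F, iF, iA, y, hy1, hy2, hy3, hy4⟩ := nullW K wq (fun i => ⟨ρ i, hρ i⟩)
    (fun l => f (e2.symm l)) (fun l => ⟨δ (e2.symm l), hf _⟩)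
  -- the points
  have hpt : ∀ i b, Normed (y i (some b)) ∧ ∀ l, aeval (y i (some b)) ((A b).eqn l) = 0 := by
    intro i b
    refine ⟨hy1 i (some b), fun l => ?_⟩
    have h1 := hy2 i (Sum.inr ⟨b, l⟩)
    change ev (geq b ((A b).eqn l)) (y i) = 0 at h1
    rw [ev_geq] at h1
    exact h1
  set P : ∀ i, Bp A (F i) := fun i b => ⟨y i (some b), hpt i b⟩ with hP
  have hful : ∀ i, fl (y i none) (P i) = y i := by
    intro i
    funext o
    cases o with
    | none => rfl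
    | some b => rfl
  have htr : ∀ i, td (K := K) (vc (P i)) + (c : Cardinal) ≤
      ((∑ b, (A b).dim : ℕ) : Cardinal) := by
    intro i
    refine hcod (F i) (y i none) (P i) (hy1 i none).ne_zero (fun l => ?_) (fun l => ?_)
    · rw [hful i]
      exact hy2 i (Sum.inl l)
    · rw [hful i]
      have h1 := hy3 i (e2 l)
      rw [Equiv.symm_apply_apply] at h1
      exact h1
  obtain ⟨s, h, η, hη, h0, hsp⟩ := exists_forms F iF iA (fun i => vc (P i))
  refine ⟨s, h, η, hη, ?_, ?_⟩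
  · intro G _ _ u hhu
    obtain ⟨i, hi⟩ := hsp G (vc u) hhu
    exact (add_le_add_left (trdeg_le (vc u) (vc (P i)) (fun b => (u b).2.1) hi) _).trans (htr i)
  · have hup : ∀ l i, ev (up (h l)) (y i) = 0 := by
      intro l i
      rw [ev_up]
      exact h0 l i
    have key := fun l => locW_null wq ρ hρ (fun l => f (e2.symm l)) (fun l => δ (e2.symm l))
      (fun l => hf _) (up (h l)) _ (MH_up (hη l)) N
      (hy4 (up (h l)) ⟨_, MH_up (hη l)⟩ (hup l))
    choose A' M hM hAM using key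
    refine ⟨N, (∑ l, M l) + 1, Finset.univ.biUnion A', hN, Nat.succ_pos _,
      fun L _ _ w t u ht hgu => ?_⟩
    have hsup0 : 0 ≤ ⨆ i, nvW w (δ i) (f i) (fl t u) :=
      Real.iSup_nonneg fun i => nvW_nonneg _ _ _ _
    have hkap0 : 0 ≤ kap (Finset.univ.biUnion A') ((∑ l, M l) + 1) 1 w :=
      zero_le_one.trans (one_le_kap _ (Nat.succ_pos _) _ _)
    rcases Nat.eq_zero_or_pos s with hs | hs
    · subst hs
      rw [Real.iSup_of_isEmpty, zero_pow hN.ne']
      exact mul_nonneg hkap0 hsup0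
    · have : Nonempty (Fin s) := ⟨⟨0, hs⟩⟩
      obtain ⟨l, hl⟩ := exists_eq_ciSup_of_finite (f := fun l => nvW w (η l) (h l) (vc u))
      rw [← hl]
      have h1 := hAM l L w (fl t u) ?_ ?_
      · rw [nvW_upL] at h1
        have h2 : (⨆ i, nvW w (δ (e2.symm i)) (f (e2.symm i)) (fl t u)) =
            ⨆ i, nvW w (δ i) (f i) (fl t u) :=
          Equiv.iSup_comp (g := fun i => nvW w (δ i) (f i) (fl t u)) e2.symm
        rw [h2] at h1
        refine h1.trans (mul_le_mul_of_nonneg_right (kap_monoL ?_ ?_ w) hsup0)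
        · exact Finset.subset_biUnion_of_mem A' (Finset.mem_univ l)
        · exact (Finset.single_le_sum (f := M) (fun _ _ => Nat.zero_le _)
            (Finset.mem_univ l)).trans (Nat.le_succ _)
      · rintro (_ | b)
        · exact ht
        · exact (u b).2.1.ne_zero
      · rintro (i | p)
        · exact hgu i
        · change ev (geq p.1 ((A p.1).eqn p.2)) (fl t u) = 0
          rw [ev_geq]
          exact (u p.1).2.2 p.2

end Pool.Agent.H14.LB
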