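import Pool.Agent.H14.LB.Base

/-!
# Products of monomials in the coordinates of several points
-/

set_option autoImplicit false
set_option linter.unusedSectionVars false

open MvPolynomial Pool.Agent.TH954.X Pool.Agent.TH954.V Pool.Agent.TH954.Z

namespace Pool.Agent.H14.LB

section

variable {K : Type} [Field K] {n β : ℕ}

/-- the index set of the monomials on `B` -/
abbrev Bx (A : Fin β → AbV K n) (s : ℕ) : Type := (b : Fin β) → Fin (A b).dim → Fin (s + 1)

lemma card_Bx (A : Fin β → AbV K n) (s : ℕ) :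
    Fintype.card (Bx A s) = (s + 1) ^ (∑ b, (A b).dim) := by
  simp only [Bx, Fintype.card_pi, Fintype.card_fin, Finset.prod_const, Finset.card_univ]
  rw [Finset.prod_pow_eq_pow_sum]

/-- the exponents of the monomial -/
def exq (A : Fin β → AbV K n) {s : ℕ} (a : Bx A s) (b : Fin β) (c : Fin n) : ℕ :=
  (∑ i, if (A b).z i = c then (a b i : ℕ) else 0) +
    if c = (A b).z0 then (A b).dim * s - ∑ i, (a b i : ℕ) else 0

/-- the monomial, evaluated -/
def mon (A : Fin β → AbV K n) {s : ℕ} (a : Bx A s) {F : Type} [Field F] (v : Fin β → Fin n → F) :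
    F := ∏ b, ∏ c, v b c ^ exq A a b c

lemma sum_le_Bx (A : Fin β → AbV K n) {s : ℕ} (a : Bx A s) (b : Fin β) :
    ∑ i, (a b i : ℕ) ≤ (A b).dim * s := by
  calc ∑ i, (a b i : ℕ) ≤ ∑ _i : Fin (A b).dim, s :=
        Finset.sum_le_sum (fun i _ => Nat.lt_succ_iff.mp (a b i).2)
    _ = (A b).dim * s := by simp

lemma sum_exq (A : Fin β → AbV K n) {s : ℕ} (a : Bx A s) (b : Fin β) :
    ∑ c, exq A a b c = (A b).dim * s := by
  unfold exq
  rw [Finset.sum_add_distrib, Finset.sum_comm]
  have h1 : ∑ i : Fin (A b).dim, ∑ c : Fin n, (if (A b).z i = c then (a b i : ℕ) else 0) =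
      ∑ i, (a b i : ℕ) := by
    refine Finset.sum_congr rfl (fun i _ => ?_)
    rw [Finset.sum_ite_eq]
    simp
  rw [h1, Finset.sum_ite_eq']
  simp only [Finset.mem_univ, if_true]
  have := sum_le_Bx A a b
  omega

lemma mon_smul (A : Fin β → AbV K n) {s : ℕ} (a : Bx A s) {F : Type} [Field F] (r : Fin β → F)
    (v : Fin β → Fin n → F) :
    mon A a (fun b => r b • v b) = (∏ b, r b ^ ((A b).dim * s)) * mon A a v := by
  unfold mon
  rw [← Finset.prod_mul_distrib]
  refine Finset.prod_congr rfl (fun b _ => ?_)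
  simp only [Pi.smul_apply, smul_eq_mul, mul_pow]
  rw [Finset.prod_mul_distrib, Finset.prod_pow_eq_pow_sum, sum_exq]

/-- the bound for the monomials -/
lemma mon_le (A : Fin β → AbV K n) {s : ℕ} (a : Bx A s) {F : Type} [Field F]
    (w : AbsoluteValue F ℝ) (v : Fin β → Fin n → F) :
    w (mon A a v) ≤ ∏ b, (⨆ c, w (v b c)) ^ ((A b).dim * s) := by
  unfold mon
  rw [w.map_prod]
  refine Finset.prod_le_prod (fun b _ => w.nonneg _) (fun b _ => ?_)
  rw [w.map_prod, ← sum_exq A a b, ← Finset.prod_pow_eq_pow_sum]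
  refine Finset.prod_le_prod (fun c _ => w.nonneg _) (fun c _ => ?_)
  rw [w.map_pow]
  exact pow_le_pow_left₀ (w.nonneg _) (le_supW w (v b) c) _

/-- the exponents of a product of monomials -/
noncomputable def expo (A : Fin β → AbV K n) {s r : ℕ} (φ : Fin r → Bx A s) :
    (Fin r × Fin β) × Fin n →₀ ℕ :=
  Finsupp.equivFunOnFinite.symm (fun p => exq A (φ p.1.1) p.1.2 p.2)

/-- the form with given coefficients -/
noncomputable def Gf (A : Fin β → AbV K n) {s r : ℕ} (c : (Fin r → Bx A s) → K) :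
    MvPolynomial ((Fin r × Fin β) × Fin n) K :=
  ∑ φ, monomial (expo A φ) (c φ)

lemma MH_Gf (A : Fin β → AbV K n) {s r : ℕ} (c : (Fin r → Bx A s) → K) :
    MH (fun p => (A p.2).dim * s) (Gf A c) := by
  classical
  unfold Gf
  refine MH_sum _ _ _ (fun φ _ => ?_)
  intro m hm p
  have h1 : m = expo A φ := by
    have := support_monomial_subset hm
    rwa [Finset.mem_singleton] at this
  rw [h1]
  exact sum_exq A (φ p.1) p.2

lemma ev_Gf (A : Fin β → AbV K n) {s r : ℕ} (c : (Fin r → Bx A s) → K) {F : Type} [Field F]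
    [Algebra K F] (u : Fin r × Fin β → Fin n → F) :
    ev (Gf A c) u = ∑ φ, algebraMap K F (c φ) * ∏ j, mon A (φ j) (fun b => u (j, b)) := by
  unfold ev Gf
  rw [map_sum]
  refine Finset.sum_congr rfl (fun φ _ => ?_)
  rw [aeval_monomial, Finsupp.prod_fintype _ _ (fun p => pow_zero _)]
  congr 1
  rw [Fintype.prod_prod_type, Fintype.prod_prod_type]
  rfl

/-- a nonzero form of this type does not vanish identically -/
lemma NZ_Gf (A : Fin β → AbV K n) {s r : ℕ} (c : (Fin r → Bx A s) → K) (hc : c ≠ 0) :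
    Gen.N (Gp.Cb A r) (Gf A c) := by
  classical
  obtain ⟨Ω, iΩ, iA, _, P, h1, h2, -⟩ := gen K n (Fin r × Fin β) (Fin r × Fin β) (fun _ => 1)
    (Equiv.sigmaUnique (Fin r × Fin β) (fun _ => Fin 1)) (fun p => (A p.2).toAbR.blk)
    (fun p => (A p.2).irr) (fun p => (A p.2).ind)
  let u : Fin r × Fin β → Fin n → Ω := fun p => (P p default).1
  have h1' : ∀ p : Fin r × Fin β, u p (A p.2).z0 ≠ 0 := h1
  have h2' : AlgebraicIndependent K (fun p : (i : Fin r × Fin β) × Fin (A i.2).dim =>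
    u p.1 ((A p.1.2).z p.2) / u p.1 (A p.1.2).z0) := h2
  refine ⟨Ω, iΩ, iA, u, fun p => ⟨P p default, rfl⟩, ?_⟩
  -- the polynomial in the ratios
  let toH : (Fin r → Bx A s) → (((i : Fin r × Fin β) × Fin (A i.2).dim) →₀ ℕ) := fun φ =>
    Finsupp.equivFunOnFinite.symm (fun p => (φ p.1.1 p.1.2 p.2 : ℕ))
  have htoHinj : Function.Injective toH := by
    intro a b hab
    have h1 := Finsupp.equivFunOnFinite.symm.injective hab
    funext j l i
    apply Fin.ext
    exact congrFun h1 (⟨(j, l), i⟩ : (i : Fin r × Fin β) × Fin (A i.2).dim)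
  set H : MvPolynomial ((i : Fin r × Fin β) × Fin (A i.2).dim) K :=
    ∑ φ, c φ • monomial (toH φ) (1 : K) with hH
  have hcoeff : ∀ φ, coeff (toH φ) H = c φ := by
    intro a
    rw [hH, coeff_sum, Finset.sum_eq_single a]
    · rw [coeff_smul, coeff_monomial, if_pos rfl, smul_eq_mul, mul_one]
    · intro b _ hne
      rw [coeff_smul, coeff_monomial, if_neg (fun h => hne (htoHinj h)), smul_zero]
    · intro h
      exact absurd (Finset.mem_univ _) h
  have hH0 : H ≠ 0 := by
    intro h0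
    apply hc
    funext φ
    rw [← hcoeff φ, h0, coeff_zero]
    rfl
  have hmon : ∀ φ : Fin r → Bx A s, ∏ j, mon A (φ j) (fun b => u (j, b)) =
      (∏ p : Fin r × Fin β, u p (A p.2).z0 ^ ((A p.2).dim * s)) *
        ∏ p : (i : Fin r × Fin β) × Fin (A i.2).dim,
          (u p.1 ((A p.1.2).z p.2) / u p.1 (A p.1.2).z0) ^ (toH φ) p := by
    intro φ
    change ∏ j, mon A (φ j) (fun b => u (j, b)) =
      (∏ p : Fin r × Fin β, u p (A p.2).z0 ^ ((A p.2).dim * s)) *
        ∏ p : (i : Fin r × Fin β) × Fin (A i.2).dim,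
          (u p.1 ((A p.1.2).z p.2) / u p.1 (A p.1.2).z0) ^ (φ p.1.1 p.1.2 p.2 : ℕ)
    unfold mon
    rw [← Fintype.prod_prod_type' (f := fun j b => ∏ c, u (j, b) c ^ exq A (φ j) b c),
      Fintype.prod_sigma, ← Finset.prod_mul_distrib]
    refine Finset.prod_congr rfl (fun p _ => ?_)
    obtain ⟨j, l⟩ := p
    simp only [exq]
    simp_rw [pow_add]
    rw [Finset.prod_mul_distrib]
    have h1 : ∏ c : Fin n, u (j, l) c ^ (∑ i, if (A l).z i = c then (φ j l i : ℕ) else 0) =
        ∏ i, u (j, l) ((A l).z i) ^ (φ j l i : ℕ) := by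
      simp_rw [← Finset.prod_pow_eq_pow_sum]
      rw [Finset.prod_comm]
      refine Finset.prod_congr rfl (fun i _ => ?_)
      rw [Finset.prod_eq_single ((A l).z i)]
      · simp
      · intro c _ hc
        rw [if_neg (Ne.symm hc), pow_zero]
      · simp
    have h2 : ∏ c : Fin n, u (j, l) c ^
        (if c = (A l).z0 then (A l).dim * s - ∑ i, (φ j l i : ℕ) else 0) =
        u (j, l) (A l).z0 ^ ((A l).dim * s - ∑ i, (φ j l i : ℕ)) := by
      rw [Finset.prod_eq_single ((A l).z0)]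
      · simp
      · intro c _ hc
        rw [if_neg hc, pow_zero]
      · simp
    rw [h1, h2]
    simp_rw [div_pow]
    rw [Finset.prod_div_distrib, Finset.prod_pow_eq_pow_sum]
    have h3 : u (j, l) (A l).z0 ^ ((A l).dim * s) =
        u (j, l) (A l).z0 ^ ((A l).dim * s - ∑ i, (φ j l i : ℕ)) *
        u (j, l) (A l).z0 ^ (∑ i, (φ j l i : ℕ)) := by
      rw [← pow_add]
      congr 1
      have := sum_le_Bx A (φ j) l
      omega
    rw [h3]
    have h4 : u (j, l) (A l).z0 ^ (∑ i, (φ j l i : ℕ)) ≠ 0 := pow_ne_zero _ (h1' (j, l))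
    field_simp
  have hevG : ev (Gf A c) u = (∏ p : Fin r × Fin β, u p (A p.2).z0 ^ ((A p.2).dim * s)) *
      aeval (fun p : (i : Fin r × Fin β) × Fin (A i.2).dim =>
        u p.1 ((A p.1.2).z p.2) / u p.1 (A p.1.2).z0) H := by
    rw [ev_Gf, hH, map_sum, Finset.mul_sum]
    refine Finset.sum_congr rfl (fun φ _ => ?_)
    rw [hmon φ, map_smul, aeval_monomial, map_one, one_mul, Algebra.smul_def]
    rw [Finsupp.prod_fintype _ _ (fun _ => pow_zero _)]
    ring
  rw [hevG]
  refine mul_ne_zero (Finset.prod_ne_zero_iff.mpr (fun l _ => pow_ne_zero _ (h1' l))) ?_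
  intro h0
  exact hH0 ((injective_iff_map_eq_zero _).mp h2' H h0)

end

end Pool.Agent.H14.LB
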