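import Pool.Agent.H14.LB.Scale

/-!
# All algebraic points near a given algebraic point
-/

set_option autoImplicit false
set_option linter.unusedSectionVars false

open MvPolynomial Pool.Agent.TH954.X Pool.Agent.TH954.V Pool.Agent.TH954.Z NumberField

namespace Pool.Agent.H14.LB

variable {K : Type} [Field K] [NumberField K] {n β : ℕ}

/-- the algebraic points near `P0` over which there is an exceptional point -/
def SetC {A : Fin β → AbV K n} {E1 E2 : Type} (g : E1 → MvPolynomial (Option (Fin β) × Fin n) K)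
    (f : E2 → MvPolynomial (Option (Fin β) × Fin n) K) (δ : E2 → Option (Fin β) → ℕ)
    (ε C δ0 : ℝ) (Ω : Type) [Field Ω] [Algebra K Ω] (P0 : Bp A Ω) : Set (Bp A Ω) :=
  {y | ∃ (L : Type) (_ : Field L) (_ : NumberField L) (_ : Algebra K L) (φ : L →ₐ[K] Ω)
    (P0' P : Bp A L), bcB φ P0' = P0 ∧ bcB φ P = y ∧ htL (P - P0') ≤ δ0 * htL P0' ∧
    ExcX g f δ ε C L P}

lemma bcB_inj {A : Fin β → AbV K n} {L F : Type} [Field L] [Algebra K L] [Field F] [Algebra K F]
    (φ : L →ₐ[K] F) {P Q : Bp A L} (h : bcB φ P = bcB φ Q) : P = Q := by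
  funext b
  refine Subtype.ext (funext fun c => ?_)
  have h1 := congrFun (congrArg Subtype.val (congrFun h b)) c
  exact φ.injective h1

lemma bcB_comp {A : Fin β → AbV K n} {L F F' : Type} [Field L] [Algebra K L] [Field F]
    [Algebra K F] [Field F'] [Algebra K F']
    (φ : L →ₐ[K] F) (ψ : F →ₐ[K] F') (P : Bp A L) : bcB ψ (bcB φ P) = bcB (ψ.comp φ) P := rfl

theorem hbadC {A : Fin β → AbV K n} {E1 E2 : Type} [Fintype E2]
    (g : E1 → MvPolynomial (Option (Fin β) × Fin n) K)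
    (f : E2 → MvPolynomial (Option (Fin β) × Fin n) K) (δ : E2 → Option (Fin β) → ℕ)
    {ε C δ0 : ℝ} {m : ℕ} {Ψ : MvPolynomial ((Fin (m + 2) × Fin β) × Fin n) K}
    (hmain : ∀ (L : Type) [Field L] [NumberField L] [Algebra K L] (P0 : Bp A L)
          (Q : Fin (m + 2) → Bp A L),
          (htL (Q 0 - P0) ≤ δ0 * htL P0) →
          (∀ k : Fin (m + 1), htL (Q 0 + Q k.succ - P0) ≤ δ0 * htL P0 ∧
            ExcX g f δ ε C L (Q 0 + Q k.succ)) →
          ev Ψ (vcT Q) = 0)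
    (Ω : Type) [Field Ω] [Algebra K Ω] (P0 : Bp A Ω) (Q : Fin (m + 2) → Bp A Ω)
    (hQ0 : Q 0 ∈ SetC g f δ ε C δ0 Ω P0)
    (hQk : ∀ k : Fin (m + 1), Q 0 + Q k.succ ∈ SetC g f δ ε C δ0 Ω P0) :
    ev Ψ (vcT Q) = 0 := by
  set y : Fin (m + 2) → Bp A Ω := Fin.cases (Q 0) (fun k => Q 0 + Q k.succ) with hy
  have hyS : ∀ j, y j ∈ SetC g f δ ε C δ0 Ω P0 := by
    intro j
    refine Fin.cases ?_ (fun k => ?_) j
    · exact hQ0
    · exact hQk k
  choose L iF iN iA φ P0' P hP0 hP hnear hexc using hyS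
  have hfd : ∀ j, FiniteDimensional K (L j) := fun j => Module.Finite.of_restrictScalars_finite ℚ K (L j)
  have hfr : ∀ j, FiniteDimensional K (φ j).fieldRange := fun j =>
    LinearMap.finiteDimensional_range (φ j).toLinearMap
  set E : IntermediateField K Ω := ⨆ j, (φ j).fieldRange with hE
  have hEfd : FiniteDimensional K E := IntermediateField.finiteDimensional_iSup_of_finite
  have hEN : NumberField E := NumberField.of_module_finite K E
  have hmemE : ∀ j (x : L j), φ j x ∈ E := fun j x =>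
    (le_iSup (fun j => (φ j).fieldRange) j) ⟨x, rfl⟩
  let ψ : ∀ j, L j →ₐ[K] E := fun j => (φ j).codRestrict E.toSubalgebra (hmemE j)
  have hψ : ∀ j, E.val.comp (ψ j) = φ j := fun j => by
    ext x
    rfl
  -- the points over `E`
  set yE : Fin (m + 2) → Bp A E := fun j => bcB (ψ j) (P j) with hyE
  have hyE1 : ∀ j, bcB E.val (yE j) = y j := fun j => by
    rw [hyE]
    simp only
    rw [bcB_comp, hψ, hP]
  set P0E : Bp A E := bcB (ψ 0) (P0' 0) with hP0E
  have hP0E1 : ∀ j, bcB (ψ j) (P0' j) = P0E := by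
    intro j
    apply bcB_inj E.val
    rw [hP0E, bcB_comp, hψ, hP0, bcB_comp, hψ, hP0]
  have hkey : ∀ j, htL (yE j - P0E) ≤ δ0 * htL P0E ∧ ExcX g f δ ε C E (yE j) := by
    intro j
    let iAE : Algebra (L j) E := (ψ j).toRingHom.toAlgebra
    have iT : IsScalarTower K (L j) E :=
      IsScalarTower.of_algebraMap_eq (fun x => ((ψ j).commutes x).symm)
    have hb : ∀ R : Bp A (L j), bcB (IsScalarTower.toAlgHom K (L j) E) R = bcB (ψ j) R :=
      fun R => rfl
    constructor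
    · have h1 : yE j - P0E = bcB (ψ j) (P j - P0' j) := by
        rw [bcB_sub, hP0E1 j]
      rw [h1, ← hP0E1 j, ← hb, ← hb, htL_scale, htL_scale]
      have h2 := mul_le_mul_of_nonneg_left (hnear j)
        (Nat.cast_nonneg (α := ℝ) (Module.finrank (L j) E))
      linarith
    · have h1 := ExcX_scale (L' := E) g f δ (P j) (hexc j)
      rw [hb] at h1
      exact h1
  -- the tuple over `E`
  set QE : Fin (m + 2) → Bp A E := Fin.cases (yE 0) (fun k => yE k.succ - yE 0) with hQE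
  have hQE0 : QE 0 = yE 0 := rfl
  have hQEk : ∀ k : Fin (m + 1), QE k.succ = yE k.succ - yE 0 := fun k => rfl
  have h1 := hmain E P0E QE (by rw [hQE0]; exact (hkey 0).1) (fun k => by
    rw [hQE0, hQEk, add_sub_cancel]
    exact hkey k.succ)
  have h2 : Q = fun j => bcB E.val (QE j) := by
    funext j
    refine Fin.cases ?_ (fun k => ?_) j
    · rw [hQE0, hyE1]
      rfl
    · rw [hQEk, bcB_sub, hyE1, hyE1]
      have h3 : y k.succ = Q 0 + Q k.succ := rfl
      have h4 : y 0 = Q 0 := rfl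
      rw [h3, h4, add_sub_cancel_left]
  rw [h2, ev_bcT, h1, map_zero]

/-- **The local theorem.** -/
theorem loc (A : Fin β → AbV K n) (hA : Top A) (E1 E2 : Type) [Fintype E1] [Fintype E2]
    (g : E1 → MvPolynomial (Option (Fin β) × Fin n) K) (hg : ∀ i, ∃ γ, MH γ (g i))
    (f : E2 → MvPolynomial (Option (Fin β) × Fin n) K) (δ : E2 → Option (Fin β) → ℕ)
    (hf : ∀ i, MH (δ i) (f i))
    (hcod : ∀ (F : Type) [Field F] [Algebra K F] (t : Fin n → F) (P : Bp A F), t ≠ 0 →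
      (∀ i, ev (g i) (fl t P) = 0) → (∀ i, ev (f i) (fl t P) = 0) →
      td (K := K) (vc P) + ((2 : ℕ) : Cardinal) ≤ ((∑ b, (A b).dim : ℕ) : Cardinal))
    (ε : ℝ) (hε : 0 < ε) :
    ∃ (D : ℕ) (δ0 C : ℝ), 0 < δ0 ∧ δ0 ≤ 1 / 4 ∧ 0 ≤ C ∧
      ∀ (Ω : Type) [Field Ω] [Algebra K Ω] (P0 : Bp A Ω),
        ∃ (H : MvPolynomial (Fin β × Fin n) Ω) (σ : Fin β → ℕ), MH σ H ∧ (∀ b, σ b ≤ D) ∧
          NZ1 A Ω H ∧ ∀ y ∈ SetC g f δ ε C δ0 Ω P0, ev H (vc y) = 0 := by
  obtain ⟨m, Ψ, τ, hτ, hNZ, δ0, C, hδ0, hδ1, hC, hmain⟩ := locX A hA E1 E2 g hg f δ hf hcod ε hε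
  refine ⟨(∑ p, τ p) * 2, δ0, C, hδ0, hδ1, hC, fun Ω _ _ P0 => ?_⟩
  exact selShift (SetC g f δ ε C δ0 Ω P0) m Ψ τ hτ hNZ (∑ p, τ p)
    (fun p => Finset.single_le_sum (f := τ) (fun _ _ => Nat.zero_le _) (Finset.mem_univ p))
    (fun Q h0 hk => hbadC g f δ hmain Ω P0 Q h0 hk)

end Pool.Agent.H14.LB
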