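import Pool.Agent.H14.LB.RelL
import Pool.Graph.R_seed8.TH954.Y.Comb

/-!
# The main inequality
-/

set_option autoImplicit false
set_option linter.unusedSectionVars false

open MvPolynomial Pool.Agent.TH954.X Pool.Agent.TH954.V Pool.Agent.TH954.Z NumberField

namespace Pool.Agent.H14.LB

section mp

variable {K L : Type} [Field K] [Field L] [Algebra K L] {ι : Type} [Fintype ι] {n : ℕ}

/-- the form, with coefficients in `L` -/
noncomputable def mp (L : Type) [Field L] [Algebra K L] (f : MvPolynomial (ι × Fin n) K) :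
    MvPolynomial (ι × Fin n) L := map (algebraMap K L) f

lemma MH_mp {σ : ι → ℕ} {f : MvPolynomial (ι × Fin n) K} (hf : MH σ f) : MH σ (mp L f) :=
  fun m hm i => hf m (support_map_subset _ _ hm) i

lemma ev_mp {F : Type} [Field F] [Algebra K F] [Algebra L F] [IsScalarTower K L F]
    (f : MvPolynomial (ι × Fin n) K) (u : ι → Fin n → F) : ev (mp L f) u = ev f u := by
  unfold ev mp
  exact aeval_map_algebraMap L _ f

lemma nvW_mp (w : AbsoluteValue L ℝ) (σ : ι → ℕ) (f : MvPolynomial (ι × Fin n) K)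
    (u : ι → Fin n → L) : nvW w σ (mp L f) u = nvW w σ f u := by
  unfold nvW
  rw [ev_mp]

end mp

section

variable {K : Type} [Field K] {n β : ℕ}

/-- the local height of a point with values in an extension field, made nonnegative -/
noncomputable def lamL {E : Type} (L : Type) [Field L] [Algebra K L] {ι : Type} [Fintype ι]
    (δ : E → ι → ℕ) (f : E → MvPolynomial (ι × Fin n) K) (u : ι → Fin n → L)
    (w : AbsoluteValue L ℝ) : ℝ :=
  max 0 (-Real.log (⨆ i, nvW w (δ i) (f i) u))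

lemma lamL_eq {E : Type} (L : Type) [Field L] [Algebra K L] {ι : Type} [Fintype ι]
    (δ : E → ι → ℕ) (f : E → MvPolynomial (ι × Fin n) K) (u : ι → Fin n → L) :
    lamL L δ f u = Pool.Agent.TH954.Y.lam0 δ (fun i => mp L (f i)) u := by
  funext w
  unfold lamL Pool.Agent.TH954.Y.lam0
  simp only [nvW_mp]

lemma N_rn (A : Fin β → AbV K n) {r m : ℕ} (e : Fin r ↪ Fin m)
    (Φ : MvPolynomial ((Fin r × Fin β) × Fin n) K) (h : Gen.N (Gp.Cb A r) Φ) :
    Gen.N (Gp.Cb A m) (Gp.rn (fun p : Fin r × Fin β => (e p.1, p.2)) Φ) := by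
  classical
  obtain ⟨F, iF, iA, v, hv, hne⟩ := h
  choose P hP using hv
  let P' : ∀ p : Fin m × Fin β, (A p.2).Pt F := fun p =>
    if h : ∃ i, e i = p.1 then P (h.choose, p.2) else 0
  refine ⟨F, iF, iA, fun p => (P' p).1, fun p => ⟨P' p, rfl⟩, ?_⟩
  rw [Gp.ev_rn]
  have h1 : (fun i : Fin r × Fin β => (P' (e i.1, i.2)).1) = v := by
    funext i
    have h2 : ∃ j, e j = e i.1 := ⟨i.1, rfl⟩
    have h3 : P' (e i.1, i.2) = P (h2.choose, i.2) := dif_pos h2
    have h4 : h2.choose = i.1 := e.injective h2.choose_spec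
    rw [h3, ← hP i]
    change (P (h2.choose, i.2)).1 = (P (i.1, i.2)).1
    rw [h4]
  rw [h1]
  exact hne

lemma ht_eq [NumberField K] {A : Fin β → AbV K n} {L : Type} [Field L] [Algebra K L]
    (P : Bp A L) : ∀ b, vc P b ≠ 0 := fun b => (P b).2.1.ne_zero

/-- the height of a point over an extension field -/
noncomputable def htL {A : Fin β → AbV K n} {L : Type} [Field L] [NumberField L] [Algebra K L]
    (P : Bp A L) : ℝ := ∑ b, Height.logHeight (vc P b)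

lemma htL_nonneg {A : Fin β → AbV K n} {L : Type} [Field L] [NumberField L] [Algebra K L]
    (P : Bp A L) : 0 ≤ htL P := Finset.sum_nonneg (fun _ _ => Height.logHeight_nonneg _)

/-- the height of a point near a closed subset of codimension one is bounded from below -/
lemma tot_lamL_le [NumberField K] {ι : Type} [Fintype ι] (Φ : MvPolynomial (ι × Fin n) K)
    (τ : ι → ℕ) (hτ : MH τ Φ) : ∃ C : ℝ, 0 ≤ C ∧ ∀ (L : Type) [Field L] [NumberField L]
      [Algebra K L] (u : ι → Fin n → L), (∀ j, u j ≠ 0) → ev Φ u ≠ 0 →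
      FS (lamL L (fun _ : Unit => τ) (fun _ => Φ) u) ∧
      tot (lamL L (fun _ : Unit => τ) (fun _ => Φ) u) ≤
        ∑ j, (τ j : ℝ) * Height.logHeight (u j) + C * Module.finrank ℚ L := by
  classical
  obtain ⟨Ag, Mg, hMg, hAg⟩ := nvW_le Φ τ hτ
  obtain ⟨ck, hck0, hck⟩ := tot_kap Ag hMg 1
  refine ⟨ck, hck0, fun L _ _ _ u hu h0 => ?_⟩
  have h0' : ev (mp L Φ) u ≠ 0 := by rw [ev_mp]; exact h0
  have hF1 : FS (fun w => Real.log (nvW w τ (mp L Φ) u)) :=
    Pool.Agent.TH954.Y.FS_lognv τ (mp L Φ) hu h0'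
  have hFS : FS (lamL L (fun _ : Unit => τ) (fun _ => Φ) u) := by
    rw [lamL_eq]
    exact Pool.Agent.TH954.Y.FS_lam0 _ _ (fun _ => MH_mp hτ) hu ⟨(), h0'⟩
  refine ⟨hFS, ?_⟩
  have h1 : tot (lamL L (fun _ : Unit => τ) (fun _ => Φ) u) ≤
      tot (fun w => (-1 : ℝ) * Real.log (nvW w τ (mp L Φ) u) + Real.log (kap Ag Mg 1 w)) := by
    have hpt : ∀ w : AbsoluteValue L ℝ, lamL L (fun _ : Unit => τ) (fun _ => Φ) u w ≤
        (-1 : ℝ) * Real.log (nvW w τ (mp L Φ) u) + Real.log (kap Ag Mg 1 w) := by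
      intro w
      have h2 : Real.log (nvW w τ (mp L Φ) u) ≤ Real.log (kap Ag Mg 1 w) := by
        rw [nvW_mp]
        refine Real.log_le_log ?_ (hAg L w u hu)
        have := Pool.Agent.TH954.Y.nvW_pos w τ (mp L Φ) hu h0'
        rwa [nvW_mp] at this
      have h3 := Real.log_nonneg (one_le_kap Ag hMg 1 w)
      unfold lamL
      rw [ciSup_const, ← nvW_mp]
      refine max_le (by linarith) (by linarith)
    exact tot_le hFS (FS_add (FS_mul hF1 _) (hck L).1) (fun w => hpt _) (fun w => hpt _)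
  rw [tot_add (FS_mul hF1 _) (hck L).1, tot_mul hF1,
    Pool.Agent.TH954.Y.tot_lognv τ (mp L Φ) hu h0'] at h1
  have h2 := (hck L).2
  linarith

end

section main

variable {K : Type} [Field K] [NumberField K] {n β : ℕ}

/-- **The main inequality.** -/
theorem mainIneq (A : Fin β → AbV K n) (hA : Top A) (E : Type) [Fintype E]
    (f : E → MvPolynomial (Fin β × Fin n) K) (δ : E → Fin β → ℕ) (hf : ∀ i, MH (δ i) (f i))
    (hc : CodimB A f 2) :
    ∃ c0 : ℕ, ∀ m : ℕ, ∃ (Ψ : MvPolynomial ((Fin (m + 2) × Fin β) × Fin n) K)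
      (τ : Fin (m + 2) × Fin β → ℕ), MH τ Ψ ∧ Gen.N (Gp.Cb A (m + 2)) Ψ ∧
      ∃ (D D2 : ℕ) (C3 : ℝ), D ^ 2 ≤ c0 * (m + 1) ∧ 0 ≤ C3 ∧
        ∀ (L : Type) [Field L] [NumberField L] [Algebra K L] (Q : Fin (m + 2) → Bp A L),
          ev Ψ (vcT Q) ≠ 0 →
          (∀ k : Fin (m + 1), ∃ j, ev (f j) (vc (Q 0 + Q k.succ)) ≠ 0) ∧
          (∀ k : Fin (m + 1), FS (lamL L δ f (vc (Q 0 + Q k.succ)))) ∧
          ∑ k : Fin (m + 1), tot (lamL L δ f (vc (Q 0 + Q k.succ))) ≤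
            (c0 * D) * htL (Q 0) + D2 * ∑ k : Fin (m + 1), htL (Q k.succ) +
              C3 * Module.finrank ℚ L := by
  classical
  have hc1 : CodimB A f 1 := by
    intro F _ _ P hP
    refine le_trans (add_le_add le_rfl ?_) (hc F P hP)
    norm_num
  obtain ⟨d, Φ, τ0, hτ0, hΦ, N, M0, e0, A0, hM0, hgp⟩ := gpL K n β A E f δ hf hc1
  obtain ⟨C, N1, hrel⟩ := relHyp A hA E f δ hf hc
  obtain ⟨cz, hcz0, hcz⟩ := tot_lamL_le Φ τ0 hτ0
  refine ⟨C + d * N1, fun m => ?_⟩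
  obtain ⟨D, G, σ, hDC, hσD, hσ, hGN, M1, e1, A1, hM1, hG⟩ := hrel m
  -- the form
  set ρ : (Fin (d + 1) ↪ Fin (m + 1)) → (Fin (d + 1) ↪ Fin (m + 2)) := fun e =>
    ⟨fun j => (e j).succ, fun a b h => e.injective (Fin.succ_injective _ h)⟩ with hρ
  set Φe : (Fin (d + 1) ↪ Fin (m + 1)) → MvPolynomial ((Fin (m + 2) × Fin β) × Fin n) K :=
    fun e => Gp.rn (fun p : Fin (d + 1) × Fin β => (ρ e p.1, p.2)) Φ with hΦe
  have hinj : ∀ e, Function.Injective (fun p : Fin (d + 1) × Fin β => (ρ e p.1, p.2)) := by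
    intro e p p' h
    exact Prod.ext ((ρ e).injective (Prod.ext_iff.1 h).1) (Prod.ext_iff.1 h).2
  have hΦeMH : ∀ e, ∃ τ, MH τ (Φe e) := fun e => ⟨_, Gp.rn_MH _ (hinj e) hτ0⟩
  obtain ⟨⟨τ1, hτ1⟩, hN1⟩ := Gen.N_prod (Gp.Cb A (m + 2)) (Gp.irr_Cb A _)
    (Gen.N_z0 (Gp.Cb A (m + 2)) (Gp.ind_Cb A _)).2 Finset.univ Φe (fun e _ => hΦeMH e)
    (fun e _ => N_rn A (ρ e) Φ hΦ)
  refine ⟨G * ∏ e, Φe e, _, MH_mul hσ hτ1,
    Gen.N_mul (Gp.Cb A (m + 2)) (Gp.irr_Cb A _) hσ hτ1 hGN hN1, ?_⟩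
  obtain ⟨Ag, Mg, hMg, hAg⟩ := nvW_le G σ hσ
  obtain ⟨ck, hck0, hck⟩ := tot_kap A0 hM0 e0
  obtain ⟨ck1, hck10, hck1⟩ := tot_kap A1 hM1 e1
  obtain ⟨ckg, hckg0, hckg⟩ := tot_kap Ag hMg 1
  set Ne : ℕ := Fintype.card (Fin (d + 1) ↪ Fin (m + 1)) with hNe
  set Dτ : ℕ := ∑ p, τ0 p with hDτ
  refine ⟨D, d * N1 * D + Ne * (N * Dτ), d * (N1 * ckg + ck1) + Ne * (N * cz + ck), ?_, ?_, ?_⟩
  · exact hDC.trans (Nat.mul_le_mul_right _ (Nat.le_add_right _ _))
  · positivity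
  intro L _ _ _ Q hQ
  set dL : ℝ := (Module.finrank ℚ L : ℝ) with hdL
  have hdL0 : 0 ≤ dL := Nat.cast_nonneg _
  have hev : ev (G * ∏ e, Φe e) (vcT Q) = ev G (vcT Q) * ∏ e, ev (Φe e) (vcT Q) := by
    simp only [ev, map_mul, map_prod]
  rw [hev] at hQ
  have hGQ : ev G (vcT Q) ≠ 0 := left_ne_zero_of_mul hQ
  have hΦQ : ∀ e : Fin (d + 1) ↪ Fin (m + 1), ev Φ (vcT (fun j => Q (e j).succ)) ≠ 0 := by
    intro e
    have h1 := Finset.prod_ne_zero_iff.1 (right_ne_zero_of_mul hQ) e (Finset.mem_univ e)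
    rw [hΦe] at h1
    simp only [Gp.ev_rn] at h1
    exact h1
  have hu0 : ∀ p, vcT Q p ≠ 0 := fun p => (Q p.1 p.2).2.1.ne_zero
  have hGQ' : ev (mp L G) (vcT Q) ≠ 0 := by rw [ev_mp]; exact hGQ
  have w1 : AbsoluteValue L ℝ := ai (Classical.arbitrary (InfinitePlace L))
  have hnvpos : ∀ w : AbsoluteValue L ℝ, 0 < nvW w σ G (vcT Q) := fun w => by
    have := Pool.Agent.TH954.Y.nvW_pos w σ (mp L G) hu0 hGQ'
    rwa [nvW_mp] at this
  set y : Fin (m + 1) → Bp A L := fun k => Q 0 + Q k.succ with hy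
  have hUpos : ∀ w k, 0 < ⨆ j, nvW w (δ j) (f j) (vc (y k)) := by
    intro w k
    have h1 := hG L w Q k
    have h2 : 0 < nvW w σ G (vcT Q) ^ N1 := pow_pos (hnvpos w) _
    have h3 : 0 < kap A1 M1 e1 w := zero_lt_one.trans_le (one_le_kap A1 hM1 e1 w)
    by_contra hcon
    have h4 := mul_nonpos_of_nonneg_of_nonpos h3.le (not_lt.mp hcon)
    linarith
  have hfne : ∀ k, ∃ j, ev (f j) (vc (y k)) ≠ 0 := fun k => by
    have h1 := hUpos w1 k
    have h2 : 0 < ⨆ j, nvW w1 (δ j) (mp L (f j)) (vc (y k)) := by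
      simp only [nvW_mp]
      exact h1
    obtain ⟨j, hj⟩ := Pool.Agent.TH954.Y.exists_of_sup_pos w1 δ (fun j => mp L (f j)) h2
    exact ⟨j, by rwa [ev_mp] at hj⟩
  set x : Fin (m + 1) → AbsoluteValue L ℝ → ℝ := fun k => lamL L δ f (vc (y k)) with hx
  have hxF : ∀ k, FS (x k) := fun k => by
    rw [hx]
    simp only
    rw [lamL_eq]
    obtain ⟨j, hj⟩ := hfne k
    exact Pool.Agent.TH954.Y.FS_lam0 δ (fun i => mp L (f i)) (fun i => MH_mp (hf i))
      (fun b => (y k b).2.1.ne_zero) ⟨j, by rwa [ev_mp]⟩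
  have hx0 : ∀ k w, 0 ≤ x k w := fun k w => le_max_left _ _
  refine ⟨hfne, hxF, ?_⟩
  -- the function `Gf`
  set Gf : AbsoluteValue L ℝ → ℝ := fun w =>
    (N1 : ℝ) * ((-1 : ℝ) * Real.log (nvW w σ (mp L G) (vcT Q)) + Real.log (kap Ag Mg 1 w)) +
      Real.log (kap A1 M1 e1 w) with hGf
  have hg1 := Pool.Agent.TH954.Y.FS_lognv σ (mp L G) hu0 hGQ'
  have hGF1 : FS (fun w => (-1 : ℝ) * Real.log (nvW w σ (mp L G) (vcT Q)) +
      Real.log (kap Ag Mg 1 w)) := FS_add (FS_mul hg1 _) (hckg L).1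
  have hGF : FS Gf := FS_add (FS_mul hGF1 _) (hck1 L).1
  set S1 : ℝ := ∑ k : Fin (m + 1), htL (Q k.succ) with hS1
  have hS10 : 0 ≤ S1 := Finset.sum_nonneg (fun k _ => htL_nonneg _)
  have hGT : tot Gf ≤ N1 * (D * (htL (Q 0) + S1)) + (N1 * ckg + ck1) * dL := by
    rw [hGf, tot_add (FS_mul hGF1 _) (hck1 L).1, tot_mul hGF1,
      tot_add (FS_mul hg1 _) (hckg L).1, tot_mul hg1,
      Pool.Agent.TH954.Y.tot_lognv σ (mp L G) hu0 hGQ']
    have h1 := (hck1 L).2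
    have h2 := (hckg L).2
    have h3 : ∑ p, (σ p : ℝ) * Height.logHeight (vcT Q p) ≤ D * (htL (Q 0) + S1) := by
      calc ∑ p, (σ p : ℝ) * Height.logHeight (vcT Q p) ≤
            ∑ p, (D : ℝ) * Height.logHeight (vcT Q p) :=
            Finset.sum_le_sum (fun p _ => mul_le_mul_of_nonneg_right
              (by exact_mod_cast hσD p) (Height.logHeight_nonneg _))
        _ = D * (htL (Q 0) + S1) := by
            rw [← Finset.mul_sum, Fintype.sum_prod_type, Fin.sum_univ_succ]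
            rfl
    have h4 : (N1 : ℝ) * (-1 * -∑ p, (σ p : ℝ) * Height.logHeight (vcT Q p) +
        tot (fun w : AbsoluteValue L ℝ => Real.log (kap Ag Mg 1 w))) ≤
        N1 * (D * (htL (Q 0) + S1) + ckg * dL) := by
      refine mul_le_mul_of_nonneg_left ?_ (Nat.cast_nonneg _)
      linarith
    linarith
  have hG0 : ∀ w, 0 ≤ Gf w := by
    intro w
    have h1 : Real.log (nvW w σ (mp L G) (vcT Q)) ≤ Real.log (kap Ag Mg 1 w) := by
      rw [nvW_mp]
      exact Real.log_le_log (hnvpos w) (hAg L w _ hu0)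
    have h2 : 0 ≤ Real.log (kap A1 M1 e1 w) := Real.log_nonneg (one_le_kap A1 hM1 e1 w)
    have h3 : 0 ≤ (N1 : ℝ) * ((-1 : ℝ) * Real.log (nvW w σ (mp L G) (vcT Q)) +
        Real.log (kap Ag Mg 1 w)) := mul_nonneg (Nat.cast_nonneg _) (by linarith)
    change 0 ≤ (N1 : ℝ) * ((-1 : ℝ) * Real.log (nvW w σ (mp L G) (vcT Q)) +
      Real.log (kap Ag Mg 1 w)) + Real.log (kap A1 M1 e1 w)
    linarith
  have hxG : ∀ k w, x k w ≤ Gf w := by
    intro k w
    refine max_le (hG0 w) ?_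
    have h1 := Real.log_le_log (pow_pos (hnvpos w) _) (hG L w Q k)
    rw [Real.log_pow, Real.log_mul (zero_lt_one.trans_le (one_le_kap A1 hM1 e1 w)).ne'
      (hUpos w k).ne'] at h1
    have h2 : 0 ≤ (N1 : ℝ) * Real.log (kap Ag Mg 1 w) :=
      mul_nonneg (Nat.cast_nonneg _) (Real.log_nonneg (one_le_kap Ag hMg 1 w))
    change _ ≤ (N1 : ℝ) * ((-1 : ℝ) * Real.log (nvW w σ (mp L G) (vcT Q)) +
      Real.log (kap Ag Mg 1 w)) + Real.log (kap A1 M1 e1 w)
    rw [nvW_mp]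
    linarith
  -- the tuples
  set z : (Fin (d + 1) ↪ Fin (m + 1)) → AbsoluteValue L ℝ → ℝ := fun e =>
    lamL L (fun _ : Unit => τ0) (fun _ => Φ) (vcT (fun j => Q (e j).succ)) with hz
  have hzF : ∀ e, FS (z e) ∧ tot (z e) ≤ Dτ * S1 + cz * dL := by
    intro e
    obtain ⟨h1, h2⟩ := hcz L (vcT (fun j => Q (e j).succ))
      (fun p => (Q (e p.1).succ p.2).2.1.ne_zero) (hΦQ e)
    refine ⟨h1, h2.trans ?_⟩
    have h3 : ∑ p, (τ0 p : ℝ) * Height.logHeight (vcT (fun j => Q (e j).succ) p) ≤ Dτ * S1 := by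
      rw [hDτ]
      push_cast
      rw [Finset.sum_mul]
      refine Finset.sum_le_sum (fun p _ => mul_le_mul_of_nonneg_left ?_ (Nat.cast_nonneg _))
      have h4 : Height.logHeight (vcT (fun j => Q (e j).succ) p) ≤ htL (Q (e p.1).succ) :=
        Finset.single_le_sum (f := fun b => Height.logHeight (vc (Q (e p.1).succ) b))
          (fun _ _ => Height.logHeight_nonneg _) (Finset.mem_univ p.2)
      refine h4.trans ?_
      exact Finset.single_le_sum (f := fun k : Fin (m + 1) => htL (Q k.succ))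
        (fun _ _ => htL_nonneg _) (Finset.mem_univ (e p.1))
    linarith
  have htup : ∀ (e : Fin (d + 1) ↪ Fin (m + 1)) (w : AbsoluteValue L ℝ),
      (⨅ j, x (e j) w) ≤ (N : ℝ) * z e w + Real.log (kap A0 M0 e0 w) := by
    intro e w
    have hk1 : 1 ≤ kap A0 M0 e0 w := one_le_kap A0 hM0 e0 w
    have h1 := hgp L w (Q 0) (fun j => Q (e j).succ)
    obtain ⟨jE, -⟩ := hfne (e 0)
    have hne2 : Nonempty (Fin (d + 1) × E) := ⟨(0, jE)⟩
    obtain ⟨p0, hp0⟩ := Finite.exists_max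
      (fun p : Fin (d + 1) × E => nvW w (δ p.2) (f p.2) (vc (y (e p.1))))
    set R : ℝ := ⨆ i, nvW w (δ i) (f i) (vc (y (e p0.1))) with hR
    have h2 : (⨆ p : Fin (d + 1) × E, nvW w (δ p.2) (f p.2) (vc (y (e p.1)))) ≤ R := by
      refine ciSup_le (fun p => (hp0 p).trans ?_)
      exact le_ciSup (f := fun i => nvW w (δ i) (f i) (vc (y (e p0.1))))
        (Set.finite_range _).bddAbove p0.2
    have hR0 : 0 < R := hUpos w (e p0.1)
    have h3 := h1.trans (mul_le_mul_of_nonneg_left h2 (zero_le_one.trans hk1))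
    have hne3 : ev (mp L Φ) (vcT (fun j => Q (e j).succ)) ≠ 0 := by
      rw [ev_mp]
      exact hΦQ e
    have h4 : 0 < nvW w τ0 Φ (vcT (fun j => Q (e j).succ)) := by
      have := Pool.Agent.TH954.Y.nvW_pos w τ0 (mp L Φ)
        (fun p => (Q (e p.1).succ p.2).2.1.ne_zero) hne3
      rwa [nvW_mp] at this
    have h5 := Real.log_le_log (pow_pos h4 N) h3
    rw [Real.log_pow, Real.log_mul (zero_lt_one.trans_le hk1).ne' hR0.ne'] at h5
    have h6 : -Real.log (nvW w τ0 Φ (vcT (fun j => Q (e j).succ))) ≤ z e w := by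
      have h8 : z e w = max 0 (-Real.log (⨆ _ : Unit,
        nvW w τ0 Φ (vcT (fun j => Q (e j).succ)))) := rfl
      rw [h8, ciSup_const]
      exact le_max_right _ _
    have h7 := mul_le_mul_of_nonneg_left h6 (Nat.cast_nonneg (α := ℝ) N)
    have h9 : 0 ≤ (N : ℝ) * z e w + Real.log (kap A0 M0 e0 w) := by
      have h10 := Real.log_nonneg hk1
      have h11 : 0 ≤ (N : ℝ) * z e w := mul_nonneg (Nat.cast_nonneg _) (le_max_left _ _)
      linarith
    refine (ciInf_le (f := fun i => x (e i) w) (Set.finite_range _).bddBelow p0.1).trans ?_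
    refine max_le h9 ?_
    change -Real.log R ≤ _
    linarith
  have hFe : ∀ e : Fin (d + 1) ↪ Fin (m + 1),
      FS (fun w => (N : ℝ) * z e w + Real.log (kap A0 M0 e0 w)) ∧
      tot (fun w => (N : ℝ) * z e w + Real.log (kap A0 M0 e0 w)) ≤
        N * (Dτ * S1 + cz * dL) + ck * dL := by
    intro e
    refine ⟨FS_add (FS_mul (hzF e).1 _) (hck L).1, ?_⟩
    rw [tot_add (FS_mul (hzF e).1 _) (hck L).1, tot_mul (hzF e).1]
    exact add_le_add (mul_le_mul_of_nonneg_left (hzF e).2 (Nat.cast_nonneg _)) (hck L).2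
  have hsum : ∀ w, ∑ i, x i w ≤ (d : ℝ) * Gf w + ∑ e : Fin (d + 1) ↪ Fin (m + 1),
      ((N : ℝ) * z e w + Real.log (kap A0 M0 e0 w)) := by
    intro w
    refine (Pool.Agent.TH954.Y.comb (m + 1) d (fun i => x i w) (Gf w) (hG0 w)
      (fun i => hx0 i w) (fun i => hxG i w)).trans ?_
    exact add_le_add le_rfl (Finset.sum_le_sum (fun e _ => htup e w))
  have htot := tot_le (FS_sum Finset.univ (fun i _ => hxF i))
    (FS_add (FS_mul hGF _) (FS_sum Finset.univ (fun e _ => (hFe e).1)))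
    (fun w => hsum (ai w)) (fun w => hsum (av w))
  rw [tot_sum _ (fun i _ => hxF i), tot_add (FS_mul hGF _)
    (FS_sum Finset.univ (fun e _ => (hFe e).1)), tot_mul hGF,
    tot_sum _ (fun e _ => (hFe e).1)] at htot
  have h2 : ∑ e : Fin (d + 1) ↪ Fin (m + 1), tot (fun w =>
      (N : ℝ) * z e w + Real.log (kap A0 M0 e0 w)) ≤
        Ne * (N * (Dτ * S1 + cz * dL) + ck * dL) := by
    refine (Finset.sum_le_sum (fun e _ => (hFe e).2)).trans (le_of_eq ?_)
    rw [Finset.sum_const, nsmul_eq_mul, Finset.card_univ]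
  have h3 : (d : ℝ) * tot Gf ≤ d * (N1 * (D * (htL (Q 0) + S1)) + (N1 * ckg + ck1) * dL) :=
    mul_le_mul_of_nonneg_left hGT (Nat.cast_nonneg _)
  have h4 : (0 : ℝ) ≤ C * D * htL (Q 0) := by
    have := htL_nonneg (Q 0)
    positivity
  push_cast
  change ∑ k, tot (x k) ≤ _
  nlinarith

end main

end Pool.Agent.H14.LB
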