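import Pool.Agent.H14.LB.Sel

/-!
# Exceptional points near a given point lie on a hypersurface of bounded degree
-/

set_option autoImplicit false
set_option linter.unusedSectionVars false

open MvPolynomial Pool.Agent.TH954.X Pool.Agent.TH954.V Pool.Agent.TH954.Z NumberField

namespace Pool.Agent.H14.LB

section selShift

variable {K : Type} [Field K] {n β : ℕ} {A : Fin β → AbV K n}

theorem selShift {L : Type} [Field L] [Algebra K L] (S : Set (Bp A L)) (m : ℕ)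
    (Ψ : MvPolynomial ((Fin (m + 2) × Fin β) × Fin n) K) (τ : Fin (m + 2) × Fin β → ℕ)
    (hτ : MH τ Ψ) (hN : Gen.N (Gp.Cb A (m + 2)) Ψ) (D : ℕ) (hD : ∀ p, τ p ≤ D)
    (hbad : ∀ Q : Fin (m + 2) → Bp A L, Q 0 ∈ S → (∀ k : Fin (m + 1), Q 0 + Q k.succ ∈ S) →
      ev Ψ (vcT Q) = 0) :
    ∃ (H : MvPolynomial (Fin β × Fin n) L) (σ : Fin β → ℕ), MH σ H ∧ (∀ b, σ b ≤ D * 2) ∧
      NZ1 A L H ∧ ∀ y ∈ S, ev H (vc y) = 0 := by
  have hN' := NZr_of_N A L Ψ hN
  by_cases hs : ∃ s ∈ S, NZr A L (sl0 s (mp L Ψ))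
  · obtain ⟨s, hsS, hsN⟩ := hs
    rcases sel {z : Bp A L | s + z ∈ S} D (m + 1) (sl0 s (mp L Ψ)) _ (MH_sl0 s (MH_mp hτ))
      (fun p => hD _) hsN with ⟨Q, hQ1, hQ2⟩ | ⟨H, σ, h1, h2, h3, h4⟩
    · exfalso
      rw [ev_sl0, ev_mp] at hQ2
      have h1 : bcB (IsScalarTower.toAlgHom K L L) s = s := by
        funext b
        rfl
      rw [h1] at hQ2
      refine hQ2 (hbad _ ?_ (fun k => ?_))
      · exact hsS
      · exact hQ1 k
    · obtain ⟨H', h5, h6, h7⟩ := shift A H σ h1 h3 s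
      refine ⟨H', _, h5, fun b => Nat.mul_le_mul_right _ (h2 b), h6, fun y hy => h7 y (h4 _ ?_)⟩
      change s + (y - s) ∈ S
      rw [add_sub_cancel]
      exact hy
  · push Not at hs
    obtain ⟨H, h1, h2, h3⟩ := slice S (mp L Ψ) τ (MH_mp hτ) hN' hs
    exact ⟨H, _, h1, fun b => (hD _).trans (by omega), h2, h3⟩

end selShift

variable {K : Type} [Field K] [NumberField K] {n β : ℕ}

/-- the comparison of the heights of two points near each other -/
lemma near_ht {C1 h h0 dL : ℝ} {δ0 : ℝ} (hδ : δ0 ≤ 1 / 4) (hh0 : 0 ≤ h0)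
    (h1 : h0 ≤ 2 * h + 2 * (δ0 * h0) + C1 * dL) : h0 ≤ 4 * h + 2 * C1 * dL := by
  nlinarith

/-- the points over which there is an exceptional point -/
def ExcX {A : Fin β → AbV K n} {E1 E2 : Type} (g : E1 → MvPolynomial (Option (Fin β) × Fin n) K)
    (f : E2 → MvPolynomial (Option (Fin β) × Fin n) K) (δ : E2 → Option (Fin β) → ℕ)
    (ε C : ℝ) (L : Type) [Field L] [NumberField L] [Algebra K L] (P : Bp A L) : Prop :=
  ∃ t : Fin n → L, t ≠ 0 ∧ (∀ i, ev (g i) (fl t P) = 0) ∧ ((∀ i, ev (f i) (fl t P) = 0) ∨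
    ε * htL P + C * Module.finrank ℚ L <
      tot (fun w : AbsoluteValue L ℝ => -Real.log (⨆ i, nvW w (δ i) (f i) (fl t P))))

/-- The reduction to closed subsets of `B`. -/
theorem redExc (A : Fin β → AbV K n) (E1 E2 : Type) [Fintype E1] [Fintype E2]
    (g : E1 → MvPolynomial (Option (Fin β) × Fin n) K) (hg : ∀ i, ∃ γ, MH γ (g i))
    (f : E2 → MvPolynomial (Option (Fin β) × Fin n) K) (δ : E2 → Option (Fin β) → ℕ)
    (hf : ∀ i, MH (δ i) (f i)) (c : ℕ)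
    (hcod : ∀ (F : Type) [Field F] [Algebra K F] (t : Fin n → F) (P : Bp A F), t ≠ 0 →
      (∀ i, ev (g i) (fl t P) = 0) → (∀ i, ev (f i) (fl t P) = 0) →
      td (K := K) (vc P) + (c : Cardinal) ≤ ((∑ b, (A b).dim : ℕ) : Cardinal)) :
    ∃ (s : ℕ) (h : Fin s → MvPolynomial (Fin β × Fin n) K) (η : Fin s → Fin β → ℕ),
      (∀ i, MH (η i) (h i)) ∧ CodimB A h c ∧
      ∃ (N : ℕ) (C' : ℝ), 0 < N ∧ 0 ≤ C' ∧ ∀ (ε C : ℝ) (L : Type) [Field L] [NumberField L]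
        [Algebra K L] (P : Bp A L), ExcX g f δ ε C L P →
          Exc0 η h (ε / N) ((C - C') / N) L (htL P) P := by
  obtain ⟨s, h, η, hη, hcd, N, M, A0, hN, hM, hl⟩ := redL K n β A E1 E2 g hg f δ hf c hcod
  obtain ⟨ck, hck0, hck⟩ := tot_kap A0 hM 1
  refine ⟨s, h, η, hη, hcd, N, ck, hN, hck0, fun ε C L _ _ _ P hP => ?_⟩
  have hNR : (0 : ℝ) < N := by exact_mod_cast hN
  obtain ⟨t, ht0, hgt, hbad⟩ := hP
  by_cases hall : ∀ i, ev (h i) (vc P) = 0
  · exact Or.inl hall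
  right
  push Not at hall
  obtain ⟨i0, hi0⟩ := hall
  have hu0 : ∀ b, vc P b ≠ 0 := fun b => (P b).2.1.ne_zero
  have hful : ∀ o, fl t P o ≠ 0 := by
    intro o
    cases o with
    | none => exact ht0
    | some b => exact hu0 b
  have hpos : ∀ w : AbsoluteValue L ℝ, 0 < ⨆ i, nvW w (η i) (h i) (vc P) := by
    intro w
    have h1 := Pool.Agent.TH954.Y.sup_nvW_pos w η (fun i => mp L (h i)) hu0
      ⟨i0, by rw [ev_mp]; exact hi0⟩
    simpa only [nvW_mp] using h1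
  have hk : ∀ w : AbsoluteValue L ℝ, 0 < kap A0 M 1 w := fun w =>
    zero_lt_one.trans_le (one_le_kap A0 hM 1 w)
  have hpos2 : ∀ w : AbsoluteValue L ℝ, 0 < ⨆ i, nvW w (δ i) (f i) (fl t P) := by
    intro w
    by_contra hcon
    have h4 := mul_nonpos_of_nonneg_of_nonpos (hk w).le (not_lt.mp hcon)
    have h5 := pow_pos (hpos w) N
    have := hl L w t P ht0 hgt
    linarith
  have hcmp : ∀ w : AbsoluteValue L ℝ, -Real.log (⨆ i, nvW w (δ i) (f i) (fl t P)) ≤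
      N * lamL L η h (vc P) w + Real.log (kap A0 M 1 w) := by
    intro w
    have h1 := Real.log_le_log (pow_pos (hpos w) N) (hl L w t P ht0 hgt)
    rw [Real.log_pow, Real.log_mul (hk w).ne' (hpos2 w).ne'] at h1
    have h2 : (N : ℝ) * -Real.log (⨆ i, nvW w (η i) (h i) (vc P)) ≤ N * lamL L η h (vc P) w :=
      mul_le_mul_of_nonneg_left (le_max_right _ _) hNR.le
    linarith
  have hne : ∃ i, ev (f i) (fl t P) ≠ 0 := by
    have w1 : AbsoluteValue L ℝ := ai (Classical.arbitrary (InfinitePlace L))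
    have h1 : 0 < ⨆ i, nvW w1 (δ i) (mp L (f i)) (fl t P) := by
      simp only [nvW_mp]
      exact hpos2 w1
    obtain ⟨i, hi⟩ := Pool.Agent.TH954.Y.exists_of_sup_pos w1 δ (fun i => mp L (f i)) h1
    exact ⟨i, by rwa [ev_mp] at hi⟩
  rcases hbad with hb | hb
  · obtain ⟨i, hi⟩ := hne
    exact absurd (hb i) hi
  have hFS1 : FS (lamL L η h (vc P)) := by
    rw [lamL_eq]
    exact Pool.Agent.TH954.Y.FS_lam0 η (fun i => mp L (h i)) (fun i => MH_mp (hη i)) hu0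
      ⟨i0, by rw [ev_mp]; exact hi0⟩
  have hFS2 : FS (fun w : AbsoluteValue L ℝ => -Real.log (⨆ i, nvW w (δ i) (f i) (fl t P))) := by
    obtain ⟨i, hi⟩ := hne
    have h1 := Pool.Agent.TH954.Y.FS_neg (Pool.Agent.TH954.Y.FS_logsup δ
      (fun i => mp L (f i)) (fun i => MH_mp (hf i)) hful ⟨i, by rw [ev_mp]; exact hi⟩)
    simpa only [nvW_mp] using h1
  have htot := tot_le hFS2 (FS_add (FS_mul hFS1 (N : ℝ)) (hck L).1) (fun w => hcmp _)
    (fun w => hcmp _)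
  rw [tot_add (FS_mul hFS1 _) (hck L).1, tot_mul hFS1] at htot
  have h3 := (hck L).2
  have h4 : ε * htL P + (C - ck) * Module.finrank ℚ L < N * tot (lamL L η h (vc P)) := by
    linarith
  have h5 : ε / N * htL P + (C - ck) / N * Module.finrank ℚ L =
      (ε * htL P + (C - ck) * Module.finrank ℚ L) / N := by ring
  rw [h5, div_lt_iff₀ hNR]
  linarith

/-- **The local theorem over a number field.** -/
theorem locX (A : Fin β → AbV K n) (hA : Top A) (E1 E2 : Type) [Fintype E1] [Fintype E2]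
    (g : E1 → MvPolynomial (Option (Fin β) × Fin n) K) (hg : ∀ i, ∃ γ, MH γ (g i))
    (f : E2 → MvPolynomial (Option (Fin β) × Fin n) K) (δ : E2 → Option (Fin β) → ℕ)
    (hf : ∀ i, MH (δ i) (f i))
    (hcod : ∀ (F : Type) [Field F] [Algebra K F] (t : Fin n → F) (P : Bp A F), t ≠ 0 →
      (∀ i, ev (g i) (fl t P) = 0) → (∀ i, ev (f i) (fl t P) = 0) →
      td (K := K) (vc P) + ((2 : ℕ) : Cardinal) ≤ ((∑ b, (A b).dim : ℕ) : Cardinal))
    (ε : ℝ) (hε : 0 < ε) :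
    ∃ (m : ℕ) (Ψ : MvPolynomial ((Fin (m + 2) × Fin β) × Fin n) K)
      (τ : Fin (m + 2) × Fin β → ℕ), MH τ Ψ ∧ Gen.N (Gp.Cb A (m + 2)) Ψ ∧
      ∃ (δ0 C : ℝ), 0 < δ0 ∧ δ0 ≤ 1 / 4 ∧ 0 ≤ C ∧
        ∀ (L : Type) [Field L] [NumberField L] [Algebra K L] (P0 : Bp A L)
          (Q : Fin (m + 2) → Bp A L),
          (htL (Q 0 - P0) ≤ δ0 * htL P0) →
          (∀ k : Fin (m + 1), htL (Q 0 + Q k.succ - P0) ≤ δ0 * htL P0 ∧
            ExcX g f δ ε C L (Q 0 + Q k.succ)) →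
          ev Ψ (vcT Q) = 0 := by
  obtain ⟨s, h, η, hη, hcd, N, C', hN, hC', hred⟩ := redExc A E1 E2 g hg f δ hf 2 hcod
  have hNR : (0 : ℝ) < N := by exact_mod_cast hN
  obtain ⟨C1, hC1, hadd⟩ := htL_add A
  obtain ⟨m, Ψ, τ, hτ, hNZ, δ0, C, hδ0, hC, hmain⟩ := nearThm A hA (Fin s) h η hη hcd
    (ε / N / 4) (by positivity)
  refine ⟨m, Ψ, τ, hτ, hNZ, min δ0 (1 / 4), N * (C + ε / N * C1) + C',
    lt_min hδ0 (by norm_num), min_le_right _ _, by positivity,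
    fun L _ _ _ P0 Q h0 hQ => ?_⟩
  set dL : ℝ := (Module.finrank ℚ L : ℝ) with hdL
  have hdL0 : 0 ≤ dL := Nat.cast_nonneg _
  have hh0 : 0 ≤ htL P0 := htL_nonneg P0
  refine hmain L P0 Q (h0.trans (mul_le_mul_of_nonneg_right (min_le_left _ _) hh0))
    (fun k => (hQ k).1.trans (mul_le_mul_of_nonneg_right (min_le_left _ _) hh0)) (fun k => ?_)
  obtain ⟨h1, h2⟩ := hQ k
  have h3 := hred _ _ L _ h2
  rcases h3 with h3 | h3
  · exact Or.inl h3
  · right
    refine lt_of_le_of_lt ?_ h3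
    have h4 := (hadd L (Q 0 + Q k.succ) (Q 0 + Q k.succ - P0)).1
    rw [sub_sub_cancel] at h4
    have h5 : htL P0 ≤ 4 * htL (Q 0 + Q k.succ) + 2 * C1 * dL := by
      refine near_ht (min_le_right δ0 (1 / 4)) hh0 ?_
      refine h4.trans ?_
      have := mul_le_mul_of_nonneg_left h1 (by norm_num : (0 : ℝ) ≤ 2)
      linarith
    have h6 : 0 ≤ ε / N := by positivity
    have h7 := mul_le_mul_of_nonneg_left h5 (by positivity : 0 ≤ ε / N / 4)
    have h8 : (N * (C + ε / N * C1) + C' - C') / N = C + ε / N * C1 := by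
      field_simp
      ring
    rw [h8]
    have h9 : 0 ≤ ε / N * C1 * dL := by positivity
    nlinarith

end Pool.Agent.H14.LB
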