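import Pool.Agent.H14.LB.Glob

/-!
# Exceptional points near a given point are in special position
-/

set_option autoImplicit false
set_option linter.unusedSectionVars false

open MvPolynomial Pool.Agent.TH954.X Pool.Agent.TH954.V Pool.Agent.TH954.Z NumberField

namespace Pool.Agent.H14.LB

variable {K : Type} [Field K] [NumberField K] {n β : ℕ}

lemma htL_add (A : Fin β → AbV K n) : ∃ C : ℝ, 0 ≤ C ∧ ∀ (L : Type) [Field L] [NumberField L]
    [Algebra K L] (P Q : Bp A L),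
    htL (P - Q) ≤ 2 * htL P + 2 * htL Q + C * Module.finrank ℚ L ∧
    htL (P + Q) ≤ 2 * htL P + 2 * htL Q + C * Module.finrank ℚ L := by
  choose C hC0 hC using fun b => par_unif (A b).toAbR
  refine ⟨∑ b, C b, Finset.sum_nonneg (fun b _ => hC0 b), fun L _ _ _ P Q => ⟨?_, ?_⟩⟩
  · unfold htL
    rw [Finset.mul_sum, Finset.mul_sum, Finset.sum_mul, ← Finset.sum_add_distrib,
      ← Finset.sum_add_distrib]
    refine Finset.sum_le_sum (fun b _ => ?_)
    have h1 := hC b L (P b) (Q b)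
    rw [abs_le] at h1
    have h2 : 0 ≤ Height.logHeight ((P b + Q b).1) := Height.logHeight_nonneg _
    have h3 : vc (P - Q) b = (P b - Q b).1 := rfl
    have h4 : vc P b = (P b).1 := rfl
    have h5 : vc Q b = (Q b).1 := rfl
    rw [h3, h4, h5]
    linarith [h1.2]
  · unfold htL
    rw [Finset.mul_sum, Finset.mul_sum, Finset.sum_mul, ← Finset.sum_add_distrib,
      ← Finset.sum_add_distrib]
    refine Finset.sum_le_sum (fun b _ => ?_)
    have h1 := hC b L (P b) (Q b)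
    rw [abs_le] at h1
    have h2 : 0 ≤ Height.logHeight ((P b - Q b).1) := Height.logHeight_nonneg _
    have h3 : vc (P + Q) b = (P b + Q b).1 := rfl
    have h4 : vc P b = (P b).1 := rfl
    have h5 : vc Q b = (Q b).1 := rfl
    rw [h3, h4, h5]
    linarith [h1.2]

/-- the choice of the number of points -/
lemma exists_m (c0 : ℕ) (ε : ℝ) (hε : 0 < ε) : ∃ m : ℕ, ∀ D : ℕ, D ^ 2 ≤ c0 * (m + 1) →
    4 * ((c0 : ℝ) * D) ≤ ε / 2 * (m + 1) := by
  obtain ⟨M, hM⟩ := exists_nat_gt (64 * (c0 : ℝ) ^ 3 / ε ^ 2)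
  refine ⟨M, fun D hD => ?_⟩
  have hD' : (D : ℝ) ^ 2 ≤ c0 * (M + 1) := by exact_mod_cast hD
  rw [div_lt_iff₀ (by positivity)] at hM
  have h1 : (4 * ((c0 : ℝ) * D)) ^ 2 ≤ (ε / 2 * (M + 1)) ^ 2 := by
    have h2 : (4 * ((c0 : ℝ) * D)) ^ 2 ≤ 16 * c0 ^ 3 * (M + 1) := by
      calc (4 * ((c0 : ℝ) * D)) ^ 2 = 16 * (c0 : ℝ) ^ 2 * (D : ℝ) ^ 2 := by ring
        _ ≤ 16 * (c0 : ℝ) ^ 2 * (c0 * (M + 1)) :=
          mul_le_mul_of_nonneg_left hD' (by positivity)
        _ = _ := by ring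
    refine h2.trans ?_
    have h3 : 64 * (c0 : ℝ) ^ 3 ≤ (M + 1) * ε ^ 2 := by nlinarith
    have h4 : (0 : ℝ) < M + 1 := by positivity
    nlinarith
  exact abs_le_of_sq_le_sq' h1 (by positivity) |>.2

/-- the points near `P0` on or near `f = 0` -/
def Exc0 {A : Fin β → AbV K n} {E : Type} (δ : E → Fin β → ℕ)
    (f : E → MvPolynomial (Fin β × Fin n) K) (ε C : ℝ) (L : Type) [Field L] [NumberField L]
    [Algebra K L] (R : ℝ) (P : Bp A L) : Prop :=
  (∀ j, ev (f j) (vc P) = 0) ∨ ε * R + C * Module.finrank ℚ L < tot (lamL L δ f (vc P))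

/-- **Exceptional points near a point are in special position.** -/
theorem nearThm (A : Fin β → AbV K n) (hA : Top A) (E : Type) [Fintype E]
    (f : E → MvPolynomial (Fin β × Fin n) K) (δ : E → Fin β → ℕ) (hf : ∀ i, MH (δ i) (f i))
    (hc : CodimB A f 2) (ε : ℝ) (hε : 0 < ε) :
    ∃ (m : ℕ) (Ψ : MvPolynomial ((Fin (m + 2) × Fin β) × Fin n) K)
      (τ : Fin (m + 2) × Fin β → ℕ), MH τ Ψ ∧ Gen.N (Gp.Cb A (m + 2)) Ψ ∧
      ∃ (δ0 C : ℝ), 0 < δ0 ∧ 0 ≤ C ∧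
        ∀ (L : Type) [Field L] [NumberField L] [Algebra K L] (P0 : Bp A L)
          (Q : Fin (m + 2) → Bp A L),
          htL (Q 0 - P0) ≤ δ0 * htL P0 →
          (∀ k : Fin (m + 1), htL (Q 0 + Q k.succ - P0) ≤ δ0 * htL P0) →
          (∀ k : Fin (m + 1), Exc0 δ f ε C L (htL P0) (Q 0 + Q k.succ)) →
          ev Ψ (vcT Q) = 0 := by
  obtain ⟨c0, hmain⟩ := mainIneq A hA E f δ hf hc
  obtain ⟨m, hm⟩ := exists_m c0 ε hε
  obtain ⟨Ψ, τ, hτ, hN, D, D2, C3, hD, hC3, hineq⟩ := hmain m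
  obtain ⟨C1, hC1, hadd⟩ := htL_add A
  refine ⟨m, Ψ, τ, hτ, hN, min 1 (ε / (8 * (D2 + 1))),
    c0 * D * C1 + D2 * (m + 1) * C1 + C3, lt_min one_pos (by positivity), by positivity, ?_⟩
  intro L _ _ _ P0 Q h0 hk hE
  by_contra hne
  obtain ⟨hz, -, hle⟩ := hineq L Q hne
  set dL : ℝ := (Module.finrank ℚ L : ℝ) with hdL
  have hdL0 : 0 ≤ dL := Nat.cast_nonneg _
  set h : ℝ := htL P0 with hh
  have hh0 : 0 ≤ h := htL_nonneg P0
  set δ0 : ℝ := min 1 (ε / (8 * (D2 + 1))) with hδ0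
  have hδ1 : δ0 ≤ 1 := min_le_left _ _
  have hδ2 : D2 * (4 * δ0) ≤ ε / 2 := by
    have h1 : δ0 ≤ ε / (8 * (D2 + 1)) := min_le_right _ _
    rw [le_div_iff₀ (by positivity)] at h1
    have h2 : 0 ≤ δ0 := (lt_min one_pos (by positivity)).le
    nlinarith
  -- the heights
  have hQ0 : htL (Q 0) ≤ 4 * h + C1 * dL := by
    have h1 := (hadd L (Q 0 - P0) P0).2
    rw [sub_add_cancel] at h1
    nlinarith
  have hQk : ∀ k : Fin (m + 1), htL (Q k.succ) ≤ 4 * δ0 * h + C1 * dL := by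
    intro k
    have h1 := (hadd L (Q 0 + Q k.succ - P0) (Q 0 - P0)).1
    have h2 : Q 0 + Q k.succ - P0 - (Q 0 - P0) = Q k.succ := by abel
    rw [h2] at h1
    have := hk k
    linarith
  have hsum : ∑ k : Fin (m + 1), htL (Q k.succ) ≤ (m + 1) * (4 * δ0 * h + C1 * dL) := by
    refine (Finset.sum_le_sum (fun k _ => hQk k)).trans (le_of_eq ?_)
    rw [Finset.sum_const, Finset.card_univ, Fintype.card_fin, nsmul_eq_mul]
    push_cast
    ring
  have hlow : ((m : ℝ) + 1) * (ε * h + (c0 * D * C1 + D2 * (m + 1) * C1 + C3) * dL) <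
      ∑ k : Fin (m + 1), tot (lamL L δ f (vc (Q 0 + Q k.succ))) := by
    have h1 : ∑ _k : Fin (m + 1), (ε * h + (c0 * D * C1 + D2 * (m + 1) * C1 + C3) * dL) <
        ∑ k : Fin (m + 1), tot (lamL L δ f (vc (Q 0 + Q k.succ))) := by
      refine Finset.sum_lt_sum_of_nonempty Finset.univ_nonempty (fun k _ => ?_)
      rcases hE k with h2 | h2
      · obtain ⟨j, hj⟩ := hz k
        exact absurd (h2 j) hj
      · exact h2
    rw [Finset.sum_const, Finset.card_univ, Fintype.card_fin, nsmul_eq_mul] at h1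
    push_cast at h1
    exact h1
  have hcD : 0 ≤ (c0 : ℝ) * D := by positivity
  have h1 : (c0 : ℝ) * D * htL (Q 0) ≤ ε / 2 * (m + 1) * h + c0 * D * C1 * dL := by
    have h2 := mul_le_mul_of_nonneg_left hQ0 hcD
    have h3 := mul_le_mul_of_nonneg_right (hm D hD) hh0
    nlinarith
  have h2 : (D2 : ℝ) * ∑ k : Fin (m + 1), htL (Q k.succ) ≤
      ε / 2 * (m + 1) * h + D2 * (m + 1) * C1 * dL := by
    have h3 := mul_le_mul_of_nonneg_left hsum (Nat.cast_nonneg (α := ℝ) D2)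
    have h4 : 0 ≤ ((m : ℝ) + 1) * h := by positivity
    have h5 := mul_le_mul_of_nonneg_right hδ2 h4
    nlinarith
  have h3 : (1 : ℝ) ≤ (m : ℝ) + 1 := by
    have : (0 : ℝ) ≤ m := Nat.cast_nonneg _
    linarith
  have h4 : 0 ≤ (c0 * D * C1 + D2 * (m + 1) * C1 + C3) * dL := by positivity
  have h5 : (c0 * D * C1 + D2 * (m + 1) * C1 + C3) * dL ≤
      ((m : ℝ) + 1) * ((c0 * D * C1 + D2 * (m + 1) * C1 + C3) * dL) :=
    le_mul_of_one_le_left h4 h3
  nlinarith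

end Pool.Agent.H14.LB
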