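import Pool.Agent.H14.LB.Clo

/-!
# Points of a finitely generated group
-/

set_option autoImplicit false
set_option linter.unusedSectionVars false

open MvPolynomial Pool.Agent.TH954.X Pool.Agent.TH954.V Pool.Agent.TH954.Z NumberField

namespace Pool.Agent.H14.LB

section pack

open MeasureTheory Metric Set Module
open scoped ENNReal

variable {E : Type} [NormedAddCommGroup E] [NormedSpace ℝ E] [FiniteDimensional ℝ E]

/-- separated points in a ball -/
lemma card_sep (s : Finset E) (R : ℝ) (hR : 0 ≤ R) (hs : ∀ c ∈ s, ‖c‖ ≤ R)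
    (h : ∀ c ∈ s, ∀ d ∈ s, c ≠ d → 1 ≤ ‖c - d‖) : (s.card : ℝ) ≤ (2 * R + 1) ^ finrank ℝ E := by
  borelize E
  let μ : Measure E := Measure.addHaar
  let δ : ℝ := (1 : ℝ) / 2
  let ρ : ℝ := R + 1 / 2
  have ρpos : 0 < ρ := by positivity
  set A := ⋃ c ∈ s, ball (c : E) δ with hA
  have D : Set.Pairwise (s : Set E) (Function.onFun Disjoint fun c => ball (c : E) δ) := by
    rintro c hc d hd hcd
    apply ball_disjoint_ball
    rw [dist_eq_norm]
    have h1 := h c hc d hd hcd
    change 1 / 2 + 1 / 2 ≤ _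
    linarith
  have A_subset : A ⊆ ball (0 : E) ρ := by
    refine iUnion₂_subset fun x hx => ?_
    apply ball_subset_ball'
    rw [dist_zero_right]
    have h1 := hs x hx
    change 1 / 2 + ‖x‖ ≤ R + 1 / 2
    linarith
  have I :
    (s.card : ℝ≥0∞) * ENNReal.ofReal (δ ^ finrank ℝ E) * μ (ball 0 1) ≤
      ENNReal.ofReal (ρ ^ finrank ℝ E) * μ (ball 0 1) :=
    calc
      (s.card : ℝ≥0∞) * ENNReal.ofReal (δ ^ finrank ℝ E) * μ (ball 0 1) = μ A := by
        rw [hA, measure_biUnion_finset D fun c _ => measurableSet_ball]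
        have I : 0 < δ := by norm_num
        simp only [μ.addHaar_ball_of_pos _ I]
        simp only [Finset.sum_const, nsmul_eq_mul, mul_assoc]
      _ ≤ μ (ball (0 : E) ρ) := measure_mono A_subset
      _ = ENNReal.ofReal (ρ ^ finrank ℝ E) * μ (ball 0 1) := by
        simp only [μ.addHaar_ball_of_pos _ ρpos]
  have J : (s.card : ℝ≥0∞) * ENNReal.ofReal (δ ^ finrank ℝ E) ≤ ENNReal.ofReal (ρ ^ finrank ℝ E) :=
    (ENNReal.mul_le_mul_iff_left (measure_ball_pos _ _ zero_lt_one).ne' measure_ball_lt_top.ne).1 I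
  have K := ENNReal.toReal_le_of_le_ofReal (pow_nonneg ρpos.le _) J
  have hδ : 0 ≤ δ ^ finrank ℝ E := by positivity
  rw [ENNReal.toReal_mul, ENNReal.toReal_natCast, ENNReal.toReal_ofReal hδ] at K
  have h2 : (2 * R + 1) ^ finrank ℝ E = ρ ^ finrank ℝ E * 2 ^ finrank ℝ E := by
    rw [← mul_pow]
    congr 1
    change 2 * R + 1 = (R + 1 / 2) * 2
    ring
  have h3 : δ ^ finrank ℝ E * 2 ^ finrank ℝ E = 1 := by
    rw [← mul_pow]
    have : δ * 2 = 1 := by change (1 : ℝ) / 2 * 2 = 1; norm_num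
    rw [this, one_pow]
  rw [h2]
  calc (s.card : ℝ) = s.card * (δ ^ finrank ℝ E * 2 ^ finrank ℝ E) := by rw [h3, mul_one]
    _ = s.card * δ ^ finrank ℝ E * 2 ^ finrank ℝ E := by ring
    _ ≤ ρ ^ finrank ℝ E * 2 ^ finrank ℝ E := mul_le_mul_of_nonneg_right K (by positivity)

/-- a covering by few balls with centres in the set -/
lemma cover {G : Type} [AddCommGroup G] (v : G →+ E) (S : Set G) (R t : ℝ) (hR : 0 ≤ R)
    (ht : 0 < t) (hS : ∀ P ∈ S, ‖v P‖ ≤ R * t) :
    ∃ Z : Finset G, (↑Z ⊆ S) ∧ (Z.card : ℝ) ≤ (2 * R + 1) ^ finrank ℝ E ∧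
      ∀ P ∈ S, ∃ z ∈ Z, ‖v (P - z)‖ < t := by
  classical
  set sep : Finset G → Prop := fun Z => (↑Z ⊆ S) ∧ ∀ P ∈ Z, ∀ Q ∈ Z, P ≠ Q → t ≤ ‖v (P - Q)‖
    with hsep
  have hbd : ∀ Z, sep Z → (Z.card : ℝ) ≤ (2 * R + 1) ^ finrank ℝ E := by
    intro Z hZ
    have hinj : Set.InjOn (fun P : G => t⁻¹ • v P) (Z : Set G) := by
      intro P hP Q hQ hPQ
      by_contra hne
      have h1 := hZ.2 P hP Q hQ hne
      have h2 : v P = v Q := by
        have := congrArg (fun x : E => t • x) hPQ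
        simpa [smul_smul, ht.ne'] using this
      rw [map_sub, h2, sub_self, norm_zero] at h1
      linarith
    rw [← Finset.card_image_of_injOn hinj]
    refine card_sep _ R hR (fun c hc => ?_) (fun c hc d hd hcd => ?_)
    · obtain ⟨P, hP, rfl⟩ := Finset.mem_image.1 hc
      rw [norm_smul, norm_inv, Real.norm_eq_abs, abs_of_pos ht, inv_mul_le_iff₀ ht]
      have := hS P (hZ.1 hP)
      linarith
    · obtain ⟨P, hP, rfl⟩ := Finset.mem_image.1 hc
      obtain ⟨Q, hQ, rfl⟩ := Finset.mem_image.1 hd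
      have hne : P ≠ Q := fun h => hcd (by rw [h])
      have h1 := hZ.2 P hP Q hQ hne
      rw [← smul_sub, ← map_sub, norm_smul, norm_inv, Real.norm_eq_abs, abs_of_pos ht,
        le_inv_mul_iff₀ ht]
      linarith
  -- a separated set with the largest number of elements
  set K : Set ℕ := {k | ∃ Z, sep Z ∧ Z.card = k} with hK
  have hKne : K.Nonempty := ⟨0, ∅, ⟨by simp, by simp⟩, rfl⟩
  have hKb : BddAbove K := by
    refine ⟨⌊(2 * R + 1) ^ finrank ℝ E⌋₊, ?_⟩
    rintro k ⟨Z, hZ, rfl⟩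
    exact Nat.le_floor (hbd Z hZ)
  obtain ⟨Z, hZ, hZc⟩ := Nat.sSup_mem hKne hKb
  refine ⟨Z, hZ.1, hbd Z hZ, fun P hP => ?_⟩
  by_contra hcon
  push Not at hcon
  have hPZ : P ∉ Z := fun h => by
    have := hcon P h
    rw [sub_self, map_zero, norm_zero] at this
    linarith
  have h1 : sep (insert P Z) := by
    refine ⟨?_, ?_⟩
    · intro x hx
      rcases Finset.mem_insert.1 (Finset.mem_coe.1 hx) with rfl | h
      · exact hP
      · exact hZ.1 h
    · intro x hx y hy hxy
      rcases Finset.mem_insert.1 hx with hx1 | hx1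
      · rcases Finset.mem_insert.1 hy with hy1 | hy1
        · exact absurd (hx1.trans hy1.symm) hxy
        · rw [hx1]
          exact hcon y hy1
      · rcases Finset.mem_insert.1 hy with hy1 | hy1
        · have h2 := hcon x hx1
          rw [← norm_neg, ← map_neg, neg_sub] at h2
          rw [hy1]
          exact h2
        · exact hZ.2 x hx1 y hy1 hxy
  have h2 : Z.card + 1 ≤ sSup K := by
    refine le_csSup hKb ⟨insert P Z, h1, Finset.card_insert_of_notMem hPZ⟩
  omega

end pack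

section euc

open Pool.Agent.TH942

/-- a nonnegative quadratic form on a finitely generated group -/
lemma euc {G : Type} [AddCommGroup G] (hG : AddGroup.FG G) (q : G → ℝ) (hq0 : ∀ P, 0 ≤ q P)
    (hq : ∀ P Q, q (P + Q) + q (P - Q) = 2 * (q P + q Q)) :
    ∃ v : G →+ EuclideanSpace ℝ (Fin (Module.finrank ℤ G)), ∀ P, ‖v P‖ ^ 2 = q P := by
  classical
  obtain ⟨r, g, hg⟩ := exists_basis hG
  have hr : Module.finrank ℤ G = r := by
    rw [card_basis hg, Fintype.card_fin]
  rw [hr]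
  have hps : (gram q g).PosSemidef := by
    apply posSemidef_of_int' _ (gram_symm q g)
    intro c
    have := q_comb q hq g 0 IsOfFinAddOrder.zero c
    rw [add_zero] at this
    rw [← this]
    exact hq0 _
  obtain ⟨M, hM⟩ := exists_sqrt hps
  refine ⟨AddMonoidHom.mk' (fun P => emb M (fun i => (TH942.crd hg P i : ℝ))) (fun P Q => ?_),
    fun P => ?_⟩
  · have h1 : TH942.crd hg (P + Q) = TH942.crd hg P + TH942.crd hg Q := (crdHom hg).map_add P Q
    rw [← map_add]
    congr 1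
    funext i
    rw [h1]
    simp [Pi.add_apply]
  · change ‖emb M (fun i => (TH942.crd hg P i : ℝ))‖ ^ 2 = q P
    rw [emb_gram hM]
    have h1 := q_comb q hq g _ (crd_spec hg P) (TH942.crd hg P)
    rw [add_sub_cancel] at h1
    exact h1.symm

end euc

section nz

variable {K : Type} [Field K] {n β : ℕ}

/-- the base change of an abelian variety -/
noncomputable def blkB (A : AbV K n) (L : Type) [Field L] [Algebra K L] : Blk L n where
  V := ⟨A.e, fun i => map (algebraMap K L) (A.eqn i), A.deg, fun i => (A.hom i).map _⟩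
  Pt := fun F _ _ => {v : Fin n → F // Normed v ∧
    ∀ i, aeval v (map (algebraMap K L) (A.eqn i)) = 0}
  vec := fun _ _ _ P => P.1
  normed := fun _ _ _ P => P.2.1
  on := fun _ _ _ P i => P.2.2 i
  s0 := 1
  e0 := 0
  s0_hom := isHomogeneous_one _ _
  s0_ne := fun F _ _ P => by simp
  s0_pt := fun F _ _ v hv h => Or.inr ⟨⟨v, hv, h⟩, rfl⟩
  g := A.dim
  z0 := A.z0
  z := A.z

lemma blkB_irr (A : AbV K n) (L : Type) [Field L] [Algebra K L] : (blkB A L).Irr := by
  intro F _ _ g h a b hg hh h1 h2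
  let iKF : Algebra K F := ((algebraMap L F).comp (algebraMap K L)).toAlgebra
  have iTF : IsScalarTower K L F := IsScalarTower.of_algebraMap_eq (fun x => rfl)
  have key : ∀ u : MvPolynomial (Fin n) F, (blkB A L).NonZ F u → A.toAbR.NonZ F u := by
    rintro u ⟨F', iF', iLF', iFF', iT, P, hP⟩
    let iKF' : Algebra K F' := ((algebraMap L F').comp (algebraMap K L)).toAlgebra
    have iT1 : IsScalarTower K L F' := IsScalarTower.of_algebraMap_eq (fun x => rfl)
    have iT2 : IsScalarTower K F F' := IsScalarTower.of_algebraMap_eq (fun x => by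
      change algebraMap L F' (algebraMap K L x) = algebraMap F F' (algebraMap L F (algebraMap K L x))
      rw [← IsScalarTower.algebraMap_apply L F F'])
    refine ⟨F', iF', iKF', iFF', iT2, ⟨P.1, P.2.1, fun i => ?_⟩, hP⟩
    have h3 := P.2.2 i
    rw [aeval_map_algebraMap] at h3
    exact h3
  obtain ⟨F', iF', iKF', iFF', iT, P, hP⟩ := A.irr F g h a b hg hh (key g h1) (key h h2)
  let iLF' : Algebra L F' := ((algebraMap F F').comp (algebraMap L F)).toAlgebra
  have iT1 : IsScalarTower L F F' := IsScalarTower.of_algebraMap_eq (fun x => rfl)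
  have iT2 : IsScalarTower K L F' := IsScalarTower.of_algebraMap_eq (fun x => by
    change algebraMap K F' x = algebraMap F F' (algebraMap L F (algebraMap K L x))
    rw [IsScalarTower.algebraMap_apply K F F']
    rfl)
  refine ⟨F', iF', iLF', iFF', iT1, ⟨P.1, P.2.1, fun i => ?_⟩, hP⟩
  rw [aeval_map_algebraMap]
  exact P.2.2 i

lemma NZ1_iff (A : Fin β → AbV K n) (L : Type) [Field L] [Algebra K L]
    (H : MvPolynomial (Fin β × Fin n) L) :
    NZ1 A L H ↔ Gen.N (fun b => blkB (A b) L) H := by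
  constructor
  · rintro ⟨F, iF, iKF, iLF, iT, P, hP⟩
    refine ⟨F, iF, iLF, fun b => (P b).1, fun b => ⟨⟨(P b).1, (P b).2.1, fun i => ?_⟩, rfl⟩, hP⟩
    rw [aeval_map_algebraMap]
    exact (P b).2.2 i
  · rintro ⟨F, iF, iLF, v, hv, hne⟩
    let iKF : Algebra K F := ((algebraMap L F).comp (algebraMap K L)).toAlgebra
    have iTF : IsScalarTower K L F := IsScalarTower.of_algebraMap_eq (fun x => rfl)
    choose P hP using hv
    have h1 : ∀ b, Normed (v b) ∧ ∀ i, aeval (v b) ((A b).eqn i) = 0 := by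
      intro b
      have h2 : (P b).1 = v b := hP b
      rw [← h2]
      refine ⟨(P b).2.1, fun i => ?_⟩
      have h3 := (P b).2.2 i
      rw [aeval_map_algebraMap] at h3
      exact h3
    exact ⟨F, iF, iKF, iLF, iTF, fun b => ⟨v b, h1 b⟩, hne⟩

lemma NZ1_prod (A : Fin β → AbV K n) (L : Type) [Field L] [Algebra K L] {I : Type} (S : Finset I)
    (H : I → MvPolynomial (Fin β × Fin n) L) (σ : I → Fin β → ℕ) (hσ : ∀ i ∈ S, MH (σ i) (H i))
    (hN : ∀ i ∈ S, NZ1 A L (H i)) : NZ1 A L (∏ i ∈ S, H i) := by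
  rw [NZ1_iff]
  refine (Gen.N_prod (fun b => blkB (A b) L) (fun b => blkB_irr (A b) L) ?_ S H
    (fun i hi => ⟨_, hσ i hi⟩) (fun i hi => (NZ1_iff A L _).1 (hN i hi))).2
  rw [← NZ1_iff]
  refine ⟨L, inferInstance, inferInstance, inferInstance, inferInstance, 0, ?_⟩
  simp [ev]

lemma NZ1_mul (A : Fin β → AbV K n) (L : Type) [Field L] [Algebra K L]
    {H H' : MvPolynomial (Fin β × Fin n) L} {σ σ' : Fin β → ℕ} (hσ : MH σ H) (hσ' : MH σ' H')
    (hN : NZ1 A L H) (hN' : NZ1 A L H') : NZ1 A L (H * H') := by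
  rw [NZ1_iff] at *
  exact Gen.N_mul (fun b => blkB (A b) L) (fun b => blkB_irr (A b) L) hσ hσ' hN hN'

/-- a closed subset of positive codimension lies on a hypersurface -/
lemma exists_NZ (A : Fin β → AbV K n) {E : Type} (h : E → MvPolynomial (Fin β × Fin n) K)
    (hc : CodimB A h 2) : ∃ i, NZ A (h i) := by
  obtain ⟨Ω, iΩ, iA, P, h1, h2⟩ := HypL.genB A
  by_contra hcon
  push Not at hcon
  have h3 : ∀ i, ev (h i) (vc P) = 0 := by
    intro i
    by_contra h4
    exact hcon i ⟨Ω, iΩ, iA, P, h4⟩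
  have h4 := hc Ω P h3
  have h5 : ((∑ b, (A b).dim : ℕ) : Cardinal) ≤ td (K := K) (vc P) := by
    set E := IntermediateField.adjoin K
        (Set.range (fun p : Fin β × Fin n => vc P p.1 p.2)) with hE
    let v : ((i : Fin β) × Fin (A i).dim) → E := fun p =>
      ⟨(P p.1).1 ((A p.1).z p.2) / (P p.1).1 (A p.1).z0, div_mem
        (IntermediateField.subset_adjoin K _ ⟨(p.1, (A p.1).z p.2), rfl⟩)
        (IntermediateField.subset_adjoin K _ ⟨(p.1, (A p.1).z0), rfl⟩)⟩
    have h6 : AlgebraicIndependent K v :=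
      (AlgHom.algebraicIndependent_iff E.val E.val.injective).1 h2
    have h7 := h6.cardinalMk_le_trdeg
    rw [Cardinal.mk_fintype, Fintype.card_sigma] at h7
    simp only [Fintype.card_fin] at h7
    exact h7
  have h6 : ((∑ b, (A b).dim : ℕ) : Cardinal) + ((2 : ℕ) : Cardinal) ≤
      ((∑ b, (A b).dim : ℕ) : Cardinal) := (add_le_add h5 le_rfl).trans h4
  have h7 : (∑ b, (A b).dim) + 2 ≤ ∑ b, (A b).dim := by exact_mod_cast h6
  omega

lemma NZ1_of_NZ (A : Fin β → AbV K n) (L : Type) [Field L] [Algebra K L]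
    {h : MvPolynomial (Fin β × Fin n) K} (hN : NZ A h) : NZ1 A L (mp L h) := by
  obtain ⟨F, iF, iA, P, hP⟩ := hN
  obtain ⟨F3, iF3, iA3, ⟨φ⟩, ⟨ψ⟩⟩ := Gen.common K F L
  let iLF : Algebra L F3 := ψ.toRingHom.toAlgebra
  have iT : IsScalarTower K L F3 := IsScalarTower.of_algebraMap_eq (fun x => (ψ.commutes x).symm)
  refine ⟨F3, iF3, iA3, iLF, iT, bcB φ P, ?_⟩
  rw [ev_mp, ev_bcB]
  exact fun h => hP ((map_eq_zero φ).1 h)

end nz

end Pool.Agent.H14.LB
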