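import Pool.Agent.H14.LB.Rat

/-!
# Exceptional points of a finitely generated group
-/

set_option autoImplicit false
set_option linter.unusedSectionVars false

open MvPolynomial Pool.Agent.TH954.X Pool.Agent.TH954.V Pool.Agent.TH954.Z NumberField

namespace Pool.Agent.H14.LB

variable {K : Type} [Field K] [NumberField K] {n β : ℕ}

/-- the sum of the canonical heights -/
lemma canB (A : Fin β → AbV K n) : ∃ C : ℝ, 0 ≤ C ∧ ∀ (L : Type) [Field L] [NumberField L]
    [Algebra K L], ∃ q : Bp A L → ℝ, (∀ P, 0 ≤ q P) ∧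
      (∀ P Q, q (P + Q) + q (P - Q) = 2 * (q P + q Q)) ∧
      (∀ P, |q P - htL P| ≤ C * Module.finrank ℚ L) := by
  choose C hC0 hC using fun b => canA (A b).toAbR
  refine ⟨∑ b, C b, Finset.sum_nonneg (fun b _ => hC0 b), fun L _ _ _ => ?_⟩
  choose q hq0 hq1 hq2 using fun b => hC b L
  refine ⟨fun P => ∑ b, q b (P b), fun P => Finset.sum_nonneg (fun b _ => hq0 b _),
    fun P Q => ?_, fun P => ?_⟩
  · rw [← Finset.sum_add_distrib, ← Finset.sum_add_distrib, Finset.mul_sum]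
    exact Finset.sum_congr rfl (fun b _ => hq1 b (P b) (Q b))
  · unfold htL
    rw [← Finset.sum_sub_distrib, Finset.sum_mul]
    exact (Finset.abs_sum_le_sum_abs _ _).trans (Finset.sum_le_sum (fun b _ => hq2 b (P b)))

/-- the local height of a family is at most that of one of its forms -/
lemma tot_fam_le {E : Type} [Fintype E] (A : Fin β → AbV K n)
    (h : E → MvPolynomial (Fin β × Fin n) K) (η : E → Fin β → ℕ) (hη : ∀ i, MH (η i) (h i)) :
    ∃ A1 A2 : ℝ, 0 ≤ A1 ∧ 0 ≤ A2 ∧ ∀ (L : Type) [Field L] [NumberField L] [Algebra K L]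
      (P : Bp A L), (¬ ∀ i, ev (h i) (vc P) = 0) →
      tot (lamL L η h (vc P)) ≤ A1 * htL P + A2 * Module.finrank ℚ L := by
  classical
  choose C hC0 hC using fun i => tot_lamL_le (h i) (η i) (hη i)
  refine ⟨∑ i, ∑ j, (η i j : ℝ), ∑ i, C i, by positivity,
    Finset.sum_nonneg (fun i _ => hC0 i), fun L _ _ _ P hP => ?_⟩
  push Not at hP
  obtain ⟨i, hi⟩ := hP
  have hu0 : ∀ b, vc P b ≠ 0 := fun b => (P b).2.1.ne_zero
  obtain ⟨hFS, hle⟩ := hC i L (vc P) hu0 hi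
  have hFS1 : FS (lamL L η h (vc P)) := by
    rw [lamL_eq]
    exact Pool.Agent.TH954.Y.FS_lam0 η (fun i => mp L (h i)) (fun i => MH_mp (hη i)) hu0
      ⟨i, by rw [ev_mp]; exact hi⟩
  have hpt : ∀ w : AbsoluteValue L ℝ, lamL L η h (vc P) w ≤
      lamL L (fun _ : Unit => η i) (fun _ => h i) (vc P) w := by
    intro w
    unfold lamL
    rw [ciSup_const]
    refine max_le_max le_rfl (neg_le_neg (Real.log_le_log ?_ ?_))
    · have := Pool.Agent.TH954.Y.nvW_pos w (η i) (mp L (h i)) hu0 (by rw [ev_mp]; exact hi)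
      rwa [nvW_mp] at this
    · exact le_ciSup (f := fun i => nvW w (η i) (h i) (vc P)) (Set.finite_range _).bddAbove i
  have h1 := tot_le hFS1 hFS (fun w => hpt _) (fun w => hpt _)
  refine h1.trans (hle.trans ?_)
  have hdL0 : (0 : ℝ) ≤ (Module.finrank ℚ L : ℝ) := Nat.cast_nonneg _
  have h2 : ∑ j, (η i j : ℝ) * Height.logHeight (vc P j) ≤ (∑ i, ∑ j, (η i j : ℝ)) * htL P := by
    have h3 : ∑ j, (η i j : ℝ) * Height.logHeight (vc P j) ≤ ∑ j, (η i j : ℝ) * htL P := by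
      refine Finset.sum_le_sum (fun j _ => mul_le_mul_of_nonneg_left ?_ (Nat.cast_nonneg _))
      exact Finset.single_le_sum (f := fun b => Height.logHeight (vc P b))
        (fun _ _ => Height.logHeight_nonneg _) (Finset.mem_univ j)
    refine h3.trans ?_
    rw [← Finset.sum_mul]
    refine mul_le_mul_of_nonneg_right ?_ (htL_nonneg P)
    exact Finset.single_le_sum (f := fun i => ∑ j, (η i j : ℝ)) (fun i _ => by positivity)
      (Finset.mem_univ i)
  have h3 : C i ≤ ∑ i, C i := Finset.single_le_sum (fun i _ => hC0 i) (Finset.mem_univ i)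
  have h4 := mul_le_mul_of_nonneg_right h3 hdL0
  linarith

/-- the number of shells -/
lemma shells {T : ℝ} (hT : 1 ≤ T) : ((⌊Real.logb 2 T⌋₊ : ℝ) + 1) ≤ 2 * (1 + Real.log T) := by
  have h0 : 0 ≤ Real.log T := Real.log_nonneg hT
  have h1 : 0 ≤ Real.logb 2 T := Real.logb_nonneg (by norm_num) hT
  have h2 := Nat.floor_le h1
  have h3 : Real.logb 2 T ≤ 2 * Real.log T := by
    unfold Real.logb
    have h4 : (1 : ℝ) / 2 ≤ Real.log 2 := by
      have := Real.log_two_gt_d9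
      linarith
    rw [div_le_iff₀ (by linarith)]
    nlinarith
  linarith

lemma ExcX_mono {A : Fin β → AbV K n} {E1 E2 : Type}
    (g : E1 → MvPolynomial (Option (Fin β) × Fin n) K)
    (f : E2 → MvPolynomial (Option (Fin β) × Fin n) K) (δ : E2 → Option (Fin β) → ℕ)
    {ε C C' : ℝ} (hC : C' ≤ C) {L : Type} [Field L] [NumberField L] [Algebra K L] {P : Bp A L}
    (h : ExcX g f δ ε C L P) : ExcX g f δ ε C' L P := by
  obtain ⟨t, h1, h2, h3⟩ := h
  refine ⟨t, h1, h2, h3.imp id (fun h4 => lt_of_le_of_lt ?_ h4)⟩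
  have h5 : (0 : ℝ) ≤ (Module.finrank ℚ L : ℝ) := Nat.cast_nonneg _
  have h6 := mul_le_mul_of_nonneg_right hC h5
  linarith

lemma SetC_mono {A : Fin β → AbV K n} {E1 E2 : Type}
    (g : E1 → MvPolynomial (Option (Fin β) × Fin n) K)
    (f : E2 → MvPolynomial (Option (Fin β) × Fin n) K) (δ : E2 → Option (Fin β) → ℕ)
    {ε C C' δ0 : ℝ} (hC : C' ≤ C) {Ω : Type} [Field Ω] [Algebra K Ω] {P0 : Bp A Ω} :
    SetC g f δ ε C δ0 Ω P0 ⊆ SetC g f δ ε C' δ0 Ω P0 := by
  rintro y ⟨L, iF, iN, iA, φ, P0', P, h1, h2, h3, h4⟩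
  exact ⟨L, iF, iN, iA, φ, P0', P, h1, h2, h3, ExcX_mono g f δ hC h4⟩

/-- a form over an extension field replaced by a form over the field -/
lemma descend {A : Fin β → AbV K n} {L Ω : Type} [Field L] [Algebra K L] [Field Ω] [Algebra K Ω]
    [Algebra L Ω] [IsScalarTower K L Ω] (H : MvPolynomial (Fin β × Fin n) Ω) (σ : Fin β → ℕ)
    (hσ : MH σ H) (hN : NZ1 A Ω H) : ∃ H' : MvPolynomial (Fin β × Fin n) L, MH σ H' ∧
      NZ1 A L H' ∧ ∀ P : Bp A L, ev H (vc (bcB (IsScalarTower.toAlgHom K L Ω) P)) = 0 →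
        ev H' (vc P) = 0 := by
  obtain ⟨F, iF, iKF, iΩF, iT, P, hP⟩ := hN
  let iLF : Algebra L F := ((algebraMap Ω F).comp (algebraMap L Ω)).toAlgebra
  have iT1 : IsScalarTower L Ω F := IsScalarTower.of_algebraMap_eq (fun x => rfl)
  have iT2 : IsScalarTower K L F := IsScalarTower.of_algebraMap_eq (fun x => by
    rw [IsScalarTower.algebraMap_apply K Ω F, IsScalarTower.algebraMap_apply K L Ω]
    rfl)
  have h1 : ev (mp F H) (vc P) ≠ 0 := by
    rw [ev_mp]
    exact hP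
  obtain ⟨ℓ, hℓ⟩ := exists_functional (L := L) (mp F H) (vc P) h1
  refine ⟨mapc ℓ (mp F H), MH_mapc ℓ (MH_mp hσ), ⟨F, iF, iKF, iLF, iT2, P, hℓ⟩, fun Q hQ => ?_⟩
  rw [ev_mapc_L]
  have h2 : ev (mp F H) (fun j c => algebraMap L F (vc Q j c)) =
      algebraMap Ω F (ev H (vc (bcB (IsScalarTower.toAlgHom K L Ω) Q))) := by
    rw [ev_mp]
    unfold ev
    exact (MvPolynomial.comp_aeval_apply (f := fun p : Fin β × Fin n =>
      vc (bcB (IsScalarTower.toAlgHom K L Ω) Q) p.1 p.2)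
      (Algebra.ofId Ω F) H).symm
  rw [h2, hQ, map_zero, map_zero]

/-- there is an exceptional point, over an extension field, over the point `P` -/
def ExcR {A : Fin β → AbV K n} {E1 E2 : Type} (g : E1 → MvPolynomial (Option (Fin β) × Fin n) K)
    (f : E2 → MvPolynomial (Option (Fin β) × Fin n) K) (δ : E2 → Option (Fin β) → ℕ)
    (ε C : ℝ) (L : Type) [Field L] [NumberField L] [Algebra K L] (P : Bp A L) : Prop :=
  ∃ (L' : Type) (_ : Field L') (_ : NumberField L') (_ : Algebra K L') (_ : Algebra L L')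
    (_ : IsScalarTower K L L'), ExcX g f δ ε C L' (bcB (IsScalarTower.toAlgHom K L L') P)

lemma ExcR_mono {A : Fin β → AbV K n} {E1 E2 : Type}
    (g : E1 → MvPolynomial (Option (Fin β) × Fin n) K)
    (f : E2 → MvPolynomial (Option (Fin β) × Fin n) K) (δ : E2 → Option (Fin β) → ℕ)
    {ε C C' : ℝ} (hC : C' ≤ C) {L : Type} [Field L] [NumberField L] [Algebra K L] {P : Bp A L}
    (h : ExcR g f δ ε C L P) : ExcR g f δ ε C' L P := by
  obtain ⟨L', i1, i2, i3, i4, i5, h⟩ := h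
  exact ⟨L', i1, i2, i3, i4, i5, ExcX_mono g f δ hC h⟩

/-- the points of a shell lie on few hypersurfaces -/
lemma shell {A : Fin β → AbV K n} {E1 E2 : Type}
    (g : E1 → MvPolynomial (Option (Fin β) × Fin n) K)
    (f : E2 → MvPolynomial (Option (Fin β) × Fin n) K) (δ : E2 → Option (Fin β) → ℕ)
    {ε C δ0 : ℝ} {D : ℕ} (hδ0 : 0 < δ0) (hδ1 : δ0 ≤ 1 / 4)
    (hloc : ∀ (Ω : Type) [Field Ω] [Algebra K Ω] (P0 : Bp A Ω),
        ∃ (H : MvPolynomial (Fin β × Fin n) Ω) (σ : Fin β → ℕ), MH σ H ∧ (∀ b, σ b ≤ D) ∧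
          NZ1 A Ω H ∧ ∀ y ∈ SetC g f δ ε C δ0 Ω P0, ev H (vc y) = 0)
    (L : Type) [Field L] [NumberField L] [Algebra K L] (Γ : AddSubgroup (Bp A L))
    (hΓ : Γ.FG) (q : Bp A L → ℝ) (hq0 : ∀ P, 0 ≤ q P)
    (hq1 : ∀ P Q, q (P + Q) + q (P - Q) = 2 * (q P + q Q)) (c : ℝ)
    (hq2 : ∀ P, |q P - htL P| ≤ c) (U : ℝ) (hU : 0 < U) (hcU : c ≤ δ0 * U / 2) :
    ∃ (H : MvPolynomial (Fin β × Fin n) L) (σ : Fin β → ℕ), MH σ H ∧
      (∀ b, (σ b : ℝ) ≤ (2 * √(6 / δ0) + 1) ^ (Module.finrank ℤ Γ) * D) ∧ NZ1 A L H ∧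
      ∀ P ∈ Γ, U ≤ htL P → htL P ≤ 2 * U → ExcR g f δ ε C L P → ev H (vc P) = 0 := by
  classical
  have hG : AddGroup.FG Γ := (AddGroup.fg_iff_addSubgroup_fg Γ).2 hΓ
  obtain ⟨v, hv⟩ := euc hG (fun P : Γ => q P) (fun P => hq0 _) (fun P Q => hq1 _ _)
  have hv' : ∀ P : Γ, ‖v P‖ = √(q P) := fun P => by
    rw [← hv P, Real.sqrt_sq (norm_nonneg _)]
  set t : ℝ := √(δ0 * U / 2) with ht
  have ht0 : 0 < t := Real.sqrt_pos.2 (by positivity)
  set S : Set Γ := {P | U ≤ htL (P : Bp A L) ∧ htL (P : Bp A L) ≤ 2 * U} with hS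
  obtain ⟨Z, hZS, hZc, hZ⟩ := cover v S (√(6 / δ0)) t (Real.sqrt_nonneg _) ht0 (by
    intro P hP
    rw [hv', ht, ← Real.sqrt_mul (by positivity)]
    refine Real.sqrt_le_sqrt ?_
    have h1 := (abs_le.1 (hq2 P)).2
    have h2 : 6 / δ0 * (δ0 * U / 2) = 3 * U := by
      field_simp
      ring
    rw [h2]
    have h3 := hP.2
    nlinarith)
  rw [finrank_euclideanSpace_fin] at hZc
  choose H0 σ hσ0 hσD hN0 hH0 using fun z : Γ => hloc (AlgebraicClosure L)
    (bcB (IsScalarTower.toAlgHom K L (AlgebraicClosure L)) (z : Bp A L))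
  choose H hσ hN hH using fun z : Γ => descend (L := L) (H0 z) (σ z) (hσ0 z) (hN0 z)
  refine ⟨∏ z ∈ Z, H z, _, MH_prod Z σ H (fun z _ => hσ z), fun b => ?_,
    NZ1_prod A L Z H σ (fun z _ => hσ z) (fun z _ => hN z), fun P hP h1 h2 h3 => ?_⟩
  · have h1 : ∑ z ∈ Z, σ z b ≤ Z.card * D := by
      calc ∑ z ∈ Z, σ z b ≤ ∑ z ∈ Z, D := Finset.sum_le_sum (fun z _ => hσD z b)
        _ = Z.card * D := by rw [Finset.sum_const, smul_eq_mul]
    have h2 : ((∑ z ∈ Z, σ z b : ℕ) : ℝ) ≤ Z.card * D := by exact_mod_cast h1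
    exact h2.trans (mul_le_mul_of_nonneg_right hZc (Nat.cast_nonneg _))
  · obtain ⟨z, hz, hz1⟩ := hZ ⟨P, hP⟩ ⟨h1, h2⟩
    have hzS := hZS hz
    have h4 : ev (H z) (vc P) = 0 := by
      refine hH z P (hH0 z _ ?_)
      obtain ⟨L', iF, iN, iA, iLA, iT, hE⟩ := h3
      have hfin : Algebra.IsAlgebraic L L' := by
        have : Module.Finite L L' := Module.Finite.of_restrictScalars_finite ℚ L L'
        exact Algebra.IsAlgebraic.of_finite L L'
      let φ0 : L' →ₐ[L] AlgebraicClosure L := IsAlgClosed.lift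
      let φ : L' →ₐ[K] AlgebraicClosure L := φ0.restrictScalars K
      have hφ : ∀ Q : Bp A L, bcB φ (bcB (IsScalarTower.toAlgHom K L L') Q) =
          bcB (IsScalarTower.toAlgHom K L (AlgebraicClosure L)) Q := by
        intro Q
        rw [bcB_comp]
        congr 1
        ext x
        exact φ0.commutes x
      refine ⟨L', iF, iN, iA, φ, bcB (IsScalarTower.toAlgHom K L L') (z : Bp A L),
        bcB (IsScalarTower.toAlgHom K L L') P, hφ _, hφ _, ?_, hE⟩
      rw [← bcB_sub, htL_scale, htL_scale]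
      rw [hv'] at hz1
      have h5 : q (P - z) < δ0 * U / 2 := by
        have h6 := Real.lt_sqrt (Real.sqrt_nonneg _) |>.1 (ht ▸ hz1)
        rw [Real.sq_sqrt (hq0 _)] at h6
        exact h6
      have h6 := (abs_le.1 (hq2 (P - z))).1
      have h7 : δ0 * U ≤ δ0 * htL (z : Bp A L) := mul_le_mul_of_nonneg_left hzS.1 hδ0.le
      have h8 : htL (P - (z : Bp A L)) ≤ δ0 * htL (z : Bp A L) := by linarith
      have h9 := mul_le_mul_of_nonneg_left h8 (Nat.cast_nonneg (α := ℝ) (Module.finrank L L'))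
      linarith
    have h5 : ev (∏ z ∈ Z, H z) (vc P) = ∏ z ∈ Z, ev (H z) (vc P) := by
      simp only [ev, map_prod]
    rw [h5]
    exact Finset.prod_eq_zero hz h4

/-- **The points of finitely generated groups.** -/
theorem ratX (A : Fin β → AbV K n) (hA : Top A) (E1 E2 : Type) [Fintype E1] [Fintype E2]
    (g : E1 → MvPolynomial (Option (Fin β) × Fin n) K) (hg : ∀ i, ∃ γ, MH γ (g i))
    (f : E2 → MvPolynomial (Option (Fin β) × Fin n) K) (δ : E2 → Option (Fin β) → ℕ)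
    (hf : ∀ i, MH (δ i) (f i))
    (hcod : ∀ (F : Type) [Field F] [Algebra K F] (t : Fin n → F) (P : Bp A F), t ≠ 0 →
      (∀ i, ev (g i) (fl t P) = 0) → (∀ i, ev (f i) (fl t P) = 0) →
      td (K := K) (vc P) + ((2 : ℕ) : Cardinal) ≤ ((∑ b, (A b).dim : ℕ) : Cardinal))
    (ε : ℝ) (hε : 0 < ε) :
    ∃ (C c : ℝ), 1 ≤ c ∧
      (∀ (L : Type) [Field L] [NumberField L] [Algebra K L] (Γ : AddSubgroup (Bp A L)), Γ.FG →
        ∀ T : ℝ, 1 ≤ T → ∃ (H : MvPolynomial (Fin β × Fin n) L) (σ : Fin β → ℕ), MH σ H ∧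
          (∀ b, (σ b : ℝ) ≤ c ^ (1 + Module.finrank ℤ Γ) * (1 + Real.log T)) ∧ NZ1 A L H ∧
          ∀ P ∈ Γ, htL P ≤ T * Module.finrank ℚ L → ExcR g f δ ε C L P → ev H (vc P) = 0) := by
  classical
  obtain ⟨D, δ0, C1, hδ0, hδ1, hC1, hloc⟩ := loc A hA E1 E2 g hg f δ hf hcod ε hε
  obtain ⟨s, h, η, hη, hcd, N, C', hN, hC', hred⟩ := redExc A E1 E2 g hg f δ hf 2 hcod
  obtain ⟨l0, hl0⟩ := exists_NZ A h hcd
  obtain ⟨A1, A2, hA1, hA2, hfam⟩ := tot_fam_le A h η hη
  obtain ⟨C2, hC2, hcan⟩ := canB A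
  have hNR : (0 : ℝ) < N := by exact_mod_cast hN
  -- the constants
  set c0 : ℝ := 1 + 2 * C2 / δ0 with hc0
  have hc01 : 1 ≤ c0 := by
    have : 0 ≤ 2 * C2 / δ0 := by positivity
    linarith
  have hc02 : C2 ≤ δ0 * c0 / 2 := by
    have h1 : δ0 * c0 = δ0 + 2 * C2 := by
      rw [hc0]
      field_simp
    rw [h1]
    linarith
  set C : ℝ := max C1 (C' + N * (A1 * c0 + A2)) with hC
  set R : ℝ := 2 * √(6 / δ0) + 1 with hR
  have hR1 : 1 ≤ R := by
    have := Real.sqrt_nonneg (6 / δ0)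
    linarith
  set c : ℝ := R + 2 * D + ∑ b, (η l0 b : ℝ) with hc
  have hη0 : 0 ≤ ∑ b, (η l0 b : ℝ) := by positivity
  have hcR : R ≤ c := by
    have : (0 : ℝ) ≤ 2 * D := by positivity
    linarith
  refine ⟨C, c, hR1.trans hcR, fun L _ _ _ Γ hΓ T hT => ?_⟩
  set dL : ℝ := (Module.finrank ℚ L : ℝ) with hdL
  have hdL0 : 0 < dL := by
    have : 0 < Module.finrank ℚ L := Module.finrank_pos
    exact Nat.cast_pos.2 this
  obtain ⟨q, hq0, hq1, hq2⟩ := hcan L
  set J : ℕ := ⌊Real.logb 2 T⌋₊ + 1 with hJ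
  have hshell : ∀ j : ℕ, ∃ (H : MvPolynomial (Fin β × Fin n) L) (σ : Fin β → ℕ), MH σ H ∧
      (∀ b, (σ b : ℝ) ≤ R ^ (Module.finrank ℤ Γ) * D) ∧ NZ1 A L H ∧
      ∀ P ∈ Γ, 2 ^ j * (c0 * dL) ≤ htL P → htL P ≤ 2 * (2 ^ j * (c0 * dL)) →
        ExcR g f δ ε C1 L P → ev H (vc P) = 0 := by
    intro j
    refine shell g f δ hδ0 hδ1 hloc L Γ hΓ q hq0 hq1 (C2 * dL) hq2 (2 ^ j * (c0 * dL))
      (by positivity) ?_
    have h1 : (1 : ℝ) ≤ 2 ^ j := one_le_pow₀ (by norm_num)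
    have h2 : C2 * dL ≤ δ0 * c0 / 2 * dL := mul_le_mul_of_nonneg_right hc02 hdL0.le
    have h3 : 0 ≤ δ0 * c0 / 2 * dL := by positivity
    calc C2 * dL ≤ δ0 * c0 / 2 * dL := h2
      _ ≤ 2 ^ j * (δ0 * c0 / 2 * dL) := le_mul_of_one_le_left h3 h1
      _ = δ0 * (2 ^ j * (c0 * dL)) / 2 := by ring
  choose H σ hσ hσR hHN hH using hshell
  refine ⟨mp L (h l0) * ∏ j ∈ Finset.range J, H j, _,
    MH_mul (MH_mp (hη l0)) (MH_prod (Finset.range J) σ H (fun j _ => hσ j)), fun b => ?_,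
    NZ1_mul A L (MH_mp (hη l0)) (MH_prod (Finset.range J) σ H (fun j _ => hσ j))
      (NZ1_of_NZ A L hl0) (NZ1_prod A L _ H σ (fun j _ => hσ j) (fun j _ => hHN j)),
    fun P hP hPT hPE => ?_⟩
  · push_cast
    have h1 : ∑ j ∈ Finset.range J, (σ j b : ℝ) ≤ J * (R ^ (Module.finrank ℤ Γ) * D) := by
      calc ∑ j ∈ Finset.range J, (σ j b : ℝ)
          ≤ ∑ j ∈ Finset.range J, (R ^ (Module.finrank ℤ Γ) * D) :=
            Finset.sum_le_sum (fun j _ => hσR j b)
        _ = _ := by rw [Finset.sum_const, Finset.card_range, nsmul_eq_mul]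
    have h2 : (J : ℝ) ≤ 2 * (1 + Real.log T) := by
      rw [hJ]
      push_cast
      exact shells hT
    have h3 : (η l0 b : ℝ) ≤ ∑ b, (η l0 b : ℝ) :=
      Finset.single_le_sum (f := fun b => (η l0 b : ℝ)) (fun _ _ => Nat.cast_nonneg _)
        (Finset.mem_univ b)
    have h4 : 0 ≤ Real.log T := Real.log_nonneg hT
    have h5 : (1 : ℝ) ≤ R ^ (Module.finrank ℤ Γ) := one_le_pow₀ hR1
    have h6 : R ^ (Module.finrank ℤ Γ) ≤ c ^ (Module.finrank ℤ Γ) :=
      pow_le_pow_left₀ (by linarith) hcR _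
    have h7 : (J : ℝ) * (R ^ (Module.finrank ℤ Γ) * D) ≤
        2 * (1 + Real.log T) * (R ^ (Module.finrank ℤ Γ) * D) :=
      mul_le_mul_of_nonneg_right h2 (by positivity)
    have h8 : (η l0 b : ℝ) ≤
        (∑ b, (η l0 b : ℝ)) * (R ^ (Module.finrank ℤ Γ) * (1 + Real.log T)) := by
      refine h3.trans (le_mul_of_one_le_right hη0 ?_)
      have := mul_le_mul h5 (by linarith : (1 : ℝ) ≤ 1 + Real.log T) zero_le_one (by positivity)
      linarith
    calc (η l0 b : ℝ) + ∑ j ∈ Finset.range J, (σ j b : ℝ)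
        ≤ (∑ b, (η l0 b : ℝ)) * (R ^ (Module.finrank ℤ Γ) * (1 + Real.log T)) +
          2 * (1 + Real.log T) * (R ^ (Module.finrank ℤ Γ) * D) := by linarith
      _ = (2 * D + ∑ b, (η l0 b : ℝ)) * (R ^ (Module.finrank ℤ Γ) * (1 + Real.log T)) := by ring
      _ ≤ c * (R ^ (Module.finrank ℤ Γ) * (1 + Real.log T)) :=
          mul_le_mul_of_nonneg_right (by linarith) (by positivity)
      _ ≤ c * (c ^ (Module.finrank ℤ Γ) * (1 + Real.log T)) := by
          refine mul_le_mul_of_nonneg_left (mul_le_mul_of_nonneg_right h6 (by linarith)) ?_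
          linarith
      _ = c ^ (1 + Module.finrank ℤ Γ) * (1 + Real.log T) := by
          rw [pow_add, pow_one, mul_assoc]
  · have hmul : ev (mp L (h l0) * ∏ j ∈ Finset.range J, H j) (vc P) =
        ev (mp L (h l0)) (vc P) * ∏ j ∈ Finset.range J, ev (H j) (vc P) := by
      simp only [ev, map_mul, map_prod]
    rw [hmul]
    by_cases hsm : htL P < c0 * dL
    · obtain ⟨L', iF, iN, iA, iLA, iT, hE⟩ := hPE
      have hev : ∀ i, ev (h i) (vc (bcB (IsScalarTower.toAlgHom K L L') P)) = 0 →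
          ev (mp L (h i)) (vc P) = 0 := by
        intro i hi
        rw [ev_bcB] at hi
        rw [ev_mp]
        exact (map_eq_zero _).1 hi
      rcases hred ε C L' _ hE with h1 | h1
      · rw [hev l0 (h1 l0), zero_mul]
      · by_cases hall : ∀ i, ev (h i) (vc (bcB (IsScalarTower.toAlgHom K L L') P)) = 0
        · rw [hev l0 (hall l0), zero_mul]
        · exfalso
          have h2 := hfam L' _ hall
          have h3 : A1 * c0 + A2 ≤ (C - C') / N := by
            rw [le_div_iff₀ hNR]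
            have := le_max_right C1 (C' + N * (A1 * c0 + A2))
            linarith
          have hsm' : htL (bcB (IsScalarTower.toAlgHom K L L') P) ≤
              c0 * Module.finrank ℚ L' := by
            rw [htL_scale, finrank_scale (L := L) (L' := L')]
            have := mul_le_mul_of_nonneg_left hsm.le
              (Nat.cast_nonneg (α := ℝ) (Module.finrank L L'))
            rw [hdL] at this
            linarith
          have h4 := mul_le_mul_of_nonneg_right h3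
            (Nat.cast_nonneg (α := ℝ) (Module.finrank ℚ L'))
          have h5 : 0 ≤ ε / N * htL (bcB (IsScalarTower.toAlgHom K L L') P) :=
            mul_nonneg (by positivity) (htL_nonneg _)
          have h6 := mul_le_mul_of_nonneg_left hsm' hA1
          linarith
    · push Not at hsm
      have h1 : 1 ≤ htL P / (c0 * dL) := by
        rw [le_div_iff₀ (by positivity)]
        linarith
      obtain ⟨j, hj1, hj2⟩ := exists_nat_pow_near h1 (by norm_num : (1 : ℝ) < 2)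
      rw [le_div_iff₀ (by positivity)] at hj1
      rw [div_lt_iff₀ (by positivity)] at hj2
      have hjJ : j ∈ Finset.range J := by
        rw [Finset.mem_range, hJ, Nat.lt_succ_iff]
        refine Nat.le_floor ?_
        rw [Real.le_logb_iff_rpow_le (by norm_num) (by linarith), Real.rpow_natCast]
        have h2 : (2 : ℝ) ^ j * (1 * dL) ≤ 2 ^ j * (c0 * dL) := by gcongr
        have h3 : (2 : ℝ) ^ j * dL ≤ T * dL := by linarith
        exact le_of_mul_le_mul_right h3 hdL0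
      have h2 : ev (H j) (vc P) = 0 := by
        refine hH j P hP hj1 ?_ (ExcR_mono g f δ (le_max_left _ _) hPE)
        rw [pow_succ] at hj2
        linarith
      rw [Finset.prod_eq_zero hjJ h2, mul_zero]

end Pool.Agent.H14.LB
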