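import Pool.Agent.H14.LB.Box
import Pool.Graph.R_seed8.TH954.Z.Hyp

/-!
# Forms of small degree in several points, vanishing if a sum lies in a closed subset
-/

set_option autoImplicit false
set_option linter.unusedSectionVars false

open MvPolynomial Pool.Agent.TH954.X Pool.Agent.TH954.V Pool.Agent.TH954.Z

namespace Pool.Agent.H14.LB

section td

lemma trdeg_union {K L : Type} [Field K] [Field L] [Algebra K L] {J : Type} [Fintype J]
    (G : J → Set L) (a : J → ℕ)
    (hG : ∀ j, Algebra.trdeg K (IntermediateField.adjoin K (G j)) ≤ (a j : Cardinal)) :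
    Algebra.trdeg K (IntermediateField.adjoin K (⋃ j, G j)) ≤ ((∑ j, a j : ℕ) : Cardinal) := by
  classical
  by_contra hcon
  rw [not_le] at hcon
  set E := IntermediateField.adjoin K (⋃ j, G j) with hE
  obtain ⟨s, hs⟩ := exists_isTranscendenceBasis K E
  rw [← hs.cardinalMk_eq_trdeg] at hcon
  have h1 : Cardinal.mk (Fin (∑ j, a j + 1)) ≤ Cardinal.mk s := by
    rw [Cardinal.mk_fin]
    push_cast
    push_cast at hcon
    exact Cardinal.add_one_le_of_lt hcon
  obtain ⟨e⟩ := Cardinal.le_def _ _ |>.1 h1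
  have h2 : AlgebraicIndependent K (fun i => ((e i : E) : E)) :=
    hs.1.comp e e.injective
  have h3 : AlgebraicIndependent K (fun i => ((e i : E) : L)) := by
    have := (AlgHom.algebraicIndependent_iff E.val E.val.injective).2 h2
    exact this
  refine Gp.dep (I0 := Fin 0) (K := K) (fun i => i.elim0) G a hG
    (fun i => ((e i : E) : L)) (fun i => ?_) ?_ h3
  · have h4 : Set.range (fun i : Fin 0 => (i.elim0 : L)) ∪ ⋃ j, G j = ⋃ j, G j := by
      rw [Set.range_eq_empty, Set.empty_union]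
    rw [h4]
    exact (e i : E).2
  · simp

end td

section fam

variable {K : Type} [Field K] {n β : ℕ} (A : Fin β → AbV K n)

/-- the family of the identity of the group `none` -/
noncomputable def idF (b : Fin β) :
    Finset (Fin n → MvPolynomial ((Option (Fin 1) × Fin β) × Fin n) K) :=
  {fun c => X ((none, b), c)}

open Classical in
/-- the multidegree of the identity -/
noncomputable def idd (b : Fin β) : Option (Fin 1) × Fin β → ℕ := fun j => if j = (none, b) then 1 else 0

/-- the families of the map `(y, q) ↦ (y - q, q)` -/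
noncomputable def Fm (p : Fin 2 × Fin β) :
    Finset (Fin n → MvPolynomial ((Option (Fin 1) × Fin β) × Fin n) K) :=
  if p.1 = 0 then Gp.Fa A ((0, p.2) : Fin 1 × Fin β) else idF p.2

/-- the multidegrees of the families -/
noncomputable def sgm (p : Fin 2 × Fin β) : Option (Fin 1) × Fin β → ℕ :=
  if p.1 = 0 then Gp.rd (Gp.ps ((0, p.2) : Fin 1 × Fin β)) (fun _ => 2) else idd p.2

lemma idF_MH (b : Fin β) : ∀ C ∈ idF (K := K) (n := n) b, ∀ c, MH (idd b) (C c) := by
  intro C hC c
  unfold idF at hC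
  rw [Finset.mem_singleton] at hC
  subst hC
  unfold idd
  convert Gen.MH_X (K := K) (ι := Option (Fin 1) × Fin β) (none, b) c

lemma Fm_MH (p : Fin 2 × Fin β) : ∀ C ∈ Fm A p, ∀ c, MH (sgm p) (C c) := by
  intro C hC c
  unfold Fm at hC
  unfold sgm
  split_ifs at hC ⊢ with h
  · exact Gp.Fa_MH A _ C hC c
  · exact idF_MH _ C hC c

lemma Fm_fam (p : Fin 2 × Fin β) : IsFam (wqX (Gp.Vd A 1)) (sgm p) (Fm A p) := by
  unfold Fm sgm
  split_ifs with h
  · exact Gp.Fa_fam A _
  · refine ⟨idF_MH _, fun F _ _ u hu => ?_⟩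
    obtain ⟨c, hc⟩ := Function.ne_iff.mp (hu.1 (none, p.2))
    refine ⟨_, Finset.mem_singleton_self _, c, ?_⟩
    unfold ev
    rw [aeval_X]
    exact hc

/-- the two points as groups -/
def two {F : Type} [Field F] [Algebra K F] {A : Fin β → AbV K n} (y q : Bp A F) :
    Option (Fin 1) × Fin β → Fin n → F :=
  fun p => Option.elim p.1 (q p.2).1 (fun _ => (y p.2).1)

/-- the pair of points as a tuple -/
def pr {F : Type} [Field F] [Algebra K F] {A : Fin β → AbV K n} (P q : Bp A F) : Fin 2 → Bp A F :=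
  fun j => if j = 0 then P else q

lemma Fm_Tg (p : Fin 2 × Fin β) {F : Type} [Field F] [Algebra K F] (y q : Bp A F) :
    Tg (Fm A p) (two y q) (vcT (pr (y - q) q) p) := by
  unfold Fm
  split_ifs with h
  · have h1 := Gp.Fa_Tg A ((0, p.2) : Fin 1 × Fin β) (two y q) (y p.2) (q p.2) rfl rfl
    have h2 : vcT (pr (y - q) q) p = (y p.2 - q p.2).1 := by
      unfold vcT pr
      rw [if_pos h]
      rfl
    rw [h2]
    exact h1
  · refine ⟨(pr (y - q) q p.1 p.2).2.1.ne_zero, fun C hC => ⟨1, ?_⟩⟩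
    unfold idF at hC
    rw [Finset.mem_singleton] at hC
    subst hC
    rw [one_smul]
    have h2 : vcT (pr (y - q) q) p = (q p.2).1 := by
      unfold vcT pr
      rw [if_neg h]
    rw [h2]
    funext c
    unfold ev
    rw [aeval_X]
    rfl

lemma onS_two {F : Type} [Field F] [Algebra K F] (y q : Bp A F) :
    OnS (wqX (Gp.Vd A 1)) (two y q) := by
  refine onS_of ?_ ?_
  · rintro ⟨_ | j, b⟩
    · exact (q b).2.1.ne_zero
    · exact (y b).2.1.ne_zero
  · rintro ⟨_ | j, b⟩ m
    · exact (q b).2.2 m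
    · exact (y b).2.2 m

end fam

section exist

variable {K : Type} [Field K] {n β : ℕ} (A : Fin β → AbV K n)

/-- the coefficients in the groups `0` and `k + 1` -/
def cc {s m : ℕ} (c : (Fin (m + 2) → Bx A s) → K) (k : Fin (m + 1)) (ψ : Fin m → Bx A s) :
    (Fin 2 → Bx A s) → K :=
  fun a => c (Fin.cons (a 0) (Fin.insertNth k (a 1) ψ))

lemma sum_sgm (p : Fin 2 × Fin β) : ∑ j, sgm p j ≤ 4 := by
  classical
  unfold sgm
  split_ifs with h
  · have h1 : ∑ i, Gp.rd (Gp.ps ((0, p.2) : Fin 1 × Fin β)) (fun _ => 2) i =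
        ∑ i : Option (Fin 1) × Fin β, ∑ j : Fin 2,
          if Gp.ps ((0, p.2) : Fin 1 × Fin β) j = i then 2 else 0 := by
      refine Finset.sum_congr rfl (fun i _ => ?_)
      unfold Gp.rd
      refine Finset.sum_congr rfl (fun j _ => ?_)
      split_ifs <;> rfl
    rw [h1, Finset.sum_comm]
    simp
  · unfold idd
    simp

/-- existence of the coefficients -/
lemma exist_c {t : ℕ} (F : Fin t → Type) [∀ i, Field (F i)] [∀ i, Algebra K (F i)]
    (y q : ∀ i, Bp A (F i))
    (hy : ∀ i, td (K := K) (vc (y i)) + ((2 : ℕ) : Cardinal) ≤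
      ((∑ b, (A b).dim : ℕ) : Cardinal))
    (hq : ∀ i, td (K := K) (vc (q i)) ≤ ((∑ b, (A b).dim : ℕ) : Cardinal)) :
    ∃ C : ℕ, ∀ m : ℕ, ∃ (s : ℕ) (c : (Fin (m + 2) → Bx A s) → K), s ^ 2 ≤ C * (m + 1) ∧ c ≠ 0 ∧
      ∀ i k ψ, ev (Gf A (cc A c k ψ)) (vcT (pr (y i - q i) (q i))) = 0 := by
  classical
  set g : ℕ := ∑ b, (A b).dim with hg
  -- the Hilbert function
  have hpair : ∀ i, Algebra.trdeg K (IntermediateField.adjoin K
      (Set.range (fun p : (Option (Fin 1) × Fin β) × Fin n => two (y i) (q i) p.1 p.2))) ≤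
      ((2 * g - 2 : ℕ) : Cardinal) := by
    intro i
    have h2g : 2 ≤ g := by
      have h1 := (self_le_add_left _ _).trans (hy i)
      exact_mod_cast h1
    obtain ⟨e, he⟩ : ∃ e, g = e + 2 := ⟨g - 2, by omega⟩
    have h1 : td (K := K) (vc (y i)) ≤ (e : Cardinal) := by
      have h1 := hy i
      rw [he, Nat.cast_add] at h1
      exact (Cardinal.add_le_add_iff_of_lt_aleph0 (Cardinal.natCast_lt_aleph0 (n := 2))).mp h1
    have h3 := trdeg_union (K := K) (J := Fin 2)
      (![Set.range (fun p : Fin β × Fin n => vc (y i) p.1 p.2),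
        Set.range (fun p : Fin β × Fin n => vc (q i) p.1 p.2)] : Fin 2 → Set (F i))
      ![e, g] (fun j => by
        fin_cases j
        · exact h1
        · exact hq i)
    have h4 : (∑ j : Fin 2, (![e, g] : Fin 2 → ℕ) j) = 2 * g - 2 := by
      rw [Fin.sum_univ_two]
      change e + g = 2 * g - 2
      omega
    rw [h4] at h3
    have h5 : (⋃ j : Fin 2, (![Set.range (fun p : Fin β × Fin n => vc (y i) p.1 p.2),
        Set.range (fun p : Fin β × Fin n => vc (q i) p.1 p.2)] : Fin 2 → Set (F i)) j) =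
        Set.range (fun p : (Option (Fin 1) × Fin β) × Fin n => two (y i) (q i) p.1 p.2) := by
      ext x
      rw [Set.mem_iUnion]
      constructor
      · rintro ⟨j, hj⟩
        fin_cases j
        · obtain ⟨p, hp⟩ := hj
          exact ⟨((some 0, p.1), p.2), hp⟩
        · obtain ⟨p, hp⟩ := hj
          exact ⟨((none, p.1), p.2), hp⟩
      · rintro ⟨⟨⟨o, b⟩, c⟩, hp⟩
        cases o with
        | none => exact ⟨1, ⟨(b, c), hp⟩⟩
        | some j => exact ⟨0, ⟨(b, c), hp⟩⟩
    rw [h5] at h3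
    exact h3
  choose c0 hc0 using fun i => Hil.hilb K (F i) ((Option (Fin 1) × Fin β) × Fin n)
    (fun p => two (y i) (q i) p.1 p.2) (2 * g - 2) (hpair i)
  set c1 : ℕ := ∑ i, c0 i with hc1
  refine ⟨c1 * (1 + 8 * g) ^ (2 * g - 2), fun m => ?_⟩
  set s : ℕ := Nat.sqrt (c1 * (1 + 8 * g) ^ (2 * g - 2) * (m + 1)) with hs
  set E : ℕ := ∑ l : Fin 2 × Fin β, ((A l.2).dim * s) * ∑ j, sgm l j with hE
  have hEle : E + 1 ≤ (1 + 8 * g) * (s + 1) := by
    have h1 : E ≤ 8 * g * s := by
      calc E ≤ ∑ l : Fin 2 × Fin β, ((A l.2).dim * s) * 4 :=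
            Finset.sum_le_sum (fun l _ => Nat.mul_le_mul_left _ (sum_sgm l))
        _ = 8 * g * s := by
            rw [Fintype.sum_prod_type, Fin.sum_univ_two, ← Finset.sum_mul, ← Finset.sum_mul, hg]
            ring
    nlinarith
  -- the forms giving the points
  choose Cc hCc r hr0 hr using fun (i : Fin t) (l : Fin 2 × Fin β) =>
    Tg.exists_ne ((Fm_fam A l).2 (F i) _ (onS_two A (y i) (q i))) (Fm_Tg A l (y i) (q i))
  let V : (i : Fin t) → Submodule K (F i) := fun i =>
    Submodule.map (aeval (R := K) (fun p : (Option (Fin 1) × Fin β) × Fin n =>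
      two (y i) (q i) p.1 p.2)).toLinearMap
      (restrictTotalDegree ((Option (Fin 1) × Fin β) × Fin n) K E)
  set rr : (i : Fin t) → F i := fun i => ∏ l : Fin 2 × Fin β, r i l ^ ((A l.2).dim * s) with hrr
  have hrr0 : ∀ i, rr i ≠ 0 := fun i =>
    Finset.prod_ne_zero_iff.2 (fun l _ => pow_ne_zero _ (hr0 i l))
  have hmem : ∀ (i : Fin t) (c : (Fin 2 → Bx A s) → K),
      rr i * ev (Gf A c) (vcT (pr (y i - q i) (q i))) ∈ V i := by
    intro i c
    have h1 : rr i * ev (Gf A c) (vcT (pr (y i - q i) (q i))) =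
        ev (Gf A c) (fun l c => ev (Cc i l c) (two (y i) (q i))) := by
      have h2 : (fun (l : Fin 2 × Fin β) (c : Fin n) => ev (Cc i l c) (two (y i) (q i))) =
          fun l => r i l • vcT (pr (y i - q i) (q i)) l := by
        funext l
        exact hr i l
      rw [h2, ev_smul (MH_Gf A c)]
    rw [h1]
    refine ⟨cmp (Gf A c) (Cc i), ?_, ?_⟩
    · rw [SetLike.mem_coe, mem_restrictTotalDegree]
      refine (totalDegree_le_of_MH (MH_cmp (MH_Gf A c) (Cc i) sgm
        (fun l c => Fm_MH A l _ (hCc i l) c))).trans (le_of_eq ?_)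
      rw [Finset.sum_comm, hE]
      refine Finset.sum_congr rfl (fun l _ => ?_)
      rw [Finset.mul_sum]
    · change ev (cmp (Gf A c) (Cc i)) (two (y i) (q i)) = _
      rw [ev_cmp]
  -- the linear map
  let idx := Fin t × Fin (m + 1) × (Fin m → Bx A s)
  let T : ((Fin (m + 2) → Bx A s) → K) →ₗ[K] ((p : idx) → V p.1) :=
    { toFun := fun c p => ⟨rr p.1 * ev (Gf A (cc A c p.2.1 p.2.2))
        (vcT (pr (y p.1 - q p.1) (q p.1))), hmem p.1 _⟩
      map_add' := by
        intro c c'
        funext p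
        apply Subtype.ext
        change rr p.1 * ev (Gf A (cc A (c + c') p.2.1 p.2.2)) _ = rr p.1 * _ + rr p.1 * _
        rw [← mul_add, ev_Gf, ev_Gf, ev_Gf, ← Finset.sum_add_distrib]
        congr 1
        refine Finset.sum_congr rfl (fun a _ => ?_)
        have h1 : cc A (c + c') p.2.1 p.2.2 a = cc A c p.2.1 p.2.2 a + cc A c' p.2.1 p.2.2 a := rfl
        rw [h1, map_add, add_mul]
      map_smul' := by
        intro z c
        funext p
        apply Subtype.ext
        change rr p.1 * ev (Gf A (cc A (z • c) p.2.1 p.2.2)) _ = z • (rr p.1 * _)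
        rw [ev_Gf, ev_Gf]
        have h1 : ∀ a, cc A (z • c) p.2.1 p.2.2 a = z * cc A c p.2.1 p.2.2 a := fun a => rfl
        simp_rw [h1, map_mul, mul_assoc]
        rw [← Finset.mul_sum, Algebra.smul_def z (rr p.1 * _)]
        ring }
  have hfin : Module.finrank K ((p : idx) → V p.1) <
      Module.finrank K ((Fin (m + 2) → Bx A s) → K) := by
    have h3 : Module.finrank K ((p : idx) → V p.1) =
        ∑ p : idx, Module.finrank K (V p.1) := Module.finrank_pi_fintype K
    rw [h3, Module.finrank_fintype_fun_eq_card, Fintype.card_fun, Fintype.card_fin, card_Bx,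
      ← hg]
    have h4 : ∑ p : idx, Module.finrank K (V p.1) ≤
        ((m + 1) * ((s + 1) ^ g) ^ m) * (c1 * (E + 1) ^ (2 * g - 2)) := by
      rw [Fintype.sum_prod_type, hc1, Finset.sum_mul, Finset.mul_sum]
      refine Finset.sum_le_sum (fun i _ => ?_)
      change ∑ _y : Fin (m + 1) × (Fin m → Bx A s), Module.finrank K (V i) ≤ _
      rw [Finset.sum_const, Finset.card_univ, Fintype.card_prod, Fintype.card_fin,
        Fintype.card_fun, Fintype.card_fin, card_Bx, ← hg, smul_eq_mul]
      exact Nat.mul_le_mul_left _ (hc0 i E)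
    refine h4.trans_lt ?_
    have h5 : 0 < ((s + 1) ^ g) ^ m := by positivity
    rcases Nat.eq_zero_or_pos t with ht | ht
    · subst ht
      have : c1 = 0 := by rw [hc1]; simp
      rw [this, zero_mul, mul_zero]
      positivity
    · have h2g : 2 ≤ g := by
        have h1 := (self_le_add_left _ _).trans (hy ⟨0, ht⟩)
        exact_mod_cast h1
      have h6 : (E + 1) ^ (2 * g - 2) ≤ (1 + 8 * g) ^ (2 * g - 2) * (s + 1) ^ (2 * g - 2) := by
        rw [← mul_pow]
        exact Nat.pow_le_pow_left hEle _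
      have h7 : c1 * (1 + 8 * g) ^ (2 * g - 2) * (m + 1) < (s + 1) * (s + 1) :=
        Nat.lt_succ_sqrt _
      calc ((m + 1) * ((s + 1) ^ g) ^ m) * (c1 * (E + 1) ^ (2 * g - 2)) ≤
            ((m + 1) * ((s + 1) ^ g) ^ m) *
              (c1 * ((1 + 8 * g) ^ (2 * g - 2) * (s + 1) ^ (2 * g - 2))) := by gcongr
        _ = (c1 * (1 + 8 * g) ^ (2 * g - 2) * (m + 1)) *
              ((s + 1) ^ (2 * g - 2) * ((s + 1) ^ g) ^ m) := by ring
        _ < ((s + 1) * (s + 1)) * ((s + 1) ^ (2 * g - 2) * ((s + 1) ^ g) ^ m) :=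
            Nat.mul_lt_mul_of_pos_right h7 (by positivity)
        _ = ((s + 1) ^ g) ^ (m + 2) := by
            have h8 : (s + 1) * (s + 1) * (s + 1) ^ (2 * g - 2) = ((s + 1) ^ g) ^ 2 := by
              rw [← pow_mul, ← pow_two, ← pow_add]
              congr 1
              omega
            rw [← mul_assoc, h8, ← pow_add]
            congr 1
            omega
  obtain ⟨c, hc, hcne⟩ := (Submodule.ne_bot_iff _).1 (LinearMap.ker_ne_bot_of_finrank_lt (f := T) hfin)
  refine ⟨s, c, ?_, hcne, fun i k ψ => ?_⟩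
  · rw [pow_two]
    exact Nat.sqrt_le _
  · have h1 : T c = 0 := hc
    have h2 := congrArg Subtype.val (congrFun h1 (i, k, ψ))
    have h3 : rr i * ev (Gf A (cc A c k ψ)) (vcT (pr (y i - q i) (q i))) = 0 := h2
    exact (mul_eq_zero.1 h3).resolve_left (hrr0 i)

end exist

end Pool.Agent.H14.LB
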