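import Pool.Agent.H14.LB.Rel

/-!
# The local estimate for the forms in several points
-/

set_option autoImplicit false
set_option linter.unusedSectionVars false

open MvPolynomial Pool.Agent.TH954.X Pool.Agent.TH954.V Pool.Agent.TH954.Z

namespace Pool.Agent.H14.LB

section split

variable {K : Type} [Field K] {n β : ℕ} (A : Fin β → AbV K n)

/-- splitting off two groups -/
def eqv (s m : ℕ) (k : Fin (m + 1)) :
    (Fin m → Bx A s) × (Fin 2 → Bx A s) ≃ (Fin (m + 2) → Bx A s) where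
  toFun p := Fin.cons (p.2 0) (Fin.insertNth k (p.2 1) p.1)
  invFun φ := (fun j => φ (k.succAbove j).succ, ![φ 0, φ k.succ])
  left_inv := by
    rintro ⟨ψ, a⟩
    refine Prod.ext ?_ ?_
    · funext j
      simp
    · funext j
      fin_cases j
      · rfl
      · simp
  right_inv := by
    intro φ
    funext j
    refine Fin.cases ?_ (fun j => ?_) j
    · rfl
    · simp only [Fin.cons_succ]
      refine Fin.succAboveCases k ?_ (fun j => ?_) j
      · simp
      · simp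

lemma ev_split {s m : ℕ} (c : (Fin (m + 2) → Bx A s) → K) (k : Fin (m + 1)) {F : Type} [Field F]
    [Algebra K F] (Q : Fin (m + 2) → Bp A F) :
    ev (Gf A c) (vcT Q) = ∑ ψ : Fin m → Bx A s,
      ev (Gf A (cc A c k ψ)) (vcT (pr (Q 0) (Q k.succ))) *
        ∏ j, mon A (ψ j) (vc (Q (k.succAbove j).succ)) := by
  rw [ev_Gf, ← Equiv.sum_comp (eqv A s m k), Fintype.sum_prod_type]
  refine Finset.sum_congr rfl (fun ψ _ => ?_)
  rw [ev_Gf, Finset.sum_mul]
  refine Finset.sum_congr rfl (fun a _ => ?_)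
  have h1 : cc A c k ψ a = c (eqv A s m k (ψ, a)) := rfl
  rw [h1, mul_assoc]
  congr 1
  rw [Fin.prod_univ_succ, Fin.prod_univ_succAbove _ k, Fin.prod_univ_two, mul_assoc]
  congr 1
  congr 1
  · simp only [eqv, Equiv.coe_fn_mk, Fin.cons_succ, Fin.insertNth_apply_same]
    rfl
  · refine Finset.prod_congr rfl (fun j _ => ?_)
    simp only [eqv, Equiv.coe_fn_mk, Fin.cons_succ, Fin.insertNth_apply_succAbove]
    rfl

lemma den_split {s m : ℕ} (k : Fin (m + 1)) (B : Fin (m + 2) × Fin β → ℝ) :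
    ∏ p : Fin (m + 2) × Fin β, B p ^ ((A p.2).dim * s) =
      (∏ p : Fin 2 × Fin β, B (if p.1 = 0 then 0 else k.succ, p.2) ^ ((A p.2).dim * s)) *
        ∏ j : Fin m, ∏ b, B ((k.succAbove j).succ, b) ^ ((A b).dim * s) := by
  rw [Fintype.prod_prod_type, Fintype.prod_prod_type, Fin.prod_univ_succ,
    Fin.prod_univ_succAbove _ k, Fin.prod_univ_two, mul_assoc]
  simp

end split

section loc

variable {K : Type} [Field K] {n β : ℕ} (A : Fin β → AbV K n)

lemma nvW_split {s m : ℕ} (c : (Fin (m + 2) → Bx A s) → K) (k : Fin (m + 1)) {L : Type} [Field L]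
    [Algebra K L] (w : AbsoluteValue L ℝ) (Q : Fin (m + 2) → Bp A L) {X : ℝ} (hX0 : 0 ≤ X)
    (hX : ∀ ψ, nvW w (fun p => (A p.2).dim * s) (Gf A (cc A c k ψ))
      (vcT (pr (Q 0) (Q k.succ))) ≤ X) :
    nvW w (fun p => (A p.2).dim * s) (Gf A c) (vcT Q) ≤
      kap (∅ : Finset K) (Fintype.card (Fin m → Bx A s)) 0 w * X := by
  classical
  set B : Fin (m + 2) × Fin β → ℝ := fun p => ⨆ c, w (vcT Q p c) with hB
  have hB0 : ∀ p, 0 < B p := fun p => sup_posW w (Q p.1 p.2).2.1.ne_zero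
  set D : ℝ := ∏ p : Fin (m + 2) × Fin β, B p ^ ((A p.2).dim * s) with hD
  have hD0 : 0 < D := Finset.prod_pos (fun p _ => pow_pos (hB0 p) _)
  set D1 : ℝ := ∏ p : Fin 2 × Fin β,
    (⨆ c, w (vcT (pr (Q 0) (Q k.succ)) p c)) ^ ((A p.2).dim * s) with hD1
  set D2 : ℝ := ∏ j : Fin m, ∏ b, B ((k.succAbove j).succ, b) ^ ((A b).dim * s) with hD2
  have hDs : D = D1 * D2 := by
    rw [hD, den_split A k B, hD1]
    congr 1
    refine Finset.prod_congr rfl (fun p _ => ?_)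
    obtain ⟨j, b⟩ := p
    congr 1
    simp only [hB]
    by_cases hj : j = 0
    · subst hj
      rfl
    · have : j = 1 := by omega
      subst this
      rfl
  have hD10 : 0 < D1 := Finset.prod_pos (fun p _ => pow_pos
    (sup_posW w (pr (Q 0) (Q k.succ) p.1 p.2).2.1.ne_zero) _)
  have hterm : ∀ ψ ∈ (Finset.univ : Finset (Fin m → Bx A s)),
      w (ev (Gf A (cc A c k ψ)) (vcT (pr (Q 0) (Q k.succ))) *
        ∏ j, mon A (ψ j) (vc (Q (k.succAbove j).succ))) ≤ X * D := by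
    intro ψ _
    rw [w.map_mul, w.map_prod, hDs, ← mul_assoc]
    have h1 := hX ψ
    unfold nvW at h1
    rw [div_le_iff₀ hD10] at h1
    refine mul_le_mul h1 ?_ (Finset.prod_nonneg (fun _ _ => w.nonneg _))
      (mul_nonneg hX0 hD10.le)
    exact Finset.prod_le_prod (fun _ _ => w.nonneg _) (fun j _ => mon_le A _ w _)
  unfold nvW
  rw [div_le_iff₀ hD0, ev_split A c k Q]
  unfold kap
  rw [pow_zero, mul_one]
  split_ifs with h
  · rw [one_mul]
    exact ult_sum h _ _ (mul_nonneg hX0 hD0.le) hterm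
  · refine (w.sum_le _ _).trans ((Finset.sum_le_sum hterm).trans ?_)
    rw [Finset.sum_const, nsmul_eq_mul, Finset.card_univ, mul_assoc]

/-- **Forms of small degree in several points.** -/
theorem relHyp (hA : Top A) (E : Type) [Fintype E]
    (f : E → MvPolynomial (Fin β × Fin n) K) (δ : E → Fin β → ℕ) (hf : ∀ i, MH (δ i) (f i))
    (hc : CodimB A f 2) :
    ∃ (C N : ℕ), ∀ m : ℕ,
      ∃ (D : ℕ) (G : MvPolynomial ((Fin (m + 2) × Fin β) × Fin n) K)
        (τ : Fin (m + 2) × Fin β → ℕ), D ^ 2 ≤ C * (m + 1) ∧ (∀ p, τ p ≤ D) ∧ MH τ G ∧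
        Gen.N (Gp.Cb A (m + 2)) G ∧
        ∃ (M e : ℕ) (A0 : Finset K), 1 ≤ M ∧ ∀ (L : Type) [Field L] [Algebra K L]
          (w : AbsoluteValue L ℝ) (Q : Fin (m + 2) → Bp A L) (k : Fin (m + 1)),
          nvW w τ G (vcT Q) ^ N ≤ kap A0 M e w *
            ⨆ j, nvW w (δ j) (f j) (vc (Q 0 + Q k.succ)) := by
  classical
  let e' := Fintype.equivFin E
  let φ : Fin β → Option (Fin 1) × Fin β := fun b => (some 0, b)
  have hφ : Function.Injective φ := fun a b h => (Prod.ext_iff.mp h).2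
  have hf' : ∀ i, MH (Gp.rd φ (δ (e'.symm i))) (Gp.rn φ (f (e'.symm i))) :=
    fun i => Gp.rn_MH _ hφ (hf _)
  obtain ⟨N, hN, t, F, iF, iA, η, hη0, hη1, hη2, hη3⟩ :=
    nullW K (wqX (Gp.Vd A 1)) (wqX_MH _) (fun i => Gp.rn φ (f (e'.symm i)))
      (fun i => ⟨_, hf' i⟩)
  have hpt : ∀ i p m, aeval (η i p) ((A p.2).eqn m) = 0 := by
    intro i p m
    have h1 := hη1 i ⟨p, m⟩
    unfold wqX at h1
    rw [ev_rename] at h1
    exact h1
  let y : ∀ i, Bp A (F i) := fun i b => ⟨η i (some 0, b), hη0 i _, hpt i (some 0, b)⟩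
  let q : ∀ i, Bp A (F i) := fun i b => ⟨η i (none, b), hη0 i _, hpt i (none, b)⟩
  have htwo : ∀ i, two (y i) (q i) = η i := by
    intro i
    funext p
    obtain ⟨o, b⟩ := p
    cases o with
    | none => rfl
    | some j =>
      have : j = 0 := Subsingleton.elim _ _
      subst this
      rfl
  have hfy : ∀ i x, ev (f x) (vc (y i)) = 0 := by
    intro i x
    have h1 := hη2 i (e' x)
    simp only [Gp.ev_rn, Equiv.symm_apply_apply] at h1
    exact h1
  obtain ⟨C, hC⟩ := exist_c A F y q (fun i => hc (F i) (y i) (hfy i)) (fun i => hA (F i) (q i))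
  set g : ℕ := ∑ b, (A b).dim with hg
  refine ⟨g ^ 2 * C, N, fun m => ?_⟩
  obtain ⟨s, c, hs, hc0, hcz⟩ := hC m
  refine ⟨g * s, Gf A c, fun p => (A p.2).dim * s, ?_, ?_, MH_Gf A c, NZ_Gf A c hc0, ?_⟩
  · calc (g * s) ^ 2 = g ^ 2 * s ^ 2 := by ring
      _ ≤ g ^ 2 * (C * (m + 1)) := Nat.mul_le_mul_left _ hs
      _ = g ^ 2 * C * (m + 1) := by ring
  · intro p
    refine Nat.mul_le_mul_right _ ?_
    exact Finset.single_le_sum (f := fun b => (A b).dim) (fun _ _ => Nat.zero_le _)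
      (Finset.mem_univ p.2)
  -- the local inequality for the parts
  have hloc : ∀ p : Fin (m + 1) × (Fin m → Bx A s), ∃ (A0 : Finset K) (M e : ℕ), 1 ≤ M ∧
      ∀ (L : Type) [Field L] [Algebra K L] (w : AbsoluteValue L ℝ) (P q : Bp A L),
        nvW w (fun p => (A p.2).dim * s) (Gf A (cc A c p.1 p.2)) (vcT (pr P q)) ^ N ≤
          kap A0 M e w * ⨆ j, nvW w (δ j) (f j) (vc (P + q)) := by
    intro p
    obtain ⟨A0, M, e, hM, hA0⟩ := locX_G (wqX (Gp.Vd A 1)) (wqX_MH _) (fun _ _ _ _ _ => True)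
      (fun i => Gp.rn φ (f (e'.symm i))) (fun i => Gp.rd φ (δ (e'.symm i))) hf' F η hη3 sgm
      (Fm A) (Fm_MH A) (fun l => locF_fam _ (wqX_MH _) _ _ (Fm_fam A l)) 1 (fun _ => 0) MH_one
      ⟨∅, 1, 0, le_refl _, fun L _ _ w u _ _ => by
        have h3 : nvW w (fun _ => 0)
            (1 : MvPolynomial ((Option (Fin 1) × Fin β) × Fin n) K) u = 1 := by
          simp [nvW, ev]
        rw [h3, mul_one]
        exact one_le_kap _ (le_refl _) _ _⟩
      (Gf A (cc A c p.1 p.2)) (fun p => (A p.2).dim * s) (MH_Gf A _)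
      (fun i => Or.inr ⟨vcT (pr (y i - q i) (q i)), fun l => by
        rw [← htwo]
        exact Fm_Tg A l (y i) (q i), hcz i p.1 p.2⟩)
    refine ⟨A0, M, e, hM, fun L _ _ w P q => ?_⟩
    have h2 := hA0 L w (two (P + q) q) (onS_two A _ _) trivial (vcT (pr P q)) (fun l => by
      have h3 := Fm_Tg A l (P + q) q
      rw [add_sub_cancel_right] at h3
      exact h3)
    refine h2.trans (le_of_eq ?_)
    congr 1
    rw [← e'.symm.iSup_comp]
    refine iSup_congr (fun x => ?_)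
    rw [Gp.nvW_rn]
    rfl
  choose A0 M e hM hA0 using hloc
  obtain ⟨B, hB⟩ := kap_prod_le Finset.univ A0 M e
  set W : ℕ := Fintype.card (Fin m → Bx A s) with hW
  have hW1 : 1 ≤ W := Fintype.card_pos
  refine ⟨W ^ N * ∏ p, M p, ∑ p, e p, B, ?_, ?_⟩
  · exact Nat.mul_pos (pow_pos hW1 _) (Finset.prod_pos (fun p _ => hM p))
  intro L _ _ w Q k
  set R : ℝ := ⨆ j, nvW w (δ j) (f j) (vc (Q 0 + Q k.succ)) with hR
  have hR0 : 0 ≤ R := Real.iSup_nonneg (fun _ => nvW_nonneg _ _ _ _)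
  set κ : ℝ := kap B (∏ p, M p) (∑ p, e p) w with hκ
  have hκ0 : 0 ≤ κ := zero_le_one.trans
    (one_le_kap B (Nat.succ_le_of_lt (Finset.prod_pos (fun p _ => hM p))) _ w)
  -- the largest part
  obtain ⟨ψ0, hψ0⟩ := Finite.exists_max (fun ψ : Fin m → Bx A s =>
    nvW w (fun p => (A p.2).dim * s) (Gf A (cc A c k ψ)) (vcT (pr (Q 0) (Q k.succ))))
  set X : ℝ := nvW w (fun p => (A p.2).dim * s) (Gf A (cc A c k ψ0))
    (vcT (pr (Q 0) (Q k.succ))) with hX
  have hX0 : 0 ≤ X := nvW_nonneg _ _ _ _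
  have h1 := nvW_split A c k w Q hX0 hψ0
  have h2 : X ^ N ≤ κ * R := by
    refine (hA0 (k, ψ0) L w (Q 0) (Q k.succ)).trans (mul_le_mul_of_nonneg_right ?_ hR0)
    refine le_trans ?_ (hB L w)
    have hk : ∀ p, 1 ≤ kap (A0 p) (M p) (e p) w := fun p => one_le_kap _ (hM p) _ _
    rw [← Finset.mul_prod_erase Finset.univ (fun p => kap (A0 p) (M p) (e p) w)
      (Finset.mem_univ (k, ψ0))]
    exact le_mul_of_one_le_right (zero_le_one.trans (hk _)) (one_le_prodR _ (fun j _ => hk j))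
  have h3 : 0 ≤ kap (∅ : Finset K) W 0 w := zero_le_one.trans (one_le_kap _ hW1 _ _)
  calc nvW w (fun p => (A p.2).dim * s) (Gf A c) (vcT Q) ^ N ≤
        (kap (∅ : Finset K) W 0 w * X) ^ N := pow_le_pow_left₀ (nvW_nonneg _ _ _ _) h1 N
    _ = kap (∅ : Finset K) W 0 w ^ N * X ^ N := mul_pow _ _ _
    _ ≤ kap (∅ : Finset K) W 0 w ^ N * (κ * R) :=
        mul_le_mul_of_nonneg_left h2 (pow_nonneg h3 _)
    _ = (kap (∅ : Finset K) (W ^ N) (0 * N) w * κ) * R := by rw [kap_pow]; ring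
    _ ≤ kap B (W ^ N * ∏ p, M p) (∑ p, e p) w * R := by
        refine mul_le_mul_of_nonneg_right ?_ hR0
        refine (kap_mul_le _ _ _ _ _ _ w).trans (le_of_eq ?_)
        rw [Finset.empty_union, zero_mul, zero_add]

end loc

end Pool.Agent.H14.LB
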