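import Pool.Agent.H14.LB.Loc

/-!
# The total local height in an extension field
-/

set_option autoImplicit false
set_option linter.unusedSectionVars false

open MvPolynomial Pool.Agent.TH954.X Pool.Agent.TH954.V Pool.Agent.TH954.Z NumberField

namespace Pool.Agent.H14.LB

section formula

variable {K : Type} [Field K] {ι : Type} [Fintype ι] {n : ℕ} {E : Type} [Fintype E]

/-- the common multidegree -/
def Dl (δ : E → ι → ℕ) (j : ι) : ℕ := ∑ i, δ i j

/-- the values of the forms, multiplied by monomials to have the same multidegree -/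
noncomputable def Yv {L : Type} [Field L] [Algebra K L] (f : E → MvPolynomial (ι × Fin n) K)
    (δ : E → ι → ℕ) (u : ι → Fin n → L) (p : E × (ι → Fin n)) : L :=
  ev (f p.1) u * ∏ j, u j (p.2 j) ^ (Dl δ j - δ p.1 j)

lemma le_Dl (δ : E → ι → ℕ) (i : E) (j : ι) : δ i j ≤ Dl δ j :=
  Finset.single_le_sum (f := fun i => δ i j) (fun _ _ => Nat.zero_le _) (Finset.mem_univ i)

lemma Yv_ne {L : Type} [Field L] [Algebra K L] (f : E → MvPolynomial (ι × Fin n) K)
    (δ : E → ι → ℕ) {u : ι → Fin n → L} (hu : ∀ j, u j ≠ 0) (h0 : ∃ i, ev (f i) u ≠ 0) :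
    Yv f δ u ≠ 0 := by
  obtain ⟨i, hi⟩ := h0
  choose c hc using fun j => Function.ne_iff.mp (hu j)
  intro h
  have h1 := congrFun h (i, c)
  have h2 : Yv f δ u (i, c) ≠ 0 :=
    mul_ne_zero hi (Finset.prod_ne_zero_iff.2 (fun j _ => pow_ne_zero _ (hc j)))
  exact h2 h1

lemma sup_Yv {L : Type} [Field L] [Algebra K L] (w : AbsoluteValue L ℝ)
    (f : E → MvPolynomial (ι × Fin n) K)
    (δ : E → ι → ℕ) {u : ι → Fin n → L} (hu : ∀ j, u j ≠ 0) (h0 : ∃ i, ev (f i) u ≠ 0) :
    (⨆ p, w (Yv f δ u p)) =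
      (∏ j, (⨆ c, w (u j c)) ^ Dl δ j) * ⨆ i, nvW w (δ i) (f i) u := by
  obtain ⟨i0, hi0⟩ := h0
  have hne : Nonempty E := ⟨i0⟩
  have hn : ∀ j : ι, Nonempty (Fin n) := fun j => by
    obtain ⟨c, -⟩ := Function.ne_iff.mp (hu j)
    exact ⟨c⟩
  set B : ι → ℝ := fun j => ⨆ c, w (u j c) with hB
  have hB0 : ∀ j, 0 < B j := fun j => sup_posW w (hu j)
  have hmx : ∀ j, ∃ c, w (u j c) = B j := fun j => by
    have := hn j
    exact exists_supW w (u j)
  choose cm hcm using hmx
  have hval : ∀ p : E × (ι → Fin n), w (Yv f δ u p) =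
      w (ev (f p.1) u) * ∏ j, w (u j (p.2 j)) ^ (Dl δ j - δ p.1 j) := by
    intro p
    unfold Yv
    rw [w.map_mul, w.map_prod]
    simp_rw [w.map_pow]
  have hsplit : ∀ i, ∏ j, B j ^ (Dl δ j) = (∏ j, B j ^ δ i j) * ∏ j, B j ^ (Dl δ j - δ i j) := by
    intro i
    rw [← Finset.prod_mul_distrib]
    refine Finset.prod_congr rfl (fun j _ => ?_)
    rw [← pow_add, Nat.add_sub_cancel' (le_Dl δ i j)]
  have hnv : ∀ i, (∏ j, B j ^ Dl δ j) * nvW w (δ i) (f i) u =
      w (ev (f i) u) * ∏ j, B j ^ (Dl δ j - δ i j) := by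
    intro i
    have h1 : (∏ j, B j ^ δ i j) ≠ 0 := (Finset.prod_pos (fun j _ => pow_pos (hB0 j) _)).ne'
    rw [hsplit i]
    unfold nvW
    change (∏ j, B j ^ δ i j) * (∏ j, B j ^ (Dl δ j - δ i j)) *
      (w (ev (f i) u) / ∏ j, B j ^ δ i j) = _
    field_simp
  have hDpos : 0 < ∏ j, B j ^ Dl δ j := Finset.prod_pos (fun j _ => pow_pos (hB0 j) _)
  have hne2 : Nonempty (E × (ι → Fin n)) := ⟨(i0, cm)⟩
  refine le_antisymm (ciSup_le (fun p => ?_)) ?_
  · rw [hval]
    have h1 : ∏ j, w (u j (p.2 j)) ^ (Dl δ j - δ p.1 j) ≤ ∏ j, B j ^ (Dl δ j - δ p.1 j) :=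
      Finset.prod_le_prod (fun j _ => pow_nonneg (w.nonneg _) _) (fun j _ =>
        pow_le_pow_left₀ (w.nonneg _) (le_supW w (u j) (p.2 j)) _)
    refine (mul_le_mul_of_nonneg_left h1 (w.nonneg _)).trans ?_
    rw [← hnv]
    refine mul_le_mul_of_nonneg_left ?_ hDpos.le
    exact le_ciSup (f := fun i => nvW w (δ i) (f i) u) (Set.finite_range _).bddAbove p.1
  · obtain ⟨i, hi⟩ := exists_eq_ciSup_of_finite (f := fun i => nvW w (δ i) (f i) u)
    rw [← hi, hnv]
    have h1 : w (Yv f δ u (i, cm)) = w (ev (f i) u) * ∏ j, B j ^ (Dl δ j - δ i j) := by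
      rw [hval]
      congr 1
      refine Finset.prod_congr rfl (fun j _ => ?_)
      change w (u j (cm j)) ^ _ = _
      rw [hcm]
    rw [← h1]
    exact le_ciSup (f := fun p => w (Yv f δ u p)) (Set.finite_range _).bddAbove (i, cm)

/-- the total local height as a combination of heights -/
lemma tot_eq {L : Type} [Field L] [NumberField L] [Algebra K L]
    (f : E → MvPolynomial (ι × Fin n) K)
    (δ : E → ι → ℕ) {u : ι → Fin n → L} (hu : ∀ j, u j ≠ 0) (h0 : ∃ i, ev (f i) u ≠ 0) :
    tot (fun w : AbsoluteValue L ℝ => -Real.log (⨆ i, nvW w (δ i) (f i) u)) =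
      ∑ j, (Dl δ j : ℝ) * Height.logHeight (u j) - Height.logHeight (Yv f δ u) := by
  have hY := Yv_ne f δ hu h0
  have h1 : (fun w : AbsoluteValue L ℝ => -Real.log (⨆ i, nvW w (δ i) (f i) u)) =
      fun w => (∑ j, (Dl δ j : ℝ) * Real.log (⨆ c, w (u j c))) +
        (-1 : ℝ) * Real.log (⨆ p, w (Yv f δ u p)) := by
    funext w
    have hB0 : ∀ j, 0 < ⨆ c, w (u j c) := fun j => sup_posW w (hu j)
    have hpos : 0 < ⨆ i, nvW w (δ i) (f i) u := by
      obtain ⟨i, hi⟩ := h0
      have h1 := Pool.Agent.TH954.Y.sup_nvW_pos w δ (fun i => mp L (f i)) hu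
        ⟨i, by rw [ev_mp]; exact hi⟩
      simpa only [nvW_mp] using h1
    rw [sup_Yv w f δ hu h0, Real.log_mul (Finset.prod_pos (fun j _ =>
      pow_pos (hB0 j) _)).ne' hpos.ne', Real.log_prod (fun j _ => (pow_pos (hB0 j) _).ne')]
    simp_rw [Real.log_pow]
    ring
  rw [h1, tot_add (FS_sum _ (fun j _ => FS_mul (FS_sup' (hu j)) _)) (FS_mul (FS_sup' hY) _),
    tot_sum _ (fun j _ => FS_mul (FS_sup' (hu j)) _), tot_mul (FS_sup' hY), tot_sup' hY]
  have h2 : ∀ j, tot (fun w : AbsoluteValue L ℝ => (Dl δ j : ℝ) * Real.log (⨆ c, w (u j c))) =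
      Dl δ j * Height.logHeight (u j) := fun j => by
    rw [tot_mul (FS_sup' (hu j)), tot_sup' (hu j)]
  simp_rw [h2]
  ring

/-- the total local height in an extension field -/
lemma tot_scale {L L' : Type} [Field L] [NumberField L] [Algebra K L] [Field L'] [NumberField L']
    [Algebra K L'] [Algebra L L'] [IsScalarTower K L L']
    (f : E → MvPolynomial (ι × Fin n) K)
    (δ : E → ι → ℕ) {u : ι → Fin n → L} (hu : ∀ j, u j ≠ 0) (h0 : ∃ i, ev (f i) u ≠ 0) :
    tot (fun w : AbsoluteValue L' ℝ => -Real.log (⨆ i, nvW w (δ i) (f i)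
      (fun j c => algebraMap L L' (u j c)))) = Module.finrank L L' *
        tot (fun w : AbsoluteValue L ℝ => -Real.log (⨆ i, nvW w (δ i) (f i) u)) := by
  have hev : ∀ i, ev (f i) (fun j c => algebraMap L L' (u j c)) = algebraMap L L' (ev (f i) u) := by
    intro i
    unfold ev
    have h2 := MvPolynomial.comp_aeval_apply (f := fun p : ι × Fin n => u p.1 p.2)
      (IsScalarTower.toAlgHom K L L') (f i)
    exact h2.symm
  have hu' : ∀ j, (fun c => algebraMap L L' (u j c)) ≠ 0 := by
    intro j h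
    apply hu j
    funext c
    have := congrFun h c
    exact (map_eq_zero _).1 this
  have h0' : ∃ i, ev (f i) (fun j c => algebraMap L L' (u j c)) ≠ 0 := by
    obtain ⟨i, hi⟩ := h0
    exact ⟨i, by rw [hev]; exact fun h => hi ((map_eq_zero _).1 h)⟩
  rw [tot_eq f δ hu' h0', tot_eq f δ hu h0]
  have h1 : ∀ j, Height.logHeight (fun c => algebraMap L L' (u j c)) =
      Module.finrank L L' * Height.logHeight (u j) := fun j =>
    Helper259.HtExt.logHeight_ext (L := L') (u j)
  have h2 : Yv f δ (fun j c => algebraMap L L' (u j c)) =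
      fun p => algebraMap L L' (Yv f δ u p) := by
    funext p
    unfold Yv
    rw [hev, map_mul, map_prod]
    simp_rw [map_pow]
  rw [h2, Helper259.HtExt.logHeight_ext (L := L') (Yv f δ u)]
  simp_rw [h1]
  rw [mul_sub, Finset.mul_sum]
  congr 1
  exact Finset.sum_congr rfl (fun j _ => by ring)

end formula

section pts

variable {K : Type} [Field K] [NumberField K] {n β : ℕ}

lemma htL_scale {A : Fin β → AbV K n} {L L' : Type} [Field L] [NumberField L] [Algebra K L]
    [Field L'] [NumberField L'] [Algebra K L'] [Algebra L L'] [IsScalarTower K L L']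
    (P : Bp A L) : htL (bcB (IsScalarTower.toAlgHom K L L') P) =
      Module.finrank L L' * htL P := by
  unfold htL
  rw [Finset.mul_sum]
  exact Finset.sum_congr rfl (fun b _ => Helper259.HtExt.logHeight_ext (L := L') (P b).1)

lemma finrank_scale {L L' : Type} [Field L] [NumberField L]
    [Field L'] [NumberField L'] [Algebra L L'] :
    (Module.finrank ℚ L' : ℝ) = Module.finrank L L' * Module.finrank ℚ L := by
  have h := Module.finrank_mul_finrank ℚ L L'
  have h' : (Module.finrank ℚ L' : ℝ) = ((Module.finrank ℚ L * Module.finrank L L' : ℕ) : ℝ) := by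
    exact_mod_cast h.symm
  rw [h']
  push_cast
  ring

lemma ExcX_scale {A : Fin β → AbV K n} {E1 E2 : Type} [Fintype E2]
    (g : E1 → MvPolynomial (Option (Fin β) × Fin n) K)
    (f : E2 → MvPolynomial (Option (Fin β) × Fin n) K) (δ : E2 → Option (Fin β) → ℕ)
    {ε C : ℝ}
    {L L' : Type} [Field L] [NumberField L] [Algebra K L]
    [Field L'] [NumberField L'] [Algebra K L'] [Algebra L L'] [IsScalarTower K L L']
    (P : Bp A L) (h : ExcX g f δ ε C L P) :
    ExcX g f δ ε C L' (bcB (IsScalarTower.toAlgHom K L L') P) := by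
  obtain ⟨t, ht0, hgt, hbad⟩ := h
  have hful : fl (fun c => algebraMap L L' (t c)) (bcB (IsScalarTower.toAlgHom K L L') P) =
      fun o c => algebraMap L L' (fl t P o c) := by
    funext o
    cases o with
    | none => rfl
    | some b => rfl
  have hev : ∀ q : MvPolynomial (Option (Fin β) × Fin n) K,
      ev q (fun o c => algebraMap L L' (fl t P o c)) = algebraMap L L' (ev q (fl t P)) := by
    intro q
    unfold ev
    have h2 := MvPolynomial.comp_aeval_apply (f := fun p : Option (Fin β) × Fin n => fl t P p.1 p.2)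
      (IsScalarTower.toAlgHom K L L') q
    exact h2.symm
  refine ⟨fun c => algebraMap L L' (t c), ?_, ?_, ?_⟩
  · intro h
    apply ht0
    funext c
    exact (map_eq_zero _).1 (congrFun h c)
  · intro i
    rw [hful, hev, hgt i, map_zero]
  · by_cases hall : ∀ i, ev (f i) (fl t P) = 0
    · left
      intro i
      rw [hful, hev, hall i, map_zero]
    · right
      rcases hbad with hb | hb
      · exact absurd hb hall
      push Not at hall
      have hu : ∀ o, fl t P o ≠ 0 := by
        intro o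
        cases o with
        | none => exact ht0
        | some b => exact (P b).2.1.ne_zero
      rw [hful, tot_scale f δ hu hall, htL_scale, finrank_scale (L := L) (L' := L')]
      have hpos : (0 : ℝ) < Module.finrank L L' := by
        have : 0 < Module.finrank L L' := by
          have h1 := Module.finrank_mul_finrank ℚ L L'
          have h2 : 0 < Module.finrank ℚ L' := Module.finrank_pos
          by_contra hcon
          have h3 : Module.finrank L L' = 0 := by omega
          rw [h3, mul_zero] at h1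
          omega
        exact_mod_cast this
      have h2 := mul_lt_mul_of_pos_left hb hpos
      linarith

end pts

end Pool.Agent.H14.LB
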