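import Pool.Agent.H14.LB.Near
import Pool.Graph.R_seed8.TH954.Z.Dense

/-!
# Choosing points of a set in general position, or a hypersurface of small degree containing it
-/

set_option autoImplicit false
set_option linter.unusedSectionVars false

open MvPolynomial Pool.Agent.TH954.X Pool.Agent.TH954.V Pool.Agent.TH954.Z

namespace Pool.Agent.H14.LB

section bc

variable {K : Type} [Field K] {n : ℕ}

lemma normed_unique {F : Type} [Field F] {u v : Fin n → F} (hu : Normed u) (hv : Normed v)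
    {r : F} (h : u = r • v) : u = v := by
  obtain ⟨i, hi, hi'⟩ := hu
  obtain ⟨j, hj, hj'⟩ := hv
  have hui : ∀ c, u c = r * v c := fun c => by rw [h]; rfl
  have hr : r ≠ 0 := by
    rintro rfl
    rw [hui, zero_mul] at hi
    exact zero_ne_one hi
  have hij : i = j := by
    rcases lt_trichotomy i j with hlt | heq | hgt
    · rw [hui, hj' i hlt, mul_zero] at hi
      exact absurd hi zero_ne_one
    · exact heq
    · have h1 := hi' j hgt
      rw [hui, hj, mul_one] at h1
      exact absurd h1 hr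
  subst hij
  have hr1 : r = 1 := by
    rw [hui, hj, mul_one] at hi
    exact hi
  rw [h, hr1, one_smul]

/-- base change of points -/
def bcV (A : AbV K n) {L F : Type} [Field L] [Algebra K L] [Field F] [Algebra K F]
    (φ : L →ₐ[K] F) (P : A.Pt L) : A.Pt F :=
  ⟨fun c => φ (P.1 c), (Dns.Pv.map (B := A) φ P.2).1, (Dns.Pv.map (B := A) φ P.2).2⟩

lemma bcV_law (A : AbV K n) {L F : Type} [Field L] [Algebra K L] [Field F] [Algebra K F]
    (φ : L →ₐ[K] F) (P Q : A.Pt L) :
    bcV A φ (P + Q) = bcV A φ P + bcV A φ Q ∧ bcV A φ (P - Q) = bcV A φ P - bcV A φ Q := by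
  obtain ⟨s, hs, h1⟩ := A.Λ_spec L P Q
  obtain ⟨s', hs', h2⟩ := A.Λ_spec F (bcV A φ P) (bcV A φ Q)
  have h1' : ∀ i j, ev (A.Λ i j) ![(bcV A φ P).1, (bcV A φ Q).1] =
      φ s * ((bcV A φ (P + Q)).1 i * (bcV A φ (P - Q)).1 j) := by
    intro i j
    have h3 : ev (A.Λ i j) ![(bcV A φ P).1, (bcV A φ Q).1] = φ (ev (A.Λ i j) ![P.1, Q.1]) := by
      unfold ev
      rw [MvPolynomial.comp_aeval_apply]
      congr 1
      congr 1
      funext p
      obtain ⟨a, c⟩ := p
      fin_cases a <;> rfl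
    rw [h3]
    have h4 : ev (A.Λ i j) ![P.1, Q.1] = s * ((P + Q).1 i * (P - Q).1 j) := h1 i j
    rw [h4, map_mul, map_mul]
    rfl
  have h2' : ∀ i j, ev (A.Λ i j) ![(bcV A φ P).1, (bcV A φ Q).1] =
      s' * ((bcV A φ P + bcV A φ Q).1 i * (bcV A φ P - bcV A φ Q).1 j) := h2
  have hφs : φ s ≠ 0 := fun h => hs ((map_eq_zero φ).1 h)
  obtain ⟨i0, hi0, -⟩ := (bcV A φ (P + Q)).2.1
  obtain ⟨j0, hj0, -⟩ := (bcV A φ (P - Q)).2.1
  constructor
  · refine Subtype.ext (normed_unique (bcV A φ (P + Q)).2.1 (bcV A φ P + bcV A φ Q).2.1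
      (r := (φ s)⁻¹ * s' * (bcV A φ P - bcV A φ Q).1 j0) ?_)
    funext i
    have h5 := h1' i j0
    rw [h2', hj0, mul_one] at h5
    rw [Pi.smul_apply, smul_eq_mul]
    field_simp
    rw [mul_comm _ (φ s), ← h5]
    ring
  · refine Subtype.ext (normed_unique (bcV A φ (P - Q)).2.1 (bcV A φ P - bcV A φ Q).2.1
      (r := (φ s)⁻¹ * s' * (bcV A φ P + bcV A φ Q).1 i0) ?_)
    funext j
    have h5 := h1' i0 j
    rw [h2', hi0, one_mul] at h5
    rw [Pi.smul_apply, smul_eq_mul]
    field_simp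
    rw [mul_comm _ (φ s), ← h5]
    ring

variable {β : ℕ}

/-- base change of points of a product -/
def bcB {A : Fin β → AbV K n} {L F : Type} [Field L] [Algebra K L] [Field F] [Algebra K F]
    (φ : L →ₐ[K] F) (P : Bp A L) : Bp A F := fun b => bcV (A b) φ (P b)

lemma bcB_add {A : Fin β → AbV K n} {L F : Type} [Field L] [Algebra K L] [Field F] [Algebra K F]
    (φ : L →ₐ[K] F) (P Q : Bp A L) : bcB φ (P + Q) = bcB φ P + bcB φ Q :=
  funext fun b => (bcV_law (A b) φ (P b) (Q b)).1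

lemma bcB_sub {A : Fin β → AbV K n} {L F : Type} [Field L] [Algebra K L] [Field F] [Algebra K F]
    (φ : L →ₐ[K] F) (P Q : Bp A L) : bcB φ (P - Q) = bcB φ P - bcB φ Q :=
  funext fun b => (bcV_law (A b) φ (P b) (Q b)).2

lemma ev_bcB {A : Fin β → AbV K n} {L F : Type} [Field L] [Algebra K L] [Field F] [Algebra K F]
    (φ : L →ₐ[K] F) (P : Bp A L) (f : MvPolynomial (Fin β × Fin n) K) :
    ev f (vc (bcB φ P)) = φ (ev f (vc P)) := by
  unfold ev
  rw [MvPolynomial.comp_aeval_apply]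
  rfl

lemma ev_bcT {A : Fin β → AbV K n} {L F : Type} [Field L] [Algebra K L] [Field F] [Algebra K F]
    (φ : L →ₐ[K] F) {r : ℕ} (Q : Fin r → Bp A L)
    (f : MvPolynomial ((Fin r × Fin β) × Fin n) K) :
    ev f (vcT (fun j => bcB φ (Q j))) = φ (ev f (vcT Q)) := by
  unfold ev
  rw [MvPolynomial.comp_aeval_apply]
  rfl

end bc

section nz

variable {K : Type} [Field K] {n β : ℕ}

/-- the form over `L` in `r` points does not vanish identically -/
def NZr (A : Fin β → AbV K n) (L : Type) [Field L] [Algebra K L] {r : ℕ}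
    (Ψ : MvPolynomial ((Fin r × Fin β) × Fin n) L) : Prop :=
  ∃ (F : Type) (_ : Field F) (_ : Algebra K F) (_ : Algebra L F) (_ : IsScalarTower K L F)
    (Q : Fin r → Bp A F), ev Ψ (vcT Q) ≠ 0

/-- the form over `L` does not vanish identically on `B` -/
def NZ1 (A : Fin β → AbV K n) (L : Type) [Field L] [Algebra K L]
    (H : MvPolynomial (Fin β × Fin n) L) : Prop :=
  ∃ (F : Type) (_ : Field F) (_ : Algebra K F) (_ : Algebra L F) (_ : IsScalarTower K L F)
    (P : Bp A F), ev H (vc P) ≠ 0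

lemma NZr_of_N (A : Fin β → AbV K n) (L : Type) [Field L] [Algebra K L] {r : ℕ}
    (Ψ : MvPolynomial ((Fin r × Fin β) × Fin n) K) (h : Gen.N (Gp.Cb A r) Ψ) :
    NZr A L (mp L Ψ) := by
  obtain ⟨F, iF, iA, v, hv, hne⟩ := h
  choose P hP using hv
  obtain ⟨F3, iF3, iA3, ⟨φ⟩, ⟨ψ⟩⟩ := Gen.common K F L
  let iLF : Algebra L F3 := ψ.toRingHom.toAlgebra
  have iT : IsScalarTower K L F3 := IsScalarTower.of_algebraMap_eq (fun x => (ψ.commutes x).symm)
  let Qp : Fin r → Bp A F := fun j b => P (j, b)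
  refine ⟨F3, iF3, iA3, iLF, iT, fun j => bcB φ (Qp j), ?_⟩
  rw [ev_mp, ev_bcT]
  have h1 : vcT Qp = v := by
    funext p
    exact hP p
  rw [h1]
  exact fun h => hne ((map_eq_zero φ).1 h)

end nz

section sl

variable {K : Type} [Field K] {n β : ℕ} {A : Fin β → AbV K n}

/-- specialising the first point -/
noncomputable def sl0 {L : Type} [Field L] [Algebra K L] {r : ℕ} (s : Bp A L)
    (Ψ : MvPolynomial ((Fin (r + 1) × Fin β) × Fin n) L) :
    MvPolynomial ((Fin r × Fin β) × Fin n) L :=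
  cmp Ψ (fun l c => Fin.cases (C ((s l.2).1 c)) (fun j => X ((j, l.2), c)) l.1)

lemma MH_sl0 {L : Type} [Field L] [Algebra K L] {r : ℕ} (s : Bp A L)
    {Ψ : MvPolynomial ((Fin (r + 1) × Fin β) × Fin n) L} {τ : Fin (r + 1) × Fin β → ℕ}
    (hτ : MH τ Ψ) : MH (fun p => τ (p.1.succ, p.2)) (sl0 s Ψ) := by
  classical
  have h1 := MH_cmp hτ (fun l c => Fin.cases (C ((s l.2).1 c)) (fun j => X ((j, l.2), c)) l.1)
    (fun l (p : Fin r × Fin β) =>
      Fin.cases (motive := fun _ => ℕ) 0 (fun j => if p = (j, l.2) then 1 else 0) l.1)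
    (fun l c => by
      obtain ⟨i, b⟩ := l
      refine Fin.cases ?_ (fun j => ?_) i
      · exact MH_C _
      · convert Gen.MH_X (K := L) (ι := Fin r × Fin β) (j, b) c <;> simp)
  have h2 : (fun p : Fin r × Fin β => ∑ l : Fin (r + 1) × Fin β, τ l *
      Fin.cases (motive := fun _ => ℕ) 0 (fun j => if p = (j, l.2) then 1 else 0) l.1) =
      fun p => τ (p.1.succ, p.2) := by
    funext p
    rw [Fintype.sum_prod_type, Fin.sum_univ_succ]
    simp only [Fin.cases_zero, Fin.cases_succ, mul_zero, Finset.sum_const_zero, zero_add]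
    rw [Finset.sum_eq_single p.1, Finset.sum_eq_single p.2]
    · simp
    · intro b _ hb
      rw [if_neg, mul_zero]
      intro h
      exact hb (Prod.ext_iff.1 h).2.symm
    · simp
    · intro j _ hj
      refine Finset.sum_eq_zero (fun b _ => ?_)
      rw [if_neg, mul_zero]
      intro h
      exact hj (Prod.ext_iff.1 h).1.symm
    · simp
  rw [h2] at h1
  exact h1

lemma ev_sl0 {L : Type} [Field L] [Algebra K L] {r : ℕ} (s : Bp A L)
    (Ψ : MvPolynomial ((Fin (r + 1) × Fin β) × Fin n) L) {F : Type} [Field F] [Algebra K F]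
    [Algebra L F] [IsScalarTower K L F] (Q : Fin r → Bp A F) :
    ev (sl0 s Ψ) (vcT Q) = ev Ψ (vcT (Fin.cons (bcB (IsScalarTower.toAlgHom K L F) s) Q :
      Fin (r + 1) → Bp A F)) := by
  unfold sl0
  rw [ev_cmp]
  congr 1
  funext l c
  obtain ⟨i, b⟩ := l
  refine Fin.cases ?_ (fun j => ?_) i
  · simp [ev, vcT, bcB, bcV]
  · simp [ev, vcT]

/-- the form in the first point -/
noncomputable def part0 {L : Type} [Field L] [Algebra K L] {r : ℕ} (F : Type) [Field F]
    [Algebra L F] (v : Fin r × Fin β → Fin n → F)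
    (Ψ : MvPolynomial ((Fin (r + 1) × Fin β) × Fin n) L) : MvPolynomial (Fin β × Fin n) F :=
  cmp (mp F Ψ) (fun l c => Fin.cases (X (l.2, c)) (fun j => C (v (j, l.2) c)) l.1)

lemma MH_part0 {L : Type} [Field L] [Algebra K L] {r : ℕ} (F : Type) [Field F]
    [Algebra L F] (v : Fin r × Fin β → Fin n → F)
    {Ψ : MvPolynomial ((Fin (r + 1) × Fin β) × Fin n) L} {τ : Fin (r + 1) × Fin β → ℕ}
    (hτ : MH τ Ψ) : MH (fun b => τ (0, b)) (part0 (K := K) F v Ψ) := by
  classical
  have h1 := MH_cmp (MH_mp (L := F) hτ)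
    (fun l c => Fin.cases (X (l.2, c)) (fun j => C (v (j, l.2) c)) l.1)
    (fun l (b : Fin β) =>
      Fin.cases (motive := fun _ => ℕ) (if b = l.2 then 1 else 0) (fun _ => 0) l.1)
    (fun l c => by
      obtain ⟨i, b⟩ := l
      refine Fin.cases ?_ (fun j => ?_) i
      · convert Gen.MH_X (K := F) (ι := Fin β) b c <;> simp
      · exact MH_C _)
  have h2 : (fun b : Fin β => ∑ l : Fin (r + 1) × Fin β, τ l *
      Fin.cases (motive := fun _ => ℕ) (if b = l.2 then 1 else 0) (fun _ => 0) l.1) =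
      fun b => τ (0, b) := by
    funext b
    rw [Fintype.sum_prod_type, Fin.sum_univ_succ]
    simp only [Fin.cases_zero, Fin.cases_succ, mul_zero, Finset.sum_const_zero, add_zero]
    rw [Finset.sum_eq_single b]
    · simp
    · intro b' _ hb
      rw [if_neg (Ne.symm hb), mul_zero]
    · simp
  rw [h2] at h1
  exact h1

lemma ev_part0 {L : Type} [Field L] [Algebra K L] {r : ℕ} (F : Type) [Field F] [Algebra K F]
    [Algebra L F] [IsScalarTower K L F] (Q : Fin r → Bp A F) (P : Bp A F)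
    (Ψ : MvPolynomial ((Fin (r + 1) × Fin β) × Fin n) L) :
    ev (part0 (K := K) F (vcT Q) Ψ) (vc P) = ev Ψ (vcT (Fin.cons P Q : Fin (r + 1) → Bp A F)) := by
  unfold part0
  rw [ev_cmp, ev_mp]
  congr 1
  funext l c
  obtain ⟨i, b⟩ := l
  refine Fin.cases ?_ (fun j => ?_) i
  · simp [ev, vcT, vc]
  · simp [ev, vcT]

/-- applying a linear functional to the coefficients -/
noncomputable def mapc {L F : Type} [Field L] [Field F] [Algebra L F] {σ : Type}
    (ℓ : F →ₗ[L] L) (h : MvPolynomial σ F) : MvPolynomial σ L :=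
  ∑ m ∈ h.support, monomial m (ℓ (coeff m h))

lemma MH_mapc {L F : Type} [Field L] [Field F] [Algebra L F] {ι : Type} [Fintype ι]
    (ℓ : F →ₗ[L] L) {h : MvPolynomial (ι × Fin n) F} {τ : ι → ℕ} (hτ : MH τ h) :
    MH τ (mapc ℓ h) := by
  classical
  unfold mapc
  refine MH_sum _ _ _ (fun m hm => ?_)
  intro m' hm' j
  have h1 : m' = m := by
    have := support_monomial_subset hm'
    rwa [Finset.mem_singleton] at this
  rw [h1]
  exact hτ m hm j

lemma ev_mapc {L F F' : Type} [Field L] [Field F] [Algebra L F] [Field F'] [Algebra L F']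
    {ι : Type} [Fintype ι]
    (ℓ : F →ₗ[L] L) (h : MvPolynomial (ι × Fin n) F) (u : ι → Fin n → F') :
    ev (mapc ℓ h) u = ∑ m ∈ h.support, algebraMap L F' (ℓ (coeff m h)) *
      ∏ p, u p.1 p.2 ^ m p := by
  unfold ev mapc
  rw [map_sum]
  refine Finset.sum_congr rfl (fun m _ => ?_)
  rw [aeval_monomial, Finsupp.prod_fintype _ _ (fun p => pow_zero _)]

lemma ev_mapc_L {L F : Type} [Field L] [Field F] [Algebra L F] {ι : Type} [Fintype ι]
    (ℓ : F →ₗ[L] L) (h : MvPolynomial (ι × Fin n) F) (u : ι → Fin n → L) :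
    ev (mapc ℓ h) u = ℓ (ev h (fun j c => algebraMap L F (u j c))) := by
  rw [ev_mapc, ev_expand, map_sum]
  refine Finset.sum_congr rfl (fun m _ => ?_)
  have h1 : (algebraMap F F (coeff m h) * ∏ p : ι × Fin n, algebraMap L F (u p.1 p.2) ^ m p) =
      (∏ p : ι × Fin n, u p.1 p.2 ^ m p) • coeff m h := by
    rw [Algebra.smul_def, map_prod, mul_comm]
    congr 1
    refine Finset.prod_congr rfl (fun p _ => ?_)
    rw [map_pow]
  rw [h1, map_smul, smul_eq_mul, mul_comm]
  rfl

lemma exists_functional {L F : Type} [Field L] [Field F] [Algebra L F] {ι : Type} [Fintype ι]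
    (h : MvPolynomial (ι × Fin n) F) (u : ι → Fin n → F) (hne : ev h u ≠ 0) :
    ∃ ℓ : F →ₗ[L] L, ev (mapc ℓ h) u ≠ 0 := by
  classical
  by_contra hcon
  push Not at hcon
  apply hne
  let b := Module.Basis.ofVectorSpace L F
  set I := h.support.biUnion (fun m => (b.repr (coeff m h)).support) with hI
  have h1 : ∀ m ∈ h.support, coeff m h = ∑ i ∈ I, algebraMap L F (b.coord i (coeff m h)) * b i := by
    intro m hm
    have h2 := b.linearCombination_repr (coeff m h)
    rw [Finsupp.linearCombination_apply, Finsupp.sum_of_support_subset (s := I)] at h2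
    · conv_lhs => rw [← h2]
      refine Finset.sum_congr rfl (fun i _ => ?_)
      rw [Algebra.smul_def]
      rfl
    · exact Finset.subset_biUnion_of_mem (fun m => (b.repr (coeff m h)).support) hm
    · intro i _
      rw [zero_smul]
  rw [ev_expand]
  have h3 : ∑ m ∈ h.support, algebraMap F F (coeff m h) * ∏ p : ι × Fin n, u p.1 p.2 ^ m p =
      ∑ i ∈ I, b i * ev (mapc (b.coord i) h) u := by
    have h4 : ∀ i, b i * ev (mapc (b.coord i) h) u = ∑ m ∈ h.support,
        algebraMap L F (b.coord i (coeff m h)) * b i * ∏ p, u p.1 p.2 ^ m p := by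
      intro i
      rw [ev_mapc, Finset.mul_sum]
      refine Finset.sum_congr rfl (fun m _ => ?_)
      ring
    simp_rw [h4]
    rw [Finset.sum_comm]
    refine Finset.sum_congr rfl (fun m hm => ?_)
    rw [← Finset.sum_mul, ← h1 m hm]
    rfl
  rw [h3]
  exact Finset.sum_eq_zero (fun i _ => by rw [hcon, mul_zero])

/-- a hypersurface containing a set of special points -/
lemma slice {L : Type} [Field L] [Algebra K L] {r : ℕ} (S : Set (Bp A L))
    (Ψ : MvPolynomial ((Fin (r + 1) × Fin β) × Fin n) L) (τ : Fin (r + 1) × Fin β → ℕ)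
    (hτ : MH τ Ψ) (hN : NZr A L Ψ) (hS : ∀ s ∈ S, ¬ NZr A L (sl0 s Ψ)) :
    ∃ H : MvPolynomial (Fin β × Fin n) L, MH (fun b => τ (0, b)) H ∧ NZ1 A L H ∧
      ∀ s ∈ S, ev H (vc s) = 0 := by
  obtain ⟨F, iF, iKF, iLF, iT, Q, hQ⟩ := hN
  have hcons : (Fin.cons (Q 0) (Fin.tail Q) : Fin (r + 1) → Bp A F) = Q := Fin.cons_self_tail Q
  have h1 := ev_part0 (K := K) F (Fin.tail Q) (Q 0) Ψ
  rw [hcons] at h1
  obtain ⟨ℓ, hℓ⟩ := exists_functional (L := L) (part0 (K := K) F (vcT (Fin.tail Q)) Ψ) (vc (Q 0))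
    (by rw [h1]; exact hQ)
  refine ⟨mapc ℓ (part0 (K := K) F (vcT (Fin.tail Q)) Ψ), MH_mapc ℓ (MH_part0 F _ hτ),
    ⟨F, iF, iKF, iLF, iT, Q 0, hℓ⟩, fun s hs => ?_⟩
  rw [ev_mapc_L]
  have h2 : (fun (j : Fin β) (c : Fin n) => algebraMap L F (vc s j c)) =
      vc (bcB (IsScalarTower.toAlgHom K L F) s) := rfl
  rw [h2, ev_part0, ← ev_sl0]
  by_cases h3 : ev (sl0 s Ψ) (vcT (Fin.tail Q)) = 0
  · rw [h3, map_zero]
  · exact absurd ⟨F, iF, iKF, iLF, iT, Fin.tail Q, h3⟩ (hS s hs)

/-- **Selection.** -/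
theorem sel {L : Type} [Field L] [Algebra K L] (S : Set (Bp A L)) (D : ℕ) : ∀ (r : ℕ)
    (Ψ : MvPolynomial ((Fin r × Fin β) × Fin n) L) (τ : Fin r × Fin β → ℕ),
    MH τ Ψ → (∀ p, τ p ≤ D) → NZr A L Ψ →
    (∃ Q : Fin r → Bp A L, (∀ j, Q j ∈ S) ∧ ev Ψ (vcT Q) ≠ 0) ∨
    ∃ (H : MvPolynomial (Fin β × Fin n) L) (σ : Fin β → ℕ), MH σ H ∧ (∀ b, σ b ≤ D) ∧
      NZ1 A L H ∧ ∀ y ∈ S, ev H (vc y) = 0 := by
  intro r
  induction r with
  | zero =>
    intro Ψ τ hτ hD hN
    obtain ⟨F, iF, iKF, iLF, iT, Q, hQ⟩ := hN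
    refine Or.inl ⟨fun j => j.elim0, fun j => j.elim0, fun h => hQ ?_⟩
    have h1 : ev Ψ (vcT Q) = algebraMap L F (ev Ψ (vcT (fun j => j.elim0 : Fin 0 → Bp A L))) := by
      unfold ev
      have h2 := MvPolynomial.comp_aeval_apply
        (f := fun p : (Fin 0 × Fin β) × Fin n => vcT (A := A) (F := L)
          (fun j => j.elim0 : Fin 0 → Bp A L) p.1 p.2) (Algebra.ofId L F) Ψ
      refine Eq.trans ?_ h2.symm
      congr 1
      congr 1
      funext p
      exact p.1.1.elim0
    rw [h1, h, map_zero]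
  | succ r ih =>
    intro Ψ τ hτ hD hN
    by_cases hs : ∃ s ∈ S, NZr A L (sl0 s Ψ)
    · obtain ⟨s, hsS, hsN⟩ := hs
      rcases ih (sl0 s Ψ) _ (MH_sl0 s hτ) (fun p => hD _) hsN with ⟨Q, hQ1, hQ2⟩ | h
      · left
        refine ⟨Fin.cons s Q, fun j => ?_, ?_⟩
        · refine Fin.cases ?_ (fun j => ?_) j
          · exact hsS
          · exact hQ1 j
        · rw [ev_sl0] at hQ2
          have h1 : bcB (IsScalarTower.toAlgHom K L L) s = s := by
            funext b
            rfl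
          rw [h1] at hQ2
          exact hQ2
      · exact Or.inr h
    · push Not at hs
      obtain ⟨H, h1, h2, h3⟩ := slice S Ψ τ hτ hN hs
      exact Or.inr ⟨H, _, h1, fun b => hD _, h2, h3⟩

end sl

section shift

variable {K : Type} [Field K] {n β : ℕ}

/-- the forms giving the difference with a fixed point -/
noncomputable def Cs (A : Fin β → AbV K n) {L : Type} [Field L] [Algebra K L] (a : Bp A L)
    (i : Fin β → Fin n) (b : Fin β) (c : Fin n) : MvPolynomial (Fin β × Fin n) L :=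
  cmp (mp L ((A b).Λ (i b) c)) (fun (l : Fin 2) e => if l = 0 then X (b, e) else C ((a b).1 e))

lemma MH_Cs (A : Fin β → AbV K n) {L : Type} [Field L] [Algebra K L] (a : Bp A L)
    (i : Fin β → Fin n) (b : Fin β) (c : Fin n) : MH (HypL.sg b) (Cs A a i b c) := by
  classical
  have h := MH_cmp (MH_mp (L := L) ((A b).Λ_hom (i b) c))
    (fun (l : Fin 2) (e : Fin n) => if l = 0 then X (b, e) else C ((a b).1 e))
    (fun l j => if l = 0 then (if j = b then 1 else 0) else 0) (fun l e => by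
      by_cases hl : l = 0
      · simp only [hl, if_true]
        convert Gen.MH_X (K := L) b e
      · simp only [if_neg hl]
        exact MH_C _)
  have h2 : (fun j : Fin β => ∑ l : Fin 2, 2 * (if l = 0 then (if j = b then 1 else 0) else 0)) =
      HypL.sg b := by
    funext j
    rw [Fin.sum_univ_two]
    simp only [if_true, one_ne_zero, if_false, mul_zero, add_zero, HypL.sg]
    split_ifs <;> rfl
  rw [h2] at h
  exact h

lemma ev_Cs (A : Fin β → AbV K n) {L : Type} [Field L] [Algebra K L] (a : Bp A L)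
    (i : Fin β → Fin n) (b : Fin β) {F : Type} [Field F] [Algebra K F] [Algebra L F]
    [IsScalarTower K L F] (P : Bp A F) :
    ∃ s : F, s ≠ 0 ∧ ∀ c, ev (Cs A a i b c) (vc P) =
      (s * ((P + bcB (IsScalarTower.toAlgHom K L F) a) b).1 (i b)) *
        ((P - bcB (IsScalarTower.toAlgHom K L F) a) b).1 c := by
  obtain ⟨s, hs, hs'⟩ := (A b).Λ_spec F (P b) (bcB (IsScalarTower.toAlgHom K L F) a b)
  refine ⟨s, hs, fun c => ?_⟩
  unfold Cs
  rw [ev_cmp, ev_mp]
  have h1 : (fun (l : Fin 2) (e : Fin n) =>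
      ev (if l = 0 then X (b, e) else C ((a b).1 e) : MvPolynomial (Fin β × Fin n) L) (vc P)) =
      ![(P b).1, (bcB (IsScalarTower.toAlgHom K L F) a b).1] := by
    funext l
    fin_cases l
    · funext e
      simp [ev, vc]
    · funext e
      simp [ev, bcB, bcV]
  rw [h1, mul_assoc]
  exact hs' (i b) c

/-- a form vanishing at the translates of the points of a set -/
theorem shift (A : Fin β → AbV K n) {L : Type} [Field L] [Algebra K L]
    (H : MvPolynomial (Fin β × Fin n) L) (τ : Fin β → ℕ) (hτ : MH τ H) (hN : NZ1 A L H)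
    (a : Bp A L) : ∃ H' : MvPolynomial (Fin β × Fin n) L, MH (fun b => τ b * 2) H' ∧
      NZ1 A L H' ∧ ∀ y : Bp A L, ev H (vc (y - a)) = 0 → ev H' (vc y) = 0 := by
  classical
  obtain ⟨F, iF, iKF, iLF, iT, P, hP⟩ := hN
  set aF : Bp A F := bcB (IsScalarTower.toAlgHom K L F) a with haF
  have hi : ∀ b, ∃ i, ((P + aF + aF) b).1 i ≠ 0 := fun b => by
    obtain ⟨i, hi, -⟩ := ((P + aF + aF) b).2.1
    exact ⟨i, by rw [hi]; exact one_ne_zero⟩
  choose i hi using hi
  refine ⟨cmp H (fun b c => Cs A a i b c), ?_, ⟨F, iF, iKF, iLF, iT, P + aF, ?_⟩, fun y hy => ?_⟩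
  · have h1 := MH_cmp hτ (fun b c => Cs A a i b c) (fun b => HypL.sg b) (fun b c => MH_Cs A a i b c)
    have h2 : (fun j : Fin β => ∑ l, τ l * HypL.sg l j) = fun b => τ b * 2 := by
      funext j
      unfold HypL.sg
      rw [Finset.sum_eq_single j]
      · rw [if_pos rfl]
      · intro l _ hl
        rw [if_neg (Ne.symm hl), mul_zero]
      · simp
    rw [h2] at h1
    exact h1
  · rw [ev_cmp]
    choose s hs hs' using fun b => ev_Cs A a i b (F := F) (P + aF)
    have h1 : (fun (l : Fin β) (c : Fin n) => ev (Cs A a i l c) (vc (P + aF))) =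
        fun b => (s b * ((P + aF + aF) b).1 (i b)) • vc P b := by
      funext b c
      rw [hs' b c]
      rw [← haF, add_sub_cancel_right]
      rfl
    rw [h1, ev_smul hτ]
    exact mul_ne_zero (Finset.prod_ne_zero_iff.2 fun b _ =>
      pow_ne_zero _ (mul_ne_zero (hs b) (hi b))) hP
  · rw [ev_cmp]
    choose s hs hs' using fun b => ev_Cs A a i b (F := L) y
    have h0 : bcB (IsScalarTower.toAlgHom K L L) a = a := by
      funext b
      rfl
    have h1 : (fun (l : Fin β) (c : Fin n) => ev (Cs A a i l c) (vc y)) =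
        fun b => (s b * ((y + a) b).1 (i b)) • vc (y - a) b := by
      funext b c
      rw [hs' b c, h0]
      rfl
    rw [h1, ev_smul hτ, hy, mul_zero]

end shift

end Pool.Agent.H14.LB
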